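import Mathlib

/-! Basic facts about Graham's equation: the sum of the proper divisors of `n` is `n / 2`. -/

namespace Run7.h29

open Finset

/-- The sum of all divisors. -/
def sg (n : ℕ) : ℕ := ∑ d ∈ n.divisors, d

theorem sg_one : sg 1 = 1 := by simp [sg]

theorem sg_mul {m n : ℕ} (h : Nat.Coprime m n) : sg (m * n) = sg m * sg n := by
  unfold sg
  exact h.sum_divisors_mul

theorem sg_prime_pow {p : ℕ} (hp : p.Prime) (e : ℕ) :
    sg (p ^ e) = ∑ i ∈ range (e + 1), p ^ i := by
  unfold sg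
  rw [Nat.divisors_prime_pow hp]
  simp

theorem sg_prime {p : ℕ} (hp : p.Prime) : sg p = p + 1 := by
  have := sg_prime_pow hp 1
  rw [pow_one] at this
  rw [this]
  simp [Finset.sum_range_succ, add_comm]

theorem sg_pos {n : ℕ} (hn : 0 < n) : 0 < sg n := by
  unfold sg
  exact Finset.sum_pos (fun d hd => Nat.pos_of_mem_divisors hd)
    ⟨1, Nat.one_mem_divisors.mpr hn.ne'⟩

/-- The hypothesis of the question forces `n = 2` or `n` odd with `2 σ(n) + 1 = 3 n`. -/
theorem basic {n : ℕ} (hn : 0 < n) (h : (∑ i ∈ n.properDivisors, i) = n / 2) (h2 : n ≠ 2) :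
    Odd n ∧ 2 * sg n + 1 = 3 * n := by
  have hs : sg n = n / 2 + n := by
    unfold sg
    rw [Nat.sum_divisors_eq_sum_properDivisors_add_self, h]
  have hodd : Odd n := by
    by_contra hno
    rw [Nat.not_odd_iff_even] at hno
    obtain ⟨m, hm⟩ := hno
    have hm1 : 1 < m := by omega
    have hdiv : n / 2 = m := by omega
    have hsub : ({1, m} : Finset ℕ) ⊆ n.properDivisors := by
      intro x hx
      simp only [mem_insert, mem_singleton] at hx
      rw [Nat.mem_properDivisors]
      rcases hx with rfl | rfl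
      · exact ⟨one_dvd _, by omega⟩
      · exact ⟨⟨2, by omega⟩, by omega⟩
    have hle : (∑ i ∈ ({1, m} : Finset ℕ), i) ≤ ∑ i ∈ n.properDivisors, i :=
      Finset.sum_le_sum_of_subset hsub
    rw [Finset.sum_pair (by omega), h, hdiv] at hle
    omega
  refine ⟨hodd, ?_⟩
  obtain ⟨k, hk⟩ := hodd
  omega

/-- A prime dividing `x ^ 2 + 3`, other than `2` and `3`, is `1` modulo `3`. -/
theorem prime_mod_three {l x : ℕ} (hl : l.Prime) (h2 : l ≠ 2) (h3 : l ≠ 3)
    (hx : l ∣ x ^ 2 + 3) : l % 3 = 1 := by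
  haveI : Fact l.Prime := ⟨hl⟩
  have h2' : (2 : ZMod l) ≠ 0 := by
    intro h
    have : ((2 : ℕ) : ZMod l) = 0 := by exact_mod_cast h
    rw [ZMod.natCast_eq_zero_iff] at this
    exact h2 ((Nat.prime_dvd_prime_iff_eq hl Nat.prime_two).mp this)
  have h3' : (3 : ZMod l) ≠ 0 := by
    intro h
    have : ((3 : ℕ) : ZMod l) = 0 := by exact_mod_cast h
    rw [ZMod.natCast_eq_zero_iff] at this
    exact h3 ((Nat.prime_dvd_prime_iff_eq hl Nat.prime_three).mp this)
  have hx' : (x : ZMod l) ^ 2 + 3 = 0 := by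
    have := (ZMod.natCast_eq_zero_iff (x ^ 2 + 3) l).mpr hx
    push_cast at this
    exact this
  set y : ZMod l := ((x : ZMod l) - 1) / 2 with hy
  have hy2 : 2 * y = (x : ZMod l) - 1 := by
    rw [hy]; field_simp
  have hyy : y ^ 2 + y + 1 = 0 := by
    have : 4 * (y ^ 2 + y + 1) = 0 := by
      have e : 4 * (y ^ 2 + y + 1) = (2 * y) ^ 2 + 2 * (2 * y) + 4 := by ring
      rw [e, hy2]
      linear_combination hx'
    have h4 : (4 : ZMod l) ≠ 0 := by
      have : (4 : ZMod l) = 2 * 2 := by norm_num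
      rw [this]; exact mul_ne_zero h2' h2'
    exact (mul_eq_zero.mp this).resolve_left h4
  have hy3 : y ^ 3 = 1 := by linear_combination (y - 1) * hyy
  have hy1 : y ≠ 1 := by
    intro h
    rw [h] at hyy
    apply h3'
    linear_combination hyy
  have hy0 : y ≠ 0 := by
    intro h
    rw [h] at hyy
    norm_num at hyy
  have hord : orderOf y = 3 := orderOf_eq_prime hy3 hy1
  have hdvd : orderOf y ∣ l - 1 := by
    apply orderOf_dvd_of_pow_eq_one
    exact ZMod.pow_card_sub_one_eq_one hy0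
  rw [hord] at hdvd
  have := hl.two_le
  omega

/-- A number all of whose prime factors are `1` modulo `3` is `1` modulo `3`. -/
theorem mod_three_of_primes {w : ℕ} (hw : w ≠ 0)
    (h : ∀ l : ℕ, l.Prime → l ∣ w → l % 3 = 1) : w % 3 = 1 := by
  induction w using Nat.recOnMul with
  | zero => exact absurd rfl hw
  | one => rfl
  | prime p hp => exact h p hp dvd_rfl
  | mul a b ha hb =>
    have ha0 : a ≠ 0 := left_ne_zero_of_mul hw
    have hb0 : b ≠ 0 := right_ne_zero_of_mul hw
    have h1 := ha ha0 (fun l hl hd => h l hl (dvd_mul_of_dvd_left hd b))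
    have h2 := hb hb0 (fun l hl hd => h l hl (dvd_mul_of_dvd_right hd a))
    rw [Nat.mul_mod, h1, h2]

/-- For odd exponent, `p + 1` divides `σ(p ^ e)`. -/
theorem succ_dvd_sg_pow {p e : ℕ} (hp : p.Prime) (he : Odd e) : p + 1 ∣ sg (p ^ e) := by
  rw [sg_prime_pow hp]
  obtain ⟨k, rfl⟩ := he
  induction k with
  | zero => simp [Finset.sum_range_succ, add_comm]
  | succ k ih =>
    have : 2 * (k + 1) + 1 + 1 = (2 * k + 1 + 1) + 1 + 1 := by ring
    rw [this, Finset.sum_range_succ, Finset.sum_range_succ]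
    rw [add_assoc]
    apply dvd_add ih
    refine ⟨p ^ (2 * k + 1 + 1), ?_⟩
    ring

end Run7.h29
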