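import Mathlib
import Pool.Agent.Run7.h29.Basic

/-! Inequalities for the sum of divisors of a number with `r` prime factors, all large. -/

namespace Run7.h29

theorem sg_pow_succ {p : ℕ} (hp : p.Prime) (e : ℕ) : sg (p ^ (e + 1)) = p * sg (p ^ e) + 1 := by
  rw [sg_prime_pow hp, sg_prime_pow hp, Finset.sum_range_succ' _ (e + 1), Finset.mul_sum]
  simp [pow_succ, mul_comm]

theorem sg_pow_mul {p : ℕ} (hp : p.Prime) (e : ℕ) : sg (p ^ e) * (p - 1) + 1 = p * p ^ e := by
  obtain ⟨t, rfl⟩ : ∃ t, p = t + 1 := ⟨p - 1, by have := hp.pos; omega⟩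
  simp only [Nat.add_sub_cancel]
  induction e with
  | zero => simp [sg_one]
  | succ e ih =>
    rw [sg_pow_succ hp, pow_succ]
    calc ((t + 1) * sg ((t + 1) ^ e) + 1) * t + 1
        = (t + 1) * (sg ((t + 1) ^ e) * t + 1) := by ring
      _ = (t + 1) * ((t + 1) ^ e * (t + 1)) := by rw [ih]; ring

theorem le_sg {n : ℕ} (hn : n ≠ 0) : n ≤ sg n := by
  unfold sg
  exact Finset.single_le_sum (f := fun d => d) (fun _ _ => Nat.zero_le _)
    (Nat.mem_divisors_self n hn)

/-- If `p ∣ x` with `p > 1`, then `x (p + 1) ≤ σ(x) p`. -/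
theorem mul_succ_le_sg_mul {x p : ℕ} (hx : x ≠ 0) (hp : 1 < p) (hd : p ∣ x) :
    x * (p + 1) ≤ sg x * p := by
  obtain ⟨y, rfl⟩ := hd
  have hy : y ≠ 0 := right_ne_zero_of_mul hx
  have hne : y ≠ p * y := by
    intro h
    have : 1 * y < p * y := Nat.mul_lt_mul_of_pos_right hp (Nat.pos_of_ne_zero hy)
    omega
  have hsub : ({y, p * y} : Finset ℕ) ⊆ (p * y).divisors := by
    intro z hz
    simp only [Finset.mem_insert, Finset.mem_singleton] at hz
    rw [Nat.mem_divisors]
    rcases hz with rfl | rfl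
    · exact ⟨Dvd.intro_left p rfl, hx⟩
    · exact ⟨dvd_rfl, hx⟩
  have hle : (∑ i ∈ ({y, p * y} : Finset ℕ), i) ≤ sg (p * y) := by
    unfold sg
    exact Finset.sum_le_sum_of_subset hsub
  rw [Finset.sum_pair hne] at hle
  calc p * y * (p + 1) = (y + p * y) * p := by ring
    _ ≤ sg (p * y) * p := Nat.mul_le_mul_right p hle

theorem lt_sg {x : ℕ} (hx : 1 < x) : x < sg x := by
  have h := mul_succ_le_sg_mul (x := x) (p := x) (by omega) hx dvd_rfl
  rw [mul_comm x (x + 1)] at h
  have := Nat.le_of_mul_le_mul_right h (by omega)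
  omega

/-- All prime factors exceed `P`. -/
def Big (P x : ℕ) : Prop := ∀ q : ℕ, q.Prime → q ∣ x → P < q

theorem one_of_card_zero {x : ℕ} (hx : x ≠ 0) (hc : x.primeFactors.card = 0) : x = 1 := by
  rw [Finset.card_eq_zero, Nat.primeFactors_eq_empty] at hc
  rcases hc with h | h
  · exact absurd h hx
  · exact h

/-- Splitting off the smallest prime power. -/
theorem split {x r : ℕ} (hx : x ≠ 0) (hc : x.primeFactors.card = r + 1) :
    ∃ p e y : ℕ, p.Prime ∧ x = p ^ (e + 1) * y ∧ y ≠ 0 ∧ y.primeFactors.card = r ∧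
      Nat.Coprime p y ∧ Big p y ∧ p ∣ x := by
  have hx1 : x ≠ 1 := by
    rintro rfl
    simp at hc
  set p := x.minFac with hpdef
  have hp : p.Prime := Nat.minFac_prime hx1
  have hpx : p ∣ x := Nat.minFac_dvd x
  set y := x / p ^ x.factorization p with hy
  have hxy : p ^ x.factorization p * y = x := Nat.ordProj_mul_ordCompl_eq_self x p
  have hy0 : y ≠ 0 := by
    intro h
    rw [h, mul_zero] at hxy
    exact hx hxy.symm
  have hcop : Nat.Coprime p y := Nat.coprime_ordCompl hp hx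
  have hfp : 0 < x.factorization p := hp.factorization_pos_of_dvd hx hpx
  refine ⟨p, x.factorization p - 1, y, hp, ?_, hy0, ?_, hcop, ?_, hpx⟩
  · rw [Nat.sub_add_cancel hfp]
    exact hxy.symm
  · have hcop' : Nat.Coprime (p ^ x.factorization p) y := Nat.Coprime.pow_left _ hcop
    have h1 : x.primeFactors = (p ^ x.factorization p).primeFactors ∪ y.primeFactors := by
      conv_lhs => rw [← hxy]
      exact hcop'.primeFactors_mul
    have h2 : Disjoint (p ^ x.factorization p).primeFactors y.primeFactors :=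
      hcop'.disjoint_primeFactors
    rw [h1, Finset.card_union_of_disjoint h2, Nat.primeFactors_prime_pow hfp.ne' hp,
      Finset.card_singleton] at hc
    omega
  · intro q hq hqy
    have hqx : q ∣ x := by
      rw [← hxy]
      exact dvd_mul_of_dvd_right hqy _
    have h1 : p ≤ q := Nat.minFac_le_of_dvd hq.two_le hqx
    rcases lt_or_eq_of_le h1 with h | h
    · exact h
    · exfalso
      rw [← h] at hqy
      have : p ∣ 1 := by
        rw [← hcop]
        exact Nat.dvd_gcd dvd_rfl hqy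
      exact hp.one_lt.ne' (Nat.dvd_one.mp this)

/-- If `x` has `r ≥ 1` prime factors, all at least `p`, then `σ(x) (p - r) < x p`. -/
theorem sg_bound (r : ℕ) : ∀ (x p : ℕ), x ≠ 0 → x.primeFactors.card = r + 1 → 0 < p →
    (∀ q : ℕ, q.Prime → q ∣ x → p ≤ q) → sg x * (p - (r + 1)) < x * p := by
  induction r with
  | zero =>
    intro x p hx hc hp0 hb
    obtain ⟨q, e, y, hq, rfl, hy0, hyc, hcop, hbig, hqx⟩ := split hx hc
    have hy1 : y = 1 := one_of_card_zero hy0 hyc
    subst hy1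
    have hpq : p ≤ q := hb q hq hqx
    rw [mul_one]
    have h := sg_pow_mul hq (e + 1)
    have hge : q ^ (e + 1) ≤ sg (q ^ (e + 1)) := le_sg (pow_ne_zero _ hq.ne_zero)
    obtain ⟨t, rfl⟩ : ∃ t, p = t + 1 := ⟨p - 1, by omega⟩
    obtain ⟨d, rfl⟩ : ∃ d, q = t + 1 + d := ⟨q - (t + 1), by omega⟩
    simp only [Nat.zero_add, Nat.add_sub_cancel]
    have h' : t + 1 + d - 1 = t + d := by omega
    rw [h'] at h
    set S := sg ((t + 1 + d) ^ (e + 1))
    set Q := (t + 1 + d) ^ (e + 1)
    -- S (t + d) + 1 = (t + 1 + d) Q , Q ≤ S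
    nlinarith [Nat.mul_le_mul_right d hge]
  | succ r ih =>
    intro x p hx hc hp0 hb
    obtain ⟨q, e, y, hq, rfl, hy0, hyc, hcop, hbig, hqx⟩ := split hx hc
    have hpq : p ≤ q := hb q hq hqx
    have hcop' : Nat.Coprime (q ^ (e + 1)) y := Nat.Coprime.pow_left _ hcop
    rw [sg_mul hcop']
    have h := sg_pow_mul hq (e + 1)
    have hge : q ^ (e + 1) ≤ sg (q ^ (e + 1)) := le_sg (pow_ne_zero _ hq.ne_zero)
    have hih := ih y p hy0 hyc hp0 (fun l hl hd => (hpq.trans (hbig l hl hd).le))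
    have hQ0 : 0 < q ^ (e + 1) := pow_pos hq.pos _
    have hy0' : 0 < y := Nat.pos_of_ne_zero hy0
    rcases Nat.lt_or_ge (r + 1 + 1) p with hlt | hge2
    · obtain ⟨t, rfl⟩ : ∃ t, p = t + (r + 1 + 1) := ⟨p - (r + 1 + 1), by omega⟩
      obtain ⟨d, rfl⟩ : ∃ d, q = t + (r + 1 + 1) + d := ⟨q - (t + (r + 1 + 1)), by omega⟩
      have e1 : t + (r + 1 + 1) - (r + 1 + 1) = t := by omega
      have e2 : t + (r + 1 + 1) - (r + 1) = t + 1 := by omega
      have e3 : t + (r + 1 + 1) + d - 1 = t + (r + 1) + d := by omega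
      rw [e1]
      rw [e2] at hih
      rw [e3] at h
      set S := sg ((t + (r + 1 + 1) + d) ^ (e + 1))
      set Q := (t + (r + 1 + 1) + d) ^ (e + 1)
      set Y := sg y
      -- S (t + r + 1) < Q (t + r + 2)
      have h1 : S * (t + (r + 1)) < Q * (t + (r + 1 + 1)) := by
        nlinarith [Nat.mul_le_mul_right d hge]
      -- Y (t + 1) < y (t + r + 2)
      have h2 : (S * (t + (r + 1))) * (Y * (t + 1)) <
          (Q * (t + (r + 1 + 1))) * (y * (t + (r + 1 + 1))) :=
        Nat.mul_lt_mul'' h1 hih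
      have h3 : t * (t + (r + 1 + 1)) ≤ (t + (r + 1)) * (t + 1) := by nlinarith
      have h4 : S * Y * t * (t + (r + 1 + 1)) < Q * y * (t + (r + 1 + 1)) * (t + (r + 1 + 1)) := by
        calc S * Y * t * (t + (r + 1 + 1)) = S * Y * (t * (t + (r + 1 + 1))) := by ring
          _ ≤ S * Y * ((t + (r + 1)) * (t + 1)) := Nat.mul_le_mul_left _ h3
          _ = (S * (t + (r + 1))) * (Y * (t + 1)) := by ring
          _ < (Q * (t + (r + 1 + 1))) * (y * (t + (r + 1 + 1))) := h2
          _ = Q * y * (t + (r + 1 + 1)) * (t + (r + 1 + 1)) := by ring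
      exact Nat.lt_of_mul_lt_mul_right h4
    · have : p - (r + 1 + 1) = 0 := by omega
      rw [this, mul_zero]
      positivity

end Run7.h29
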