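import Mathlib
import Pool.Agent.Run7.h29.Arith

/-! The nodes of the search tree. -/

namespace Run7.h29

/-- `A σ(x) + 1 = B x` has a solution `x` with `r` prime factors, all larger than `P`. -/
def Sol (A B P r : ℕ) : Prop :=
  ∃ x : ℕ, x ≠ 0 ∧ x.primeFactors.card = r ∧ Big P x ∧ A * sg x + 1 = B * x

/-- An `x` with `r` prime factors, all larger than `P`, has `A σ(x) / (B x)` in
`(1, 1 + 1 / M]` and `G σ(x)` prime to `H x`. -/
def FSol (A B M G H P r : ℕ) : Prop :=
  ∃ x : ℕ, x ≠ 0 ∧ x.primeFactors.card = r ∧ Big P x ∧ B * x < A * sg x ∧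
    A * sg x * M ≤ B * x * (M + 1) ∧ Nat.Coprime (G * sg x) (H * x)

/-- No solution of an exact node has the exact power `p ^ f`, `f ≥ e`, of its least prime `p`. -/
def NE (A B p r e : ℕ) : Prop :=
  ∀ f : ℕ, e ≤ f → ∀ y : ℕ, y ≠ 0 → y.primeFactors.card = r → Big p y →
    A * (sg (p ^ f) * sg y) + 1 ≠ B * (p ^ f * y)

/-- The same for an inexact node. -/
def FE (A B M G H p r e : ℕ) : Prop :=
  ∀ f : ℕ, e ≤ f → ∀ y : ℕ, y ≠ 0 → y.primeFactors.card = r → Big p y →
    B * (p ^ f * y) < A * (sg (p ^ f) * sg y) →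
    A * (sg (p ^ f) * sg y) * M ≤ B * (p ^ f * y) * (M + 1) →
    ¬ Nat.Coprime (G * (sg (p ^ f) * sg y)) (H * (p ^ f * y))

theorem sg_pos' {n : ℕ} (hn : n ≠ 0) : 0 < sg n := sg_pos (Nat.pos_of_ne_zero hn)

/-- `σ(p ^ f) / p ^ f` increases with `f`. -/
theorem sg_pow_mono {p : ℕ} (hp : p.Prime) {e f : ℕ} (h : e ≤ f) :
    sg (p ^ e) * p ^ f ≤ sg (p ^ f) * p ^ e := by
  induction f, h using Nat.le_induction with
  | base => exact le_rfl
  | succ f hf ih =>
    rw [sg_pow_succ hp, pow_succ p f]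
    calc sg (p ^ e) * (p ^ f * p) = (sg (p ^ e) * p ^ f) * p := by ring
      _ ≤ (sg (p ^ f) * p ^ e) * p := Nat.mul_le_mul_right p ih
      _ ≤ (p * sg (p ^ f) + 1) * p ^ e := by
        have : (p * sg (p ^ f) + 1) * p ^ e = (sg (p ^ f) * p ^ e) * p + p ^ e := by ring
        omega

theorem ne_stop {A B p r e : ℕ} (hp : p.Prime) (h : B * p ^ e ≤ A * sg (p ^ e)) :
    NE A B p r e := by
  intro f hf y hy _ _ heq
  have h1 := sg_pow_mono hp hf
  have hy1 : y ≤ sg y := le_sg hy
  have hpe : 0 < p ^ e := pow_pos hp.pos e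
  have h2 : B * p ^ f ≤ A * sg (p ^ f) := by
    have : (B * p ^ f) * p ^ e ≤ (A * sg (p ^ f)) * p ^ e := by
      calc (B * p ^ f) * p ^ e = (B * p ^ e) * p ^ f := by ring
        _ ≤ (A * sg (p ^ e)) * p ^ f := Nat.mul_le_mul_right _ h
        _ = A * (sg (p ^ e) * p ^ f) := by ring
        _ ≤ A * (sg (p ^ f) * p ^ e) := Nat.mul_le_mul_left _ h1
        _ = (A * sg (p ^ f)) * p ^ e := by ring
    exact Nat.le_of_mul_le_mul_right this hpe
  have h3 : B * (p ^ f * y) ≤ A * (sg (p ^ f) * sg y) := by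
    calc B * (p ^ f * y) = (B * p ^ f) * y := by ring
      _ ≤ (A * sg (p ^ f)) * sg y := Nat.mul_le_mul h2 hy1
      _ = A * (sg (p ^ f) * sg y) := by ring
  omega

theorem ne_gcd {A B p r e : ℕ} (h : ¬ Nat.Coprime (A * sg (p ^ e)) (B * p ^ e))
    (hn : NE A B p r (e + 1)) : NE A B p r e := by
  intro f hf y hy hc hb heq
  rcases Nat.eq_or_lt_of_le hf with rfl | hlt
  · apply h
    rw [Nat.Coprime, ← Nat.dvd_one]
    have h1 : Nat.gcd (A * sg (p ^ e)) (B * p ^ e) ∣ A * (sg (p ^ e) * sg y) := by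
      rw [← mul_assoc]; exact dvd_mul_of_dvd_left (Nat.gcd_dvd_left _ _) _
    have h2 : Nat.gcd (A * sg (p ^ e)) (B * p ^ e) ∣ B * (p ^ e * y) := by
      rw [← mul_assoc]; exact dvd_mul_of_dvd_left (Nat.gcd_dvd_right _ _) _
    rw [← heq] at h2
    exact (Nat.dvd_add_right h1).mp h2
  · exact hn f hlt y hy hc hb heq

theorem ne_child {A B p r e : ℕ} (h : ¬ Sol (A * sg (p ^ e)) (B * p ^ e) p r)
    (hn : NE A B p r (e + 1)) : NE A B p r e := by
  intro f hf y hy hc hb heq
  rcases Nat.eq_or_lt_of_le hf with rfl | hlt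
  · apply h
    refine ⟨y, hy, hc, hb, ?_⟩
    rw [mul_assoc, mul_assoc]
    exact heq
  · exact hn f hlt y hy hc hb heq

theorem ne_flag {A B p r e : ℕ} (hA : 0 < A) (hp : p.Prime) (he : 1 ≤ e)
    (h : ¬ FSol (A * p) (B * (p - 1)) (p ^ e) A (B * p) p (r + 1)) :
    NE A B p (r + 1) e := by
  intro f hf y hy hc hb heq
  apply h
  have hy1 : y ≠ 1 := by
    rintro rfl
    simp at hc
  -- `y` has a prime factor `> p`
  obtain ⟨q, hq, hqy⟩ := Nat.exists_prime_and_dvd hy1
  have hpq : p < q := hb q hq hqy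
  have hqy' : q ≤ y := Nat.le_of_dvd (Nat.pos_of_ne_zero hy) hqy
  have hyy : y ≤ sg y := le_sg hy
  have hQ0 : 0 < p ^ f := pow_pos hp.pos f
  have hge : p ^ f ≤ sg (p ^ f) := le_sg hQ0.ne'
  have hpw : p ^ e ≤ p ^ f := Nat.pow_le_pow_right hp.pos hf
  have hgeo := sg_pow_mul hp f
  obtain ⟨t, rfl⟩ : ∃ t, p = t + 1 := ⟨p - 1, by have := hp.pos; omega⟩
  have ht : 1 ≤ t := by have := hp.two_le; omega
  simp only [Nat.add_sub_cancel] at hgeo ⊢
  -- key relation
  have hkey : A * (t + 1) * sg y * (t + 1) ^ f + t =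
      B * t * y * (t + 1) ^ f + A * sg y := by
    have e1 : A * (t + 1) * sg y * (t + 1) ^ f = A * sg y * ((t + 1) * (t + 1) ^ f) := by ring
    rw [e1, ← hgeo]
    have e2 : A * sg y * (sg ((t + 1) ^ f) * t + 1) =
      t * (A * (sg ((t + 1) ^ f) * sg y)) + A * sg y := by ring
    have e3 : B * t * y * (t + 1) ^ f = t * (B * ((t + 1) ^ f * y)) := by ring
    rw [e2, e3, ← heq]
    ring
  have hAy : t + 1 < A * sg y := by
    calc t + 1 < q := hpq
      _ ≤ sg y := hqy'.trans hyy
      _ = 1 * sg y := (one_mul _).symm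
      _ ≤ A * sg y := Nat.mul_le_mul_right _ hA
  have hlt1 : B * t * y * (t + 1) ^ f < A * (t + 1) * sg y * (t + 1) ^ f := by omega
  have hlt2 : B * t * y < A * (t + 1) * sg y := Nat.lt_of_mul_lt_mul_right hlt1
  -- `A σ(y) < B y`
  have hlt3 : A * sg y < B * y := by
    have : A * sg y * (t + 1) ^ f < B * y * (t + 1) ^ f := by
      calc A * sg y * (t + 1) ^ f = (A * sg y) * (t + 1) ^ f := by ring
        _ ≤ (A * sg y) * sg ((t + 1) ^ f) := Nat.mul_le_mul_left _ hge
        _ = A * (sg ((t + 1) ^ f) * sg y) := by ring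
        _ < B * ((t + 1) ^ f * y) := by omega
        _ = B * y * (t + 1) ^ f := by ring
    exact Nat.lt_of_mul_lt_mul_right this
  have hlt4 : B * y ≤ B * t * y := by
    calc B * y = B * 1 * y := by ring
      _ ≤ B * t * y := Nat.mul_le_mul_right _ (Nat.mul_le_mul_left _ ht)
  refine ⟨y, hy, hc, hb, hlt2, ?_, ?_⟩
  · -- `M (A' σ(y) - B' y) ≤ A σ(y)`
    obtain ⟨δ, hδ⟩ := Nat.exists_eq_add_of_lt hlt2
    have h5 : (δ + 1) * (t + 1) ^ f ≤ A * sg y := by
      rw [hδ] at hkey
      have : (B * t * y + δ + 1) * (t + 1) ^ f =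
        B * t * y * (t + 1) ^ f + (δ + 1) * (t + 1) ^ f := by ring
      omega
    have h6 : (δ + 1) * (t + 1) ^ e ≤ B * t * y :=
      calc (δ + 1) * (t + 1) ^ e ≤ (δ + 1) * (t + 1) ^ f := Nat.mul_le_mul_left _ hpw
        _ ≤ A * sg y := h5
        _ ≤ B * y := hlt3.le
        _ ≤ B * t * y := hlt4
    rw [hδ]
    have : (B * t * y + δ + 1) * (t + 1) ^ e =
      B * t * y * (t + 1) ^ e + (δ + 1) * (t + 1) ^ e := by ring
    have h7 : B * t * y * ((t + 1) ^ e + 1) = B * t * y * (t + 1) ^ e + B * t * y := by ring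
    omega
  · -- coprimality
    apply Nat.Coprime.symm
    have hc1 : Nat.Coprime (A * (sg ((t + 1) ^ f) * sg y)) (B * ((t + 1) ^ f * y)) := by
      rw [← heq]
      exact (Nat.coprime_self_add_right).mpr (Nat.coprime_one_right _)
    have hc2 : Nat.Coprime (A * sg y) (B * ((t + 1) ^ f * y)) := by
      apply Nat.Coprime.coprime_dvd_left _ hc1
      exact ⟨sg ((t + 1) ^ f), by ring⟩
    have hc3 : Nat.Coprime (A * sg y) ((B * y) * (t + 1) ^ f) := by
      have : B * ((t + 1) ^ f * y) = (B * y) * (t + 1) ^ f := by ring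
      rwa [this] at hc2
    rw [Nat.coprime_mul_iff_right] at hc3
    have hf0 : 0 < f := by omega
    have hc4 : Nat.Coprime (A * sg y) (t + 1) :=
      (Nat.coprime_pow_right_iff hf0 _ _).mp hc3.2
    have : B * (t + 1) * y = (B * y) * (t + 1) := by ring
    rw [this]
    exact (Nat.Coprime.mul_right hc3.1 hc4).symm

theorem fe_stop {A B M G H p r e : ℕ} (hp : p.Prime)
    (h : ¬ A * sg (p ^ e) * M ≤ B * p ^ e * (M + 1)) : FE A B M G H p r e := by
  intro f hf y hy _ _ _ hle _
  apply h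
  have h1 := sg_pow_mono hp hf
  have hy1 : y ≤ sg y := le_sg hy
  have hy0 : 0 < y := Nat.pos_of_ne_zero hy
  have hpf : 0 < p ^ f := pow_pos hp.pos f
  have h2 : (A * sg (p ^ e) * M) * (p ^ f * y) ≤ (B * p ^ e * (M + 1)) * (p ^ f * y) := by
    calc (A * sg (p ^ e) * M) * (p ^ f * y) = A * M * y * (sg (p ^ e) * p ^ f) := by ring
      _ ≤ A * M * y * (sg (p ^ f) * p ^ e) := Nat.mul_le_mul_left _ h1
      _ = A * M * sg (p ^ f) * p ^ e * y := by ring
      _ ≤ A * M * sg (p ^ f) * p ^ e * sg y := Nat.mul_le_mul_left _ hy1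
      _ = (A * (sg (p ^ f) * sg y) * M) * p ^ e := by ring
      _ ≤ (B * (p ^ f * y) * (M + 1)) * p ^ e := Nat.mul_le_mul_right _ hle
      _ = (B * p ^ e * (M + 1)) * (p ^ f * y) := by ring
  exact Nat.le_of_mul_le_mul_right h2 (by positivity)

theorem fe_gcd {A B M G H p r e : ℕ} (h : ¬ Nat.Coprime (G * sg (p ^ e)) (H * p ^ e))
    (hn : FE A B M G H p r (e + 1)) : FE A B M G H p r e := by
  intro f hf y hy hc hb h1 h2 h3
  rcases Nat.eq_or_lt_of_le hf with rfl | hlt
  · apply h
    apply Nat.Coprime.coprime_dvd_left _ (Nat.Coprime.coprime_dvd_right _ h3)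
    · exact ⟨sg y, by ring⟩
    · exact ⟨y, by ring⟩
  · exact hn f hlt y hy hc hb h1 h2 h3

theorem fe_child {A B M G H p r e : ℕ}
    (h : ¬ FSol (A * sg (p ^ e)) (B * p ^ e) M (G * sg (p ^ e)) (H * p ^ e) p r)
    (hn : FE A B M G H p r (e + 1)) : FE A B M G H p r e := by
  intro f hf y hy hc hb h1 h2 h3
  rcases Nat.eq_or_lt_of_le hf with rfl | hlt
  · apply h
    refine ⟨y, hy, hc, hb, ?_, ?_, ?_⟩
    · rw [mul_assoc, mul_assoc]; exact h1
    · rw [mul_assoc A, mul_assoc B]; exact h2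
    · rw [mul_assoc, mul_assoc]; exact h3
  · exact hn f hlt y hy hc hb h1 h2 h3

theorem fe_flag {A B M M' G H p r e : ℕ} (hp : p.Prime) (hp5 : 5 ≤ p) (he : 1 ≤ e)
    (hM : 2 * M' ≤ M) (hM' : M' ≤ p ^ e)
    (h : ¬ FSol (A * p) (B * (p - 1)) M' G (H * p) p r) : FE A B M G H p r e := by
  intro f hf y hy hc hb h1 h2 h3
  apply h
  have hQ0 : 0 < p ^ f := pow_pos hp.pos f
  have hge : p ^ f ≤ sg (p ^ f) := le_sg hQ0.ne'
  have hpw : p ^ e ≤ p ^ f := Nat.pow_le_pow_right hp.pos hf
  have hgeo := sg_pow_mul hp f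
  have hy0 : 0 < y := Nat.pos_of_ne_zero hy
  have hsy : 0 < sg y := sg_pos' hy
  obtain ⟨t, rfl⟩ : ∃ t, p = t + 1 := ⟨p - 1, by omega⟩
  simp only [Nat.add_sub_cancel] at hgeo ⊢
  set Q := (t + 1) ^ f with hQ
  set S := sg ((t + 1) ^ f) with hS
  -- `a = A σ(y)`, `b = B y`
  set a := A * sg y with ha
  set b := B * y with hb'
  have e1 : B * (Q * y) = b * Q := by rw [hb']; ring
  have e2 : A * (S * sg y) = a * S := by rw [ha]; ring
  rw [e1, e2] at h1 h2
  have ha0 : 0 < a := by
    rcases Nat.eq_zero_or_pos a with h0 | h0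
    · rw [h0, zero_mul] at h1; exact absurd h1 (Nat.not_lt_zero _)
    · exact h0
  -- (i)
  have hi : b * t * Q + a ≤ a * (t + 1) * Q := by
    have : b * Q * t + t ≤ a * S * t := by
      have : b * Q + 1 ≤ a * S := h1
      calc b * Q * t + t = (b * Q + 1) * t := by ring
        _ ≤ a * S * t := Nat.mul_le_mul_right _ this
    have e3 : a * S * t + a = a * (t + 1) * Q := by
      calc a * S * t + a = a * (S * t + 1) := by ring
        _ = a * ((t + 1) * Q) := by rw [hgeo]
        _ = a * (t + 1) * Q := by ring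
    have e4 : b * t * Q = b * Q * t := by ring
    omega
  have hlt : b * t < a * (t + 1) := by
    have : b * t * Q < a * (t + 1) * Q := by omega
    exact Nat.lt_of_mul_lt_mul_right this
  refine ⟨y, hy, hc, hb, ?_, ?_, ?_⟩
  · calc B * t * y = b * t := by rw [hb']; ring
      _ < a * (t + 1) := hlt
      _ = A * (t + 1) * sg y := by rw [ha]; ring
  · -- (ii)
    have e5 : A * (t + 1) * sg y * M' = a * (t + 1) * M' := by rw [ha]; ring
    have e6 : B * t * y * (M' + 1) = b * t * (M' + 1) := by rw [hb']; ring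
    rw [e5, e6]
    obtain ⟨δ, hδ⟩ := Nat.exists_eq_add_of_lt hlt
    -- `δ + 1 = a (t + 1) - b t`
    have h5 : (δ + 1) * M * Q ≤ b * t * Q + a * M := by
      have e7 : a * S * M * t + a * M = (b * t + δ + 1) * Q * M := by
        calc a * S * M * t + a * M = a * M * (S * t + 1) := by ring
          _ = a * M * ((t + 1) * Q) := by rw [hgeo]
          _ = (a * (t + 1)) * Q * M := by ring
          _ = (b * t + δ + 1) * Q * M := by rw [hδ]
      have h6 : a * S * M * t ≤ b * Q * (M + 1) * t := Nat.mul_le_mul_right _ h2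
      have e8 : (b * t + δ + 1) * Q * M = b * t * Q * M + (δ + 1) * M * Q := by ring
      have e9 : b * Q * (M + 1) * t = b * t * Q * M + b * t * Q := by ring
      omega
    -- `a M < b (M + 1)`, so `a M ≤ b (M + 1)`
    have h7 : a * M ≤ b * (M + 1) := by
      have : a * M * Q ≤ b * (M + 1) * Q := by
        calc a * M * Q = a * Q * M := by ring
          _ ≤ a * S * M := Nat.mul_le_mul_right _ (Nat.mul_le_mul_left _ hge)
          _ ≤ b * Q * (M + 1) := h2
          _ = b * (M + 1) * Q := by ring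
      exact Nat.le_of_mul_le_mul_right this hQ0
    -- goal: `(δ + 1) M' ≤ b t`
    have hgoal : (δ + 1) * M' ≤ b * t := by
      rcases Nat.eq_zero_or_pos M' with h0 | h0
      · rw [h0, mul_zero]; exact Nat.zero_le _
      · -- multiply by `2 M Q`
        have hM1 : 2 ≤ M := by omega
        have h8 : (δ + 1) * M * Q * (2 * M') ≤ (b * t * Q + b * (M + 1)) * (2 * M') :=
          Nat.mul_le_mul_right _ (h5.trans (Nat.add_le_add_left h7 _))
        have h9 : b * (M + 1) * 4 ≤ b * t * (2 * M) := by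
          have : (M + 1) * 4 ≤ 4 * (2 * M) := by omega
          calc b * (M + 1) * 4 = b * ((M + 1) * 4) := by ring
            _ ≤ b * (4 * (2 * M)) := Nat.mul_le_mul_left _ this
            _ ≤ b * (t * (2 * M)) := Nat.mul_le_mul_left _ (Nat.mul_le_mul_right _ (by omega))
            _ = b * t * (2 * M) := by ring
        have hMQ : M' ≤ Q := hM'.trans hpw
        have h10 : (b * t * Q + b * (M + 1)) * (2 * M') ≤ b * t * (2 * M * Q) := by
          have h11 : b * t * Q * (2 * M') ≤ b * t * Q * M := Nat.mul_le_mul_left _ hM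
          have h12 : b * (M + 1) * (2 * M') ≤ b * t * Q * M := by
            have h13 : b * (M + 1) * 2 ≤ b * t * M := by
              have e10 : b * (M + 1) * 4 = 2 * (b * (M + 1) * 2) := by ring
              have e11 : b * t * (2 * M) = 2 * (b * t * M) := by ring
              omega
            calc b * (M + 1) * (2 * M') = (b * (M + 1) * 2) * M' := by ring
              _ ≤ (b * t * M) * Q := Nat.mul_le_mul h13 hMQ
              _ = b * t * Q * M := by ring
          have e12 : (b * t * Q + b * (M + 1)) * (2 * M') =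
            b * t * Q * (2 * M') + b * (M + 1) * (2 * M') := by ring
          have e13 : b * t * (2 * M * Q) = b * t * Q * M + b * t * Q * M := by ring
          omega
        have h14 : (δ + 1) * M' * (2 * M * Q) ≤ b * t * (2 * M * Q) := by
          calc (δ + 1) * M' * (2 * M * Q) = (δ + 1) * M * Q * (2 * M') := by ring
            _ ≤ _ := h8
            _ ≤ _ := h10
        exact Nat.le_of_mul_le_mul_right h14 (by positivity)
    rw [hδ]
    have e14 : (b * t + δ + 1) * M' = b * t * M' + (δ + 1) * M' := by ring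
    have e15 : b * t * (M' + 1) = b * t * M' + b * t := by ring
    omega
  · have h4 : Nat.Coprime (G * sg y) ((H * y) * Q) := by
      have : H * (Q * y) = (H * y) * Q := by ring
      rw [this] at h3
      apply Nat.Coprime.coprime_dvd_left _ h3
      exact ⟨S, by ring⟩
    rw [Nat.coprime_mul_iff_right] at h4
    have h5 : Nat.Coprime (G * sg y) (t + 1) :=
      (Nat.coprime_pow_right_iff (by omega) _ _).mp h4.2
    have : H * (t + 1) * y = (H * y) * (t + 1) := by ring
    rw [this]
    exact Nat.Coprime.mul_right h4.1 h5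

theorem ne_dvd {A B p r : ℕ} (hp : p.Prime) (h : p ∣ A) : NE A B p r 1 := by
  intro f hf y _ _ _ heq
  have h1 : p ∣ A * (sg (p ^ f) * sg y) := dvd_mul_of_dvd_left h _
  have h2 : p ∣ B * (p ^ f * y) :=
    dvd_mul_of_dvd_right (dvd_mul_of_dvd_left (dvd_pow_self p (by omega)) y) B
  rw [← heq] at h2
  exact hp.one_lt.ne' (Nat.dvd_one.mp ((Nat.dvd_add_right h1).mp h2))

theorem fe_dvd {A B M G H p r : ℕ} (hp : p.Prime) (h : p ∣ G) : FE A B M G H p r 1 := by
  intro f hf y _ _ _ _ _ h3
  have h1 : p ∣ G * (sg (p ^ f) * sg y) := dvd_mul_of_dvd_left h _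
  have h2 : p ∣ H * (p ^ f * y) :=
    dvd_mul_of_dvd_right (dvd_mul_of_dvd_left (dvd_pow_self p (by omega)) y) H
  have h4 := Nat.dvd_gcd h1 h2
  rw [Nat.Coprime] at h3
  rw [h3] at h4
  exact hp.one_lt.ne' (Nat.dvd_one.mp h4)

/-- Exact nodes: it is enough to look at the primes in an interval. -/
theorem node_exact {A B P r : ℕ} (hAB : A < B)
    (h : ∀ p : ℕ, p.Prime → P < p → A / (B - A) < p → p ≤ (r + 1) * B / (B - A) → NE A B p r 1) :
    ¬ Sol A B P (r + 1) := by
  rintro ⟨x, hx, hc, hb, heq⟩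
  obtain ⟨p, e, y, hp, hxy, hy, hyc, hcop, hyb, hpx⟩ := split hx hc
  have hcop' : Nat.Coprime (p ^ (e + 1)) y := Nat.Coprime.pow_left _ hcop
  have hx0 : 0 < x := Nat.pos_of_ne_zero hx
  have hPp : P < p := hb p hp hpx
  obtain ⟨D, rfl⟩ : ∃ D, B = A + D := ⟨B - A, by omega⟩
  have hD : A + D - A = D := by omega
  have hD0 : 0 < D := by omega
  rw [hD] at h
  refine h p hp hPp ?_ ?_ (e + 1) (by omega) y hy hyc hyb ?_
  · -- lower bound
    rw [Nat.div_lt_iff_lt_mul hD0]
    have h1 := mul_succ_le_sg_mul hx hp.one_lt hpx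
    -- A x (p+1) ≤ A sg x p < (A + D) x p
    have h2 : A * (x * (p + 1)) ≤ A * (sg x * p) := Nat.mul_le_mul_left _ h1
    have h3 : A * (sg x * p) < (A + D) * x * p := by
      have : A * sg x < (A + D) * x := by omega
      calc A * (sg x * p) = A * sg x * p := by ring
        _ < (A + D) * x * p := Nat.mul_lt_mul_of_pos_right this hp.pos
    have h4 : x * A < x * (p * D) := by
      have e1 : A * (x * (p + 1)) = x * A + A * x * p := by ring
      have e2 : (A + D) * x * p = x * (p * D) + A * x * p := by ring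
      omega
    exact Nat.lt_of_mul_lt_mul_left h4
  · -- upper bound
    rw [Nat.le_div_iff_mul_le hD0]
    have h1 := sg_bound r x p hx hc hp.pos (fun q hq hqx => by
      rcases (Nat.Prime.dvd_mul hq).mp (hxy ▸ hqx) with h | h
      · exact ((Nat.prime_dvd_prime_iff_eq hq hp).mp (hq.dvd_of_dvd_pow h)).ge
      · exact (hyb q hq h).le)
    have hpx' : p ≤ x := Nat.le_of_dvd hx0 hpx
    rcases Nat.lt_or_ge (r + 1) p with hlt | hge
    · obtain ⟨s, rfl⟩ : ∃ s, p = s + (r + 1) := ⟨p - (r + 1), by omega⟩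
      have e0 : s + (r + 1) - (r + 1) = s := by omega
      rw [e0] at h1
      -- (A + D) x s = A sg x s + s ≤ A x p + s < (A p + 1) x
      have h2 : (A + D) * x * s < (A * (s + (r + 1)) + 1) * x := by
        have h3 : A * (sg x * s) ≤ A * (x * (s + (r + 1))) := Nat.mul_le_mul_left _ h1.le
        have e1 : (A + D) * x * s = A * (sg x * s) + s := by rw [← heq]; ring
        have e2 : (A * (s + (r + 1)) + 1) * x = A * (x * (s + (r + 1))) + x := by ring
        omega
      have h4 : (A + D) * s < A * (s + (r + 1)) + 1 := by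
        have : (A + D) * s * x < (A * (s + (r + 1)) + 1) * x := by
          calc (A + D) * s * x = (A + D) * x * s := by ring
            _ < _ := h2
        exact Nat.lt_of_mul_lt_mul_right this
      have e3 : (s + (r + 1)) * D = s * D + (r + 1) * D := by ring
      have e4 : (r + 1) * (A + D) = (r + 1) * A + (r + 1) * D := by ring
      have e5 : (A + D) * s = A * s + s * D := by ring
      have e6 : A * (s + (r + 1)) = A * s + (r + 1) * A := by ring
      omega
    · calc p * D ≤ (r + 1) * D := Nat.mul_le_mul_right _ hge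
        _ ≤ (r + 1) * (A + D) := Nat.mul_le_mul_left _ (by omega)
  · rw [← sg_mul hcop', ← hxy]
    exact heq

/-- Inexact nodes: it is enough to look at the primes in an interval. -/
theorem node_flag {A B M G H P r : ℕ} (hA : 0 < A) (hAB : A < B)
    (h : ∀ p : ℕ, p.Prime → P < p → (A * M - 1) / (B * (M + 1) - A * M) < p →
      p ≤ ((r + 1) * B - 1) / (B - A) → FE A B M G H p r 1) :
    ¬ FSol A B M G H P (r + 1) := by
  rintro ⟨x, hx, hc, hb, hlo, hup, hco⟩
  obtain ⟨p, e, y, hp, hxy, hy, hyc, hcop, hyb, hpx⟩ := split hx hc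
  have hcop' : Nat.Coprime (p ^ (e + 1)) y := Nat.Coprime.pow_left _ hcop
  have hx0 : 0 < x := Nat.pos_of_ne_zero hx
  have hPp : P < p := hb p hp hpx
  have hsx : sg x = sg (p ^ (e + 1)) * sg y := by rw [hxy, sg_mul hcop']
  obtain ⟨D, rfl⟩ : ∃ D, B = A + D := ⟨B - A, by omega⟩
  have hD : A + D - A = D := by omega
  have hD0 : 0 < D := by omega
  rw [hD] at h
  refine h p hp hPp ?_ ?_ (e + 1) (by omega) y hy hyc hyb ?_ ?_ ?_
  · -- lower bound
    have e0 : (A + D) * (M + 1) - A * M = A + D * M + D := by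
      have : (A + D) * (M + 1) = A * M + (A + D * M + D) := by ring
      omega
    rw [e0, Nat.div_lt_iff_lt_mul (by omega)]
    have h1 := mul_succ_le_sg_mul hx hp.one_lt hpx
    have h2 : A * M * (x * (p + 1)) ≤ A * M * (sg x * p) := Nat.mul_le_mul_left _ h1
    have h3 : A * M * (sg x * p) ≤ (A + D) * x * (M + 1) * p := by
      calc A * M * (sg x * p) = (A * sg x * M) * p := by ring
        _ ≤ _ := Nat.mul_le_mul_right _ hup
    have h4 : x * (A * M) ≤ x * (p * (A + D * M + D)) := by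
      have e1 : A * M * (x * (p + 1)) = x * (A * M) + A * M * x * p := by ring
      have e2 : (A + D) * x * (M + 1) * p = x * (p * (A + D * M + D)) + A * M * x * p := by ring
      omega
    have h5 : A * M ≤ p * (A + D * M + D) := Nat.le_of_mul_le_mul_left h4 hx0
    have h6 : 0 < p * (A + D * M + D) := Nat.mul_pos hp.pos (by omega)
    omega
  · -- upper bound
    rw [Nat.le_div_iff_mul_le hD0]
    have h1 := sg_bound r x p hx hc hp.pos (fun q hq hqx => by
      rcases (Nat.Prime.dvd_mul hq).mp (hxy ▸ hqx) with h | h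
      · exact ((Nat.prime_dvd_prime_iff_eq hq hp).mp (hq.dvd_of_dvd_pow h)).ge
      · exact (hyb q hq h).le)
    rcases Nat.lt_or_ge (r + 1) p with hlt | hge
    · obtain ⟨s, rfl⟩ : ∃ s, p = s + (r + 1) := ⟨p - (r + 1), by omega⟩
      have e0 : s + (r + 1) - (r + 1) = s := by omega
      rw [e0] at h1
      have h2 : (A + D) * x * s < A * (s + (r + 1)) * x := by
        have h3 : A * (sg x * s) < A * (x * (s + (r + 1))) := Nat.mul_lt_mul_of_pos_left h1 hA
        have h4 : (A + D) * x * s ≤ A * sg x * s := Nat.mul_le_mul_right _ hlo.le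
        calc (A + D) * x * s ≤ A * sg x * s := h4
          _ = A * (sg x * s) := by ring
          _ < A * (x * (s + (r + 1))) := h3
          _ = _ := by ring
      have h4 : (A + D) * s < A * (s + (r + 1)) := by
        have : (A + D) * s * x < A * (s + (r + 1)) * x := by
          calc (A + D) * s * x = (A + D) * x * s := by ring
            _ < _ := h2
        exact Nat.lt_of_mul_lt_mul_right this
      have e3 : (s + (r + 1)) * D = s * D + (r + 1) * D := by ring
      have e4 : (r + 1) * (A + D) = (r + 1) * A + (r + 1) * D := by ring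
      have e5 : (A + D) * s = A * s + s * D := by ring
      have e6 : A * (s + (r + 1)) = A * s + (r + 1) * A := by ring
      omega
    · have h2 : p * D ≤ (r + 1) * D := Nat.mul_le_mul_right _ hge
      have e4 : (r + 1) * (A + D) = (r + 1) * A + (r + 1) * D := by ring
      have h3 : 0 < (r + 1) * A := Nat.mul_pos (by omega) hA
      omega
  · rw [← hsx, ← hxy]; exact hlo
  · rw [← hsx, ← hxy]; exact hup
  · rw [← hsx, ← hxy]; exact hco

/-- Inexact nodes with too large a quotient. -/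
theorem node_flag_ge {A B M G H P r : ℕ} (hA : 0 < A) (hB : 0 < B)
    (h : B * (M + 1) ≤ A * M) : ¬ FSol A B M G H P (r + 1) := by
  rintro ⟨x, hx, hc, hb, hlo, hup, hco⟩
  have hx0 : 0 < x := Nat.pos_of_ne_zero hx
  have hx1 : 1 < x := by
    rcases Nat.lt_or_ge 1 x with h1 | h1
    · exact h1
    · have : x = 1 := by omega
      subst this
      simp at hc
  have hM : 0 < M := by
    rcases Nat.eq_zero_or_pos M with h0 | h0
    · subst h0; simp at h; omega
    · exact h0
  have h1 : x < sg x := lt_sg hx1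
  have h2 : A * M * x < A * M * sg x := Nat.mul_lt_mul_of_pos_left h1 (by positivity)
  have h3 : B * (M + 1) * x ≤ A * M * x := Nat.mul_le_mul_right _ h
  have e1 : A * M * sg x = A * sg x * M := by ring
  have e2 : B * (M + 1) * x = B * x * (M + 1) := by ring
  omega

end Run7.h29
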