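import Mathlib
import Pool.Agent.Run7.h29.Nodes

/-! An explicit bound for the solutions of `A σ(U) + 1 = B U` with `r` prime factors. -/

namespace Run7.h29

open Finset

/-- Weierstrass' inequality. -/
theorem weier {ι : Type*} [DecidableEq ι] (s : Finset ι) (f : ι → ℕ) (K : ℕ)
    (h : ∀ i ∈ s, K ≤ f i) : (K - s.card) * ∏ i ∈ s, f i ≤ K * ∏ i ∈ s, (f i - 1) := by
  induction s using Finset.induction_on with
  | empty => simp
  | insert j s hj ih =>
    rw [card_insert_of_notMem hj, prod_insert hj, prod_insert hj]
    have h1 := ih (fun i hi => h i (mem_insert_of_mem hi))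
    have h2 : K ≤ f j := h j (mem_insert_self j s)
    rcases Nat.lt_or_ge s.card K with hlt | hge
    · have h3 : (K - (s.card + 1)) * f j ≤ (K - s.card) * (f j - 1) := by
        obtain ⟨d, hd⟩ : ∃ d, K = s.card + 1 + d := ⟨K - (s.card + 1), by omega⟩
        obtain ⟨g, hg⟩ : ∃ g, f j = d + 1 + g := ⟨f j - (d + 1), by omega⟩
        have e1 : K - (s.card + 1) = d := by omega
        have e2 : K - s.card = d + 1 := by omega
        have e3 : f j - 1 = d + g := by omega
        rw [e1, e2, e3, hg]
        nlinarith
      calc (K - (s.card + 1)) * (f j * ∏ i ∈ s, f i)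
          = ((K - (s.card + 1)) * f j) * ∏ i ∈ s, f i := by ring
        _ ≤ ((K - s.card) * (f j - 1)) * ∏ i ∈ s, f i := Nat.mul_le_mul_right _ h3
        _ = (f j - 1) * ((K - s.card) * ∏ i ∈ s, f i) := by ring
        _ ≤ (f j - 1) * (K * ∏ i ∈ s, (f i - 1)) := Nat.mul_le_mul_left _ h1
        _ = K * ((f j - 1) * ∏ i ∈ s, (f i - 1)) := by ring
    · have : K - (s.card + 1) = 0 := by omega
      rw [this, zero_mul]
      exact Nat.zero_le _

/-- `σ(U) ∏ (p - 1) = ∏ (p ^ (e + 1) - 1)`. -/
theorem sg_mul_prod {U : ℕ} (hU : U ≠ 0) :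
    sg U * ∏ p ∈ U.primeFactors, (p - 1) =
      ∏ p ∈ U.primeFactors, (p ^ (U.factorization p + 1) - 1) := by
  have h1 : sg U = ∏ p ∈ U.primeFactors, sg (p ^ U.factorization p) := by
    have h2 : ∀ m : ℕ, m ≠ 0 → sg m = m.factorization.prod fun p k => sg (p ^ k) := by
      intro m hm
      exact Nat.multiplicative_factorization sg (fun x y hxy => sg_mul hxy) sg_one hm
    rw [h2 U hU, Finsupp.prod, Nat.support_factorization]
  rw [h1, ← prod_mul_distrib]
  apply prod_congr rfl
  intro p hp
  have hpp : p.Prime := Nat.prime_of_mem_primeFactors hp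
  have h3 := sg_pow_mul hpp (U.factorization p)
  rw [pow_succ, mul_comm (p ^ U.factorization p) p, ← h3, Nat.add_sub_cancel]

theorem mul_prod_eq {U : ℕ} (hU : U ≠ 0) :
    U * ∏ p ∈ U.primeFactors, p = ∏ p ∈ U.primeFactors, p ^ (U.factorization p + 1) := by
  have h1 : U = ∏ p ∈ U.primeFactors, p ^ U.factorization p := by
    conv_lhs => rw [← Nat.prod_factorization_pow_eq_self hU]
    rw [Finsupp.prod, Nat.support_factorization]
  conv_lhs => rw [h1]
  have h2 : (∏ p ∈ U.primeFactors, p ^ U.factorization p).primeFactors = U.primeFactors := by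
    rw [← h1]
  rw [h2, ← prod_mul_distrib]
  apply prod_congr rfl
  intro p _
  rw [pow_succ]

/-- `B ∏ (p - 1) ≤ A ∏ p`. -/
theorem prod_le {A B U : ℕ} (hU : U ≠ 0) (hU1 : U ≠ 1) (h : A * sg U + 1 = B * U) :
    B * ∏ p ∈ U.primeFactors, (p - 1) ≤ A * ∏ p ∈ U.primeFactors, p := by
  set F := ∏ p ∈ U.primeFactors, (p - 1) with hF
  set G := ∏ p ∈ U.primeFactors, p with hG
  have h1 : sg U * F ≤ U * G := by
    rw [hF, hG, sg_mul_prod hU, mul_prod_eq hU]
    apply prod_le_prod'
    intro p _
    exact Nat.sub_le _ _
  have hGU : G ≤ U := Nat.le_of_dvd (Nat.pos_of_ne_zero hU) (Nat.prod_primeFactors_dvd U)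
  have hFG : F < G := by
    rw [hF, hG]
    apply prod_lt_prod_of_nonempty
    · intro p hp
      have := (Nat.prime_of_mem_primeFactors hp).two_le
      omega
    · intro p hp
      have := (Nat.prime_of_mem_primeFactors hp).two_le
      omega
    · rw [Nat.nonempty_primeFactors]
      omega
  have h2 : (B * F) * U < (A * G + 1) * U := by
    calc (B * F) * U = (B * U) * F := by ring
      _ = A * (sg U * F) + F := by rw [← h]; ring
      _ ≤ A * (U * G) + F := Nat.add_le_add_right (Nat.mul_le_mul_left _ h1) _
      _ < A * (U * G) + U := by omega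
      _ = (A * G + 1) * U := by ring
  have := Nat.lt_of_mul_lt_mul_right h2
  omega

theorem bound_aux (r : ℕ) (hr : 1 ≤ r) (μ : ℕ) : ∀ (A B U : ℕ) (S : Finset ℕ), 1 ≤ A → U ≠ 0 →
    Nat.Coprime B U → A * sg U + 1 = B * U → S ⊆ U.primeFactors →
    2 * U.primeFactors.card ≤ μ + S.card → U.primeFactors.card ≤ r →
    r * (B * U) ≤ (r * (A * ∏ p ∈ S, p + 1)) ^ (2 ^ μ) := by
  induction μ with
  | zero =>
    intro A B U S hA hU hcop heq hS hμ hur
    have hSc := card_le_card hS
    have hc0 : U.primeFactors.card = 0 := by omega
    have hU1 : U = 1 := one_of_card_zero hU hc0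
    subst hU1
    have hS0 : S = ∅ := by
      have : S.card = 0 := by omega
      exact card_eq_zero.mp this
    subst hS0
    rw [sg_one, mul_one, mul_one] at heq
    simp [heq]
  | succ μ ih =>
    intro A B U S hA hU hcop heq hS hμ hur
    set a := A * ∏ p ∈ S, p with ha
    have hSprime : ∀ p ∈ S, p.Prime := fun p hp => Nat.prime_of_mem_primeFactors (hS hp)
    have hSpos : 1 ≤ ∏ p ∈ S, p := Nat.one_le_iff_ne_zero.mpr
      (prod_ne_zero_iff.mpr (fun p hp => (hSprime p hp).ne_zero))
    have ha1 : 1 ≤ a := by
      rw [ha]
      exact Nat.mul_pos hA hSpos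
    -- the squaring step
    have hstep : ∀ a' : ℕ, a' ≤ r * (a * (a + 1)) →
        (r * (a' + 1)) ^ (2 ^ μ) ≤ (r * (a + 1)) ^ (2 ^ (μ + 1)) := by
      intro a' ha'
      have h1 : r * (a' + 1) ≤ (r * (a + 1)) ^ 2 := by
        have h2 : a' + 1 ≤ r * ((a + 1) * (a + 1)) := by
          calc a' + 1 ≤ r * (a * (a + 1)) + r * 1 := by
                have : r * 1 = r := mul_one r
                omega
            _ = r * (a * (a + 1) + 1) := by ring
            _ ≤ r * ((a + 1) * (a + 1)) := Nat.mul_le_mul_left _ (by nlinarith)
        calc r * (a' + 1) ≤ r * (r * ((a + 1) * (a + 1))) := Nat.mul_le_mul_left _ h2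
          _ = (r * (a + 1)) ^ 2 := by ring
      calc (r * (a' + 1)) ^ (2 ^ μ) ≤ ((r * (a + 1)) ^ 2) ^ (2 ^ μ) := Nat.pow_le_pow_left h1 _
        _ = (r * (a + 1)) ^ (2 ^ (μ + 1)) := by rw [← pow_mul, pow_succ, mul_comm 2]
    by_cases hU1 : U = 1
    · subst hU1
      have hS0 : S = ∅ := by
        have : S ⊆ ∅ := by simpa using hS
        exact subset_empty.mp this
      subst hS0
      have h1 : r * (B * 1) = r * (a + 1) := by
        rw [ha, ← heq, sg_one]; simp
      rw [h1]
      have h2 : 1 ≤ r * (a + 1) := Nat.mul_pos hr (by omega)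
      exact Nat.le_self_pow (by positivity) _
    · set b := B * ∏ p ∈ S, (p - 1) with hb
      set R := U.primeFactors \ S with hR
      have hsplit1 : ∏ p ∈ U.primeFactors, p = (∏ p ∈ R, p) * ∏ p ∈ S, p :=
        (prod_sdiff hS).symm
      have hsplit2 : ∏ p ∈ U.primeFactors, (p - 1) = (∏ p ∈ R, (p - 1)) * ∏ p ∈ S, (p - 1) :=
        (prod_sdiff hS).symm
      have hle := prod_le hU hU1 heq
      rw [hsplit1, hsplit2] at hle
      have hle' : b * ∏ p ∈ R, (p - 1) ≤ a * ∏ p ∈ R, p := by
        calc b * ∏ p ∈ R, (p - 1) = B * ((∏ p ∈ R, (p - 1)) * ∏ p ∈ S, (p - 1)) := by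
              rw [hb]; ring
          _ ≤ A * ((∏ p ∈ R, p) * ∏ p ∈ S, p) := hle
          _ = a * ∏ p ∈ R, p := by rw [ha]; ring
      have hRprime : ∀ p ∈ R, p.Prime := fun p hp =>
        Nat.prime_of_mem_primeFactors (mem_sdiff.mp hp).1
      have hRpos : 0 < ∏ p ∈ R, p := prod_pos (fun p hp => (hRprime p hp).pos)
      rcases lt_trichotomy a b with hlt | heqab | hgt
      · -- add the smallest prime of `R`
        have hRne : R.Nonempty := by
          by_contra hne
          rw [not_nonempty_iff_eq_empty] at hne
          rw [hne] at hle'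
          simp at hle'
          omega
        set x := R.min' hRne with hx
        have hxR : x ∈ R := min'_mem R hRne
        have hxS : x ∉ S := (mem_sdiff.mp hxR).2
        have hxU : x ∈ U.primeFactors := (mem_sdiff.mp hxR).1
        have hw := weier R (fun p => p) x (fun p hp => min'_le R p hp)
        -- `(x - t) b ≤ x a`
        have h1 : b * (x - R.card) ≤ a * x := by
          have : b * (x - R.card) * ∏ p ∈ R, p ≤ a * x * ∏ p ∈ R, p := by
            calc b * (x - R.card) * ∏ p ∈ R, p = b * ((x - R.card) * ∏ p ∈ R, p) := by ring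
              _ ≤ b * (x * ∏ p ∈ R, (p - 1)) := Nat.mul_le_mul_left _ hw
              _ = x * (b * ∏ p ∈ R, (p - 1)) := by ring
              _ ≤ x * (a * ∏ p ∈ R, p) := Nat.mul_le_mul_left _ hle'
              _ = a * x * ∏ p ∈ R, p := by ring
          exact Nat.le_of_mul_le_mul_right this hRpos
        have hRc : R.card ≤ r := (card_le_card sdiff_subset).trans hur
        have h2 : x ≤ r * (a + 1) := by
          rcases Nat.lt_or_ge R.card x with h3 | h3
          · obtain ⟨d, hd⟩ : ∃ d, x = R.card + d := ⟨x - R.card, by omega⟩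
            have e1 : x - R.card = d := by omega
            rw [e1] at h1
            have h4 : (a + 1) * d ≤ a * x := (Nat.mul_le_mul_right d hlt).trans h1
            have h5 : (a + 1) * d ≤ a * R.card + a * d := by
              calc (a + 1) * d ≤ a * x := h4
                _ = a * R.card + a * d := by rw [hd]; ring
            have h6 : d ≤ a * R.card := by
              have : (a + 1) * d = a * d + d := by ring
              omega
            calc x = R.card + d := hd
              _ ≤ R.card + a * R.card := by omega
              _ = R.card * (a + 1) := by ring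
              _ ≤ r * (a + 1) := Nat.mul_le_mul_right _ hRc
          · calc x ≤ R.card := h3
              _ ≤ r := hRc
              _ = r * 1 := (mul_one r).symm
              _ ≤ r * (a + 1) := Nat.mul_le_mul_left _ (by omega)
        have hI := ih A B U (insert x S) hA hU hcop heq
          (insert_subset_iff.mpr ⟨hxU, hS⟩)
          (by rw [card_insert_of_notMem hxS]; omega) hur
        refine hI.trans ?_
        rw [prod_insert hxS]
        apply hstep
        calc A * (x * ∏ p ∈ S, p) = a * x := by rw [ha]; ring
          _ ≤ a * (r * (a + 1)) := Nat.mul_le_mul_left _ h2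
          _ = r * (a * (a + 1)) := by ring
      · -- `a = b` is impossible
        exfalso
        rcases S.eq_empty_or_nonempty with hS0 | hSne
        · have h1 : a = A := by rw [ha, hS0]; simp
          have h2 : b = B := by rw [hb, hS0]; simp
          have h3 : A = B := by rw [← h1, ← h2]; exact heqab
          have h4 : U ≤ sg U := le_sg hU
          have h5 : A * U ≤ A * sg U := Nat.mul_le_mul_left _ h4
          rw [← h3] at heq
          omega
        · set q := S.max' hSne with hq
          have hqS : q ∈ S := max'_mem S hSne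
          have hqp : q.Prime := hSprime q hqS
          have h1 : q ∣ b := by
            rw [← heqab, ha]
            exact dvd_mul_of_dvd_right (dvd_prod_of_mem _ hqS) _
          rw [hb] at h1
          rcases (Nat.Prime.dvd_mul hqp).mp h1 with h2 | h2
          · have h3 : q ∣ U := Nat.dvd_of_mem_primeFactors (hS hqS)
            have h4 := Nat.dvd_gcd h2 h3
            rw [hcop] at h4
            exact hqp.one_lt.ne' (Nat.dvd_one.mp h4)
          · obtain ⟨p, hp, hqp1⟩ := (Prime.dvd_finsetProd_iff hqp.prime _).mp h2
            have h3 : p ≤ q := le_max' S p hp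
            have h4 := (hSprime p hp).two_le
            have h5 := Nat.le_of_dvd (by omega) hqp1
            omega
      · -- move a prime power
        have hUc : 1 ≤ U.primeFactors.card := by
          by_contra hcon
          exact hU1 (one_of_card_zero hU (by omega))
        set u := U.primeFactors.card with hu
        set Y := fun p => p ^ (U.factorization p + 1) with hY
        have hkey : a * ∏ p ∈ U.primeFactors, (Y p - 1) < (a - 1) * ∏ p ∈ U.primeFactors, Y p := by
          have h1 : A * ∏ p ∈ U.primeFactors, (Y p - 1) <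
              B * U * ∏ p ∈ U.primeFactors, (p - 1) := by
            rw [← heq, ← sg_mul_prod hU]
            have hpos : 0 < ∏ p ∈ U.primeFactors, (p - 1) := by
              apply prod_pos
              intro p hp
              have := (Nat.prime_of_mem_primeFactors hp).two_le
              omega
            nlinarith
          have h2 : B * U * ∏ p ∈ U.primeFactors, (p - 1) ≤ (a - 1) * (U * ∏ p ∈ R, p) := by
            rw [hsplit2]
            have h3 : ∏ p ∈ R, (p - 1) ≤ ∏ p ∈ R, p :=
              prod_le_prod' (fun p _ => Nat.sub_le _ _)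
            calc B * U * ((∏ p ∈ R, (p - 1)) * ∏ p ∈ S, (p - 1))
                = b * (U * ∏ p ∈ R, (p - 1)) := by rw [hb]; ring
              _ ≤ (a - 1) * (U * ∏ p ∈ R, p) :=
                Nat.mul_le_mul (by omega) (Nat.mul_le_mul_left _ h3)
          have h4 : (A * ∏ p ∈ U.primeFactors, (Y p - 1)) * ∏ p ∈ S, p <
              ((a - 1) * (U * ∏ p ∈ R, p)) * ∏ p ∈ S, p :=
            Nat.mul_lt_mul_of_pos_right (h1.trans_le h2) hSpos
          calc a * ∏ p ∈ U.primeFactors, (Y p - 1)
              = (A * ∏ p ∈ U.primeFactors, (Y p - 1)) * ∏ p ∈ S, p := by rw [ha]; ring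
            _ < ((a - 1) * (U * ∏ p ∈ R, p)) * ∏ p ∈ S, p := h4
            _ = (a - 1) * (U * ((∏ p ∈ R, p) * ∏ p ∈ S, p)) := by ring
            _ = (a - 1) * ∏ p ∈ U.primeFactors, Y p := by rw [← hsplit1, mul_prod_eq hU]
        have hex : ∃ p ∈ U.primeFactors, Y p < u * a := by
          by_contra hcon
          push Not at hcon
          have hw := weier U.primeFactors Y (u * a) hcon
          have e1 : u * a - U.primeFactors.card = u * (a - 1) := by
            rw [← hu, Nat.mul_sub, mul_one]
          rw [e1] at hw
          have h5 : u * ((a - 1) * ∏ p ∈ U.primeFactors, Y p) ≤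
              u * (a * ∏ p ∈ U.primeFactors, (Y p - 1)) := by
            calc u * ((a - 1) * ∏ p ∈ U.primeFactors, Y p)
                = u * (a - 1) * ∏ p ∈ U.primeFactors, Y p := by ring
              _ ≤ u * a * ∏ p ∈ U.primeFactors, (Y p - 1) := hw
              _ = _ := by ring
          have h6 := Nat.le_of_mul_le_mul_left h5 hUc
          omega
        obtain ⟨p, hpU, hpY⟩ := hex
        have hpp : p.Prime := Nat.prime_of_mem_primeFactors hpU
        set e := U.factorization p with he
        set W := p ^ e with hW
        set U' := U / p ^ U.factorization p with hU'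
        have hWU : W * U' = U := Nat.ordProj_mul_ordCompl_eq_self U p
        have hU'0 : U' ≠ 0 := by
          intro h0
          rw [h0, mul_zero] at hWU
          exact hU hWU.symm
        have hpU' : Nat.Coprime p U' := Nat.coprime_ordCompl hpp hU
        have hWU' : Nat.Coprime W U' := Nat.Coprime.pow_left _ hpU'
        have he0 : e ≠ 0 := (hpp.factorization_pos_of_dvd hU (Nat.dvd_of_mem_primeFactors hpU)).ne'
        have hpf : U'.primeFactors = U.primeFactors.erase p := by
          have g1 : U.primeFactors = W.primeFactors ∪ U'.primeFactors := by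
            conv_lhs => rw [← hWU]
            exact hWU'.primeFactors_mul
          have g2 : W.primeFactors = {p} := Nat.primeFactors_prime_pow he0 hpp
          have g3 : p ∉ U'.primeFactors := by
            intro hmem
            have g4 := Nat.dvd_gcd dvd_rfl (Nat.dvd_of_mem_primeFactors hmem)
            rw [hpU'] at g4
            exact hpp.one_lt.ne' (Nat.dvd_one.mp g4)
          rw [g1, g2, singleton_union, erase_insert g3]
        have hsgW : sg W ≤ u * a := by
          have h1 := sg_pow_mul hpp e
          have h2 : sg W * 1 ≤ sg W * (p - 1) :=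
            Nat.mul_le_mul_left _ (by have := hpp.two_le; omega)
          have h3 : p * p ^ e = Y p := by rw [hY]; simp only; rw [pow_succ, mul_comm, he]
          rw [← hW] at h1 h3
          omega
        have hS' : S.erase p ⊆ U'.primeFactors := by
          rw [hpf]; exact erase_subset_erase p hS
        have hcard' : U'.primeFactors.card = u - 1 := by
          rw [hpf, card_erase_of_mem hpU, hu]
        have hcardS : S.card ≤ (S.erase p).card + 1 := by
          have := pred_card_le_card_erase (s := S) (a := p)
          omega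
        have heq' : A * sg W * sg U' + 1 = B * W * U' := by
          rw [mul_assoc A, ← sg_mul hWU', hWU, heq, mul_assoc, hWU]
        have hcop' : Nat.Coprime (B * W) U' := by
          apply Nat.Coprime.mul_left _ hWU'
          apply Nat.Coprime.coprime_dvd_right _ hcop
          exact ⟨W, by rw [← hWU]; ring⟩
        have hWpos : 0 < W := pow_pos hpp.pos e
        have hI := ih (A * sg W) (B * W) U' (S.erase p)
          (Nat.mul_pos hA (sg_pos hWpos)) hU'0 hcop' heq' hS'
          (by rw [hcard']; omega) (by rw [hcard']; omega)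
        have e2 : B * W * U' = B * U := by rw [mul_assoc, hWU]
        rw [e2] at hI
        refine hI.trans ?_
        apply hstep
        have h7 : A * sg W * ∏ p ∈ S.erase p, p ≤ sg W * a := by
          have h8 : ∏ q ∈ S.erase p, q ≤ ∏ q ∈ S, q := by
            apply Nat.le_of_dvd hSpos
            exact prod_dvd_prod_of_subset _ _ _ (erase_subset p S)
          calc A * sg W * ∏ p ∈ S.erase p, p ≤ A * sg W * ∏ q ∈ S, q :=
                Nat.mul_le_mul_left _ h8
            _ = sg W * a := by rw [ha]; ring
        calc A * sg W * ∏ p ∈ S.erase p, p ≤ sg W * a := h7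
          _ ≤ u * a * a := Nat.mul_le_mul_right _ hsgW
          _ ≤ r * a * a := Nat.mul_le_mul_right _ (Nat.mul_le_mul_right _ hur)
          _ ≤ r * (a * (a + 1)) := by
            rw [mul_assoc]
            exact Nat.mul_le_mul_left _ (Nat.mul_le_mul_left _ (by omega))

end Run7.h29
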