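import Mathlib

/-! Heath-Brown's lemma on products of `1 - 1 / x`. -/

namespace Run7.h29

open Finset

/-- concavity of the logarithm -/
theorem tangent {x y : ℝ} (hx : 1 < x) (hy : 1 < y) :
    Real.log (1 - 1 / y) + 1 / (x - 1) * (Real.log x - Real.log y) ≤ Real.log (1 - 1 / x) := by
  have hx0 : 0 < x := by linarith
  have hy0 : 0 < y := by linarith
  have hx1 : 0 < x - 1 := by linarith
  have hy1 : 0 < y - 1 := by linarith
  -- weighted arithmetic-geometric mean inequality
  have h1 : ((y - 1) / (x - 1)) ^ ((x - 1) / x) * (1 : ℝ) ^ (1 / x) ≤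
      (x - 1) / x * ((y - 1) / (x - 1)) + 1 / x * 1 := by
    apply Real.geom_mean_le_arith_mean2_weighted
    · positivity
    · positivity
    · positivity
    · norm_num
    · field_simp
      ring
  rw [Real.one_rpow, mul_one] at h1
  have h2 : (x - 1) / x * ((y - 1) / (x - 1)) + 1 / x * 1 = y / x := by
    field_simp
    ring
  rw [h2] at h1
  have h3 : (x - 1) / x * (Real.log (y - 1) - Real.log (x - 1)) ≤ Real.log y - Real.log x := by
    have h4 := Real.log_le_log (by positivity) h1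
    rw [Real.log_rpow (by positivity), Real.log_div hy1.ne' hx1.ne',
      Real.log_div hy0.ne' hx0.ne'] at h4
    exact h4
  have e1 : (1 : ℝ) - 1 / y = (y - 1) / y := by field_simp
  have e2 : (1 : ℝ) - 1 / x = (x - 1) / x := by field_simp
  rw [e1, e2, Real.log_div hy1.ne' hy0.ne', Real.log_div hx1.ne' hx0.ne']
  -- multiply `h3` by `x / (x - 1)`
  have h5 : Real.log (y - 1) - Real.log (x - 1) ≤
      (1 + 1 / (x - 1)) * (Real.log y - Real.log x) := by
    have h6 : x / (x - 1) * ((x - 1) / x * (Real.log (y - 1) - Real.log (x - 1))) ≤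
        x / (x - 1) * (Real.log y - Real.log x) :=
      mul_le_mul_of_nonneg_left h3 (by positivity)
    have e3 : x / (x - 1) * ((x - 1) / x * (Real.log (y - 1) - Real.log (x - 1))) =
        Real.log (y - 1) - Real.log (x - 1) := by
      field_simp
    have e4 : x / (x - 1) = 1 + 1 / (x - 1) := by
      field_simp
      ring
    rw [e3, e4] at h6
    exact h6
  have e5 : (1 + 1 / (x - 1)) * (Real.log y - Real.log x) =
      (Real.log y - Real.log x) - 1 / (x - 1) * (Real.log x - Real.log y) := by ring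
  rw [e5] at h5
  linarith

/-- Abel summation -/
theorem abel (t : ℕ) (c d : ℕ → ℝ) (hc : ∀ i k, i ≤ k → k < t → c k ≤ c i)
    (hd : ∀ l, l ≤ t → 0 ≤ ∑ i ∈ range l, d i) (hc0 : ∀ i < t, 0 ≤ c i) :
    0 ≤ ∑ i ∈ range t, c i * d i := by
  have h : ∀ l, l + 1 ≤ t → c l * ∑ i ∈ range (l + 1), d i ≤ ∑ i ∈ range (l + 1), c i * d i := by
    intro l
    induction l with
    | zero => intro _; simp
    | succ l ih =>
      intro hl
      rw [sum_range_succ, sum_range_succ (fun i => c i * d i)]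
      have h1 := ih (by omega)
      have h2 : c (l + 1) * ∑ i ∈ range (l + 1), d i ≤ c l * ∑ i ∈ range (l + 1), d i :=
        mul_le_mul_of_nonneg_right (hc l (l + 1) (by omega) (by omega)) (hd (l + 1) (by omega))
      linarith
  rcases Nat.eq_zero_or_pos t with h0 | h0
  · subst h0; simp
  · obtain ⟨l, rfl⟩ : ∃ l, t = l + 1 := ⟨t - 1, by omega⟩
    exact (mul_nonneg (hc0 l (by omega)) (hd (l + 1) le_rfl)).trans (h l le_rfl)

/-- the comparison product -/
theorem tail_prod {Q : ℝ} (hQ : 2 ≤ Q) (n : ℕ) :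
    1 - (1 - 1 / Q ^ (2 * n)) / (Q ^ 2 - 1) ≤ ∏ i ∈ range n, (1 - 1 / Q ^ (2 ^ (i + 1))) := by
  have hQ0 : 0 < Q := by linarith
  have hQ2 : 0 < Q ^ 2 - 1 := by nlinarith
  induction n with
  | zero => simp
  | succ n ih =>
    rw [prod_range_succ]
    have hb : 1 / Q ^ (2 ^ (n + 1)) ≤ 1 / Q ^ (2 * (n + 1)) := by
      apply one_div_le_one_div_of_le (by positivity)
      apply pow_le_pow_right₀ (by linarith)
      have : n + 1 < 2 ^ (n + 1) := Nat.lt_two_pow_self
      have h2 : 2 ^ (n + 1) = 2 * 2 ^ n := by rw [pow_succ, mul_comm]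
      have h3 : n < 2 ^ n := Nat.lt_two_pow_self
      omega
    have hb1 : 1 / Q ^ (2 * (n + 1)) ≤ 1 := by
      rw [div_le_one (by positivity)]
      exact one_le_pow₀ (by linarith)
    have hb0 : 0 < 1 / Q ^ (2 * (n + 1)) := by positivity
    set α := (1 - 1 / Q ^ (2 * n)) / (Q ^ 2 - 1) with hα
    set β := 1 / Q ^ (2 * (n + 1)) with hβ
    have hα0 : 0 ≤ α := by
      rw [hα]
      apply div_nonneg _ hQ2.le
      rw [sub_nonneg, div_le_one (by positivity)]
      exact one_le_pow₀ (by linarith)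
    have hsum : α + β = (1 - β) / (Q ^ 2 - 1) := by
      rw [hα, hβ]
      have e : Q ^ (2 * (n + 1)) = Q ^ (2 * n) * Q ^ 2 := by rw [← pow_add]; ring_nf
      rw [e]
      field_simp
      ring
    rw [← hsum]
    have h1 : (1 - α) * (1 - β) ≤ (∏ i ∈ range n, (1 - 1 / Q ^ (2 ^ (i + 1)))) *
        (1 - 1 / Q ^ (2 ^ (n + 1))) := by
      apply mul_le_mul ih _ (by linarith)
      · apply prod_nonneg
        intro i _
        rw [sub_nonneg, div_le_one (by positivity)]
        exact one_le_pow₀ (by linarith)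
      · linarith
    refine le_trans ?_ h1
    nlinarith

/-- The sequence with which we compare. -/
noncomputable def cmp (Q : ℝ) : ℕ → ℝ
  | 0 => Q ^ 2 / (Q - 1)
  | (i + 1) => Q ^ (2 ^ (i + 1))

theorem cmp_prod {Q : ℝ} (hQ : 2 ≤ Q) (l : ℕ) :
    ∏ i ∈ range (l + 1), cmp Q i = Q ^ (2 ^ (l + 1)) / (Q - 1) := by
  have hQ1 : Q - 1 ≠ 0 := by linarith
  induction l with
  | zero => simp [cmp]
  | succ l ih =>
    rw [prod_range_succ, ih, cmp]
    rw [div_mul_eq_mul_div, ← pow_add]
    congr 2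
    rw [pow_succ 2 (l + 1)]; ring

theorem one_lt_cmp {Q : ℝ} (hQ : 2 ≤ Q) (i : ℕ) : 1 < cmp Q i := by
  have hQ1 : 0 < Q - 1 := by linarith
  cases i with
  | zero =>
    rw [cmp, lt_div_iff₀ hQ1]
    nlinarith
  | succ i =>
    rw [cmp]
    exact one_lt_pow₀ (by linarith) (by positivity)

theorem cmp_final {Q : ℝ} (hQ : 2 ≤ Q) (t : ℕ) :
    1 - 1 / Q < ∏ i ∈ range (t + 1), (1 - 1 / cmp Q i) := by
  have hQ0 : 0 < Q := by linarith
  have hQ1 : 0 < Q - 1 := by linarith
  have hQ2 : 0 < Q ^ 2 - 1 := by nlinarith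
  rw [prod_range_succ']
  have h1 : ∏ i ∈ range t, (1 - 1 / cmp Q (i + 1)) =
      ∏ i ∈ range t, (1 - 1 / Q ^ (2 ^ (i + 1))) := by
    apply prod_congr rfl
    intro i _
    rw [cmp]
  rw [h1]
  have h2 := tail_prod hQ t
  have h3 : 1 - 1 / (Q ^ 2 - 1) < 1 - (1 - 1 / Q ^ (2 * t)) / (Q ^ 2 - 1) := by
    have : (1 - 1 / Q ^ (2 * t)) / (Q ^ 2 - 1) < 1 / (Q ^ 2 - 1) := by
      apply div_lt_div_of_pos_right _ hQ2
      have : 0 < 1 / Q ^ (2 * t) := by positivity
      linarith
    linarith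
  have h4 : 1 - 1 / (Q ^ 2 - 1) < ∏ i ∈ range t, (1 - 1 / Q ^ (2 ^ (i + 1))) :=
    lt_of_lt_of_le h3 h2
  have e1 : 1 - 1 / cmp Q 0 = (Q ^ 2 - Q + 1) / Q ^ 2 := by
    rw [cmp]
    field_simp
    ring
  rw [e1]
  have h5 : (1 - 1 / (Q ^ 2 - 1)) * ((Q ^ 2 - Q + 1) / Q ^ 2) <
      (∏ i ∈ range t, (1 - 1 / Q ^ (2 ^ (i + 1)))) * ((Q ^ 2 - Q + 1) / Q ^ 2) := by
    apply mul_lt_mul_of_pos_right h4
    apply div_pos _ (by positivity)
    nlinarith
  refine lt_of_le_of_lt ?_ h5
  have e2 : (1 - 1 / (Q ^ 2 - 1)) * ((Q ^ 2 - Q + 1) / Q ^ 2) =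
      ((Q ^ 2 - 2) * (Q ^ 2 - Q + 1)) / ((Q ^ 2 - 1) * Q ^ 2) := by
    field_simp
    ring
  have e3 : 1 - 1 / Q = (Q - 1) / Q := by field_simp
  rw [e2, e3, div_le_div_iff₀ hQ0 (by positivity)]
  -- `(Q - 1) (Q² - 1) Q² ≤ (Q² - 2) (Q² - Q + 1) Q`
  have : 0 ≤ Q * (Q - 2) := mul_nonneg hQ0.le (by linarith)
  nlinarith [mul_nonneg hQ0.le this]

/-- The key comparison: if the partial products of a nondecreasing sequence are large, the product
of the `1 - 1 / x` is large. -/
theorem key_prod {Q : ℝ} (hQ : 2 ≤ Q) (t : ℕ) (x : ℕ → ℝ)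
    (hm : ∀ i k, i ≤ k → k < t + 1 → x i ≤ x k)
    (hp : ∀ l, l < t + 1 → Q ^ (2 ^ (l + 1)) ≤ (Q - 1) * ∏ i ∈ range (l + 1), x i) :
    1 - 1 / Q < ∏ i ∈ range (t + 1), (1 - 1 / x i) := by
  have hQ0 : 0 < Q := by linarith
  have hQ1 : 0 < Q - 1 := by linarith
  have hx0 : 1 < x 0 := by
    have h1 := hp 0 (by omega)
    simp only [zero_add, pow_one, range_one, prod_singleton] at h1
    nlinarith
  have hx : ∀ i < t + 1, 1 < x i := fun i hi => lt_of_lt_of_le hx0 (hm 0 i (by omega) hi)
  set c : ℕ → ℝ := fun i => 1 / (x i - 1) with hc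
  set d : ℕ → ℝ := fun i => Real.log (x i) - Real.log (cmp Q i) with hd
  have habel : 0 ≤ ∑ i ∈ range (t + 1), c i * d i := by
    apply abel
    · intro i k hik hk
      rw [hc]
      simp only
      apply one_div_le_one_div_of_le
      · have := hx i (by omega)
        linarith
      · have := hm i k hik hk
        linarith
    · intro l hl
      rcases Nat.eq_zero_or_pos l with h0 | h0
      · subst h0; simp
      · obtain ⟨l, rfl⟩ : ∃ j, l = j + 1 := ⟨l - 1, by omega⟩
        rw [hd, sum_sub_distrib, ← Real.log_prod, ← Real.log_prod, sub_nonneg]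
        · apply Real.log_le_log
          · exact prod_pos (fun i _ => by linarith [one_lt_cmp hQ i])
          · rw [cmp_prod hQ, div_le_iff₀ hQ1]
            have := hp l (by omega)
            linarith
        · intro i _
          have := one_lt_cmp hQ i
          linarith
        · intro i hi
          have := hx i (by rw [mem_range] at hi; omega)
          linarith
    · intro i hi
      have := hx i hi
      rw [hc]
      simp only
      apply div_nonneg zero_le_one
      linarith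
  have hlog : Real.log (∏ i ∈ range (t + 1), (1 - 1 / cmp Q i)) ≤
      Real.log (∏ i ∈ range (t + 1), (1 - 1 / x i)) := by
    rw [Real.log_prod, Real.log_prod]
    · have h1 : ∑ i ∈ range (t + 1), (Real.log (1 - 1 / cmp Q i) + c i * d i) ≤
          ∑ i ∈ range (t + 1), Real.log (1 - 1 / x i) := by
        apply sum_le_sum
        intro i hi
        rw [mem_range] at hi
        exact tangent (hx i hi) (one_lt_cmp hQ i)
      rw [sum_add_distrib] at h1
      linarith
    · intro i hi
      rw [mem_range] at hi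
      have h1 := hx i hi
      have : 1 / x i < 1 := by rw [div_lt_one (by linarith)]; exact h1
      linarith
    · intro i _
      have h1 := one_lt_cmp hQ i
      have : 1 / cmp Q i < 1 := by rw [div_lt_one (by linarith)]; exact h1
      linarith
  have hpos : 0 < ∏ i ∈ range (t + 1), (1 - 1 / x i) := by
    apply prod_pos
    intro i hi
    rw [mem_range] at hi
    have h1 := hx i hi
    have : 1 / x i < 1 := by rw [div_lt_one (by linarith)]; exact h1
    linarith
  have hpos2 : 0 < ∏ i ∈ range (t + 1), (1 - 1 / cmp Q i) := by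
    apply prod_pos
    intro i _
    have h1 := one_lt_cmp hQ i
    have : 1 / cmp Q i < 1 := by rw [div_lt_one (by linarith)]; exact h1
    linarith
  exact lt_of_lt_of_le (cmp_final hQ t) ((Real.log_le_log_iff hpos2 hpos).mp hlog)

end Run7.h29
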