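import Mathlib
import Pool.Agent.Run7.h29.HB
import Pool.Agent.Run7.h29.Bound

/-! Heath-Brown's lemma, and the bound it gives. -/

namespace Run7.h29

open Finset

/-- Heath-Brown's lemma for sequences. -/
theorem hb_seq (s : ℕ) : ∀ (a b : ℕ) (x : ℕ → ℕ), 1 ≤ a → a < b →
    (∀ i k, i ≤ k → k < s → x i ≤ x k) → (∀ i < s, 2 ≤ x i) →
    (∀ j < s, a * ∏ i ∈ range j, x i < b * ∏ i ∈ range j, (x i - 1)) →
    b * ∏ i ∈ range s, (x i - 1) ≤ a * ∏ i ∈ range s, x i →
    a * (∏ i ∈ range s, x i) + 1 ≤ (a + 1) ^ (2 ^ s) := by
  induction s using Nat.strong_induction_on with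
  | _ s ih =>
    intro a b x ha hab hm h2 hlt hle
    rcases Nat.eq_zero_or_pos s with h0 | h0
    · subst h0
      simp at hle
      omega
    · by_contra hcon
      push Not at hcon
      -- the partial products are large
      have hbig : ∀ j, 1 ≤ j → j ≤ s → (a + 1) ^ (2 ^ j) ≤ a * ∏ i ∈ range j, x i := by
        intro j hj1 hjs
        rcases Nat.lt_or_ge j s with hjs' | hjs'
        · obtain ⟨d, hd⟩ : ∃ d, s = j + d := ⟨s - j, by omega⟩
          have hP : a * ∏ i ∈ range s, x i =
              (a * ∏ i ∈ range j, x i) * ∏ i ∈ range d, x (j + i) := by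
            rw [hd, prod_range_add, mul_assoc]
          have hM : b * ∏ i ∈ range s, (x i - 1) =
              (b * ∏ i ∈ range j, (x i - 1)) * ∏ i ∈ range d, (x (j + i) - 1) := by
            rw [hd, prod_range_add, mul_assoc]
          have hpos : 1 ≤ ∏ i ∈ range j, x i := by
            apply Nat.one_le_iff_ne_zero.mpr
            rw [prod_ne_zero_iff]
            intro i hi
            have := h2 i (by rw [mem_range] at hi; omega)
            omega
          have h := ih d (by omega) (a * ∏ i ∈ range j, x i) (b * ∏ i ∈ range j, (x i - 1))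
            (fun i => x (j + i)) (Nat.mul_pos ha hpos) (hlt j hjs')
            (fun i k hik hk => hm (j + i) (j + k) (by omega) (by omega))
            (fun i hi => h2 (j + i) (by omega))
            (fun k hk => by
              have := hlt (j + k) (by omega)
              rw [prod_range_add, prod_range_add, ← mul_assoc, ← mul_assoc] at this
              exact this)
            (by rw [← hP, ← hM]; exact hle)
          rw [← hP] at h
          have h3 : ((a + 1) ^ (2 ^ j)) ^ (2 ^ d) < (a * (∏ i ∈ range j, x i) + 1) ^ (2 ^ d) := by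
            calc ((a + 1) ^ (2 ^ j)) ^ (2 ^ d) = (a + 1) ^ (2 ^ s) := by
                  rw [← pow_mul, ← pow_add, ← hd]
              _ < _ := lt_of_lt_of_le hcon h
          have h4 := lt_of_pow_lt_pow_left₀ _ (Nat.zero_le _) h3
          omega
        · have : j = s := by omega
          rw [this]
          omega
      obtain ⟨t, ht⟩ : ∃ t, s = t + 1 := ⟨s - 1, by omega⟩
      have ha' : (1 : ℝ) ≤ a := by exact_mod_cast ha
      have hQ : (2 : ℝ) ≤ (a : ℝ) + 1 := by linarith
      have key := key_prod hQ t (fun i => (x i : ℝ))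
        (fun i k hik hk => by
          have := hm i k hik (by omega)
          exact_mod_cast this)
        (fun l hl => by
          have := hbig (l + 1) (by omega) (by omega)
          have e1 : ((a : ℝ) + 1 - 1) = a := by ring
          rw [e1]
          exact_mod_cast this)
      rw [← ht] at key
      have hxpos : ∀ i < s, (0 : ℝ) < x i := by
        intro i hi
        have := h2 i hi
        have h3 : 0 < x i := by omega
        exact_mod_cast h3
      have hprod : (∏ i ∈ range s, (1 - 1 / (x i : ℝ))) * ∏ i ∈ range s, (x i : ℝ) =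
          ∏ i ∈ range s, ((x i : ℝ) - 1) := by
        rw [← prod_mul_distrib]
        apply prod_congr rfl
        intro i hi
        have := hxpos i (by rwa [mem_range] at hi)
        field_simp
      have hcast : (∏ i ∈ range s, ((x i : ℝ) - 1)) = ((∏ i ∈ range s, (x i - 1) : ℕ) : ℝ) := by
        rw [Nat.cast_prod]
        apply prod_congr rfl
        intro i hi
        have := h2 i (by rwa [mem_range] at hi)
        rw [Nat.cast_sub (by omega)]
        simp
      have hX : (0 : ℝ) < ∏ i ∈ range s, (x i : ℝ) :=
        prod_pos (fun i hi => hxpos i (by rwa [mem_range] at hi))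
      have hle' : (b : ℝ) * ∏ i ∈ range s, ((x i : ℝ) - 1) ≤ a * ∏ i ∈ range s, (x i : ℝ) := by
        rw [hcast]
        exact_mod_cast hle
      rw [← hprod] at hle'
      have h5 : (b : ℝ) * ∏ i ∈ range s, (1 - 1 / (x i : ℝ)) ≤ a := by
        have : ((b : ℝ) * ∏ i ∈ range s, (1 - 1 / (x i : ℝ))) * ∏ i ∈ range s, (x i : ℝ) ≤
            a * ∏ i ∈ range s, (x i : ℝ) := by linarith
        exact le_of_mul_le_mul_right this hX
      have h6 : ((a : ℝ) + 1) * (1 - 1 / ((a : ℝ) + 1)) = a := by
        field_simp
        ring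
      have hb' : (a : ℝ) + 1 ≤ b := by exact_mod_cast hab
      have h7 : ((a : ℝ) + 1) * (1 - 1 / ((a : ℝ) + 1)) <
          ((a : ℝ) + 1) * ∏ i ∈ range s, (1 - 1 / (x i : ℝ)) :=
        mul_lt_mul_of_pos_left key (by linarith)
      have h8 : (0 : ℝ) < ∏ i ∈ range s, (1 - 1 / (x i : ℝ)) := by
        refine lt_of_le_of_lt ?_ key
        rw [sub_nonneg, div_le_one (by linarith)]
        linarith
      have h9 : ((a : ℝ) + 1) * ∏ i ∈ range s, (1 - 1 / (x i : ℝ)) ≤
          b * ∏ i ∈ range s, (1 - 1 / (x i : ℝ)) :=
        mul_le_mul_of_nonneg_right hb' h8.le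
      linarith

/-- a finite set can be enumerated with nondecreasing values of `f` -/
theorem exists_enum (f : ℕ → ℕ) (R : Finset ℕ) : ∃ σ : ℕ → ℕ,
    (∀ i k, i ≤ k → k < R.card → f (σ i) ≤ f (σ k)) ∧
    (∀ i < R.card, σ i ∈ R) ∧ (∀ i < R.card, ∀ k < R.card, σ i = σ k → i = k) := by
  induction R using Finset.induction_on_max_value f with
  | empty => exact ⟨fun i => i, by simp, by simp, by simp⟩
  | insert m R hm hmax ih =>
    obtain ⟨σ, h1, h2, h3⟩ := ih
    refine ⟨fun i => if i < R.card then σ i else m, ?_, ?_, ?_⟩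
    · intro i k hik hk
      rw [card_insert_of_notMem hm] at hk
      simp only
      split_ifs with hi hk'
      · exact h1 i k hik hk'
      · exact hmax _ (h2 i hi)
      · omega
      · exact le_rfl
    · intro i hi
      simp only
      split_ifs with hi'
      · exact mem_insert_of_mem (h2 i hi')
      · exact mem_insert_self _ _
    · intro i hi k hk
      rw [card_insert_of_notMem hm] at hi hk
      simp only
      split_ifs with hi' hk' hk'
      · exact h3 i hi' k hk'
      · intro h
        exact absurd (h ▸ h2 i hi') hm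
      · intro h
        exact absurd (h ▸ h2 k hk') hm
      · intro _; omega

/-- Heath-Brown's lemma for finite sets. -/
theorem hb_finset (a b : ℕ) (f : ℕ → ℕ) (R : Finset ℕ) (ha : 1 ≤ a) (hab : a < b)
    (h2 : ∀ i ∈ R, 2 ≤ f i) (h : b * ∏ i ∈ R, (f i - 1) ≤ a * ∏ i ∈ R, f i) :
    ∃ Z ⊆ R, Z.Nonempty ∧ a * (∏ i ∈ Z, f i) + 1 ≤ (a + 1) ^ (2 ^ Z.card) := by
  classical
  obtain ⟨σ, h1, hmem, hinj⟩ := exists_enum f R
  have himg : ∀ s ≤ R.card, ∀ g : ℕ → ℕ,
      ∏ i ∈ (range s).image σ, g i = ∏ i ∈ range s, g (σ i) := by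
    intro s hs g
    apply prod_image
    intro i hi k hk hik
    rw [coe_range, Set.mem_Iio] at hi hk
    exact hinj i (by omega) k (by omega) hik
  have hcard : ∀ s ≤ R.card, ((range s).image σ).card = s := by
    intro s hs
    rw [card_image_of_injOn, card_range]
    intro i hi k hk hik
    rw [coe_range, Set.mem_Iio] at hi hk
    exact hinj i (by omega) k (by omega) hik
  have hsub : ∀ s ≤ R.card, (range s).image σ ⊆ R := by
    intro s hs y hy
    obtain ⟨i, hi, rfl⟩ := mem_image.mp hy
    rw [mem_range] at hi
    exact hmem i (by omega)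
  have hR : (range R.card).image σ = R :=
    eq_of_subset_of_card_le (hsub _ le_rfl) (by rw [hcard _ le_rfl])
  have hex : ∃ s, b * ∏ i ∈ range s, (f (σ i) - 1) ≤ a * ∏ i ∈ range s, f (σ i) := by
    refine ⟨R.card, ?_⟩
    rw [← himg _ le_rfl f, ← himg _ le_rfl (fun i => f i - 1), hR]
    exact h
  set s := Nat.find hex with hs
  have hsR : s ≤ R.card := by
    apply Nat.find_min' hex
    rw [← himg _ le_rfl f, ← himg _ le_rfl (fun i => f i - 1), hR]
    exact h
  have hspec := Nat.find_spec hex
  rw [← hs] at hspec
  have hmin : ∀ j < s, a * ∏ i ∈ range j, f (σ i) < b * ∏ i ∈ range j, (f (σ i) - 1) := by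
    intro j hj
    exact not_le.mp (Nat.find_min hex hj)
  have hs0 : s ≠ 0 := by
    intro h0
    rw [h0] at hspec
    simp at hspec
    omega
  refine ⟨(range s).image σ, hsub s hsR, ?_, ?_⟩
  · rw [image_nonempty, nonempty_range_iff]
    exact hs0
  · rw [himg s hsR f, hcard s hsR]
    exact hb_seq s a b (fun i => f (σ i)) ha hab
      (fun i k hik hk => h1 i k hik (by omega))
      (fun i hi => h2 _ (hmem i (by omega))) hmin hspec

/-- splitting off the prime powers of a set of primes -/
theorem split_off {U : ℕ} (hU : U ≠ 0) (Z : Finset ℕ) (hZ : Z ⊆ U.primeFactors) :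
    ∃ W U' : ℕ, W * U' = U ∧ W ≠ 0 ∧ U' ≠ 0 ∧ Nat.Coprime W U' ∧
      U'.primeFactors = U.primeFactors \ Z ∧
      sg W * ∏ p ∈ Z, (p - 1) = ∏ p ∈ Z, (p ^ (U.factorization p + 1) - 1) := by
  classical
  set g := U.factorization.filter (fun p => p ∈ Z) with hg
  set g' := U.factorization.filter (fun p => ¬ p ∈ Z) with hg'
  have hgp : ∀ p ∈ g.support, p.Prime := by
    intro p hp
    rw [hg, Finsupp.support_filter, mem_filter, Nat.support_factorization] at hp
    exact Nat.prime_of_mem_primeFactors hp.1
  have hgp' : ∀ p ∈ g'.support, p.Prime := by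
    intro p hp
    rw [hg', Finsupp.support_filter, mem_filter, Nat.support_factorization] at hp
    exact Nat.prime_of_mem_primeFactors hp.1
  set W := g.prod (fun p k => p ^ k) with hW
  set U' := g'.prod (fun p k => p ^ k) with hU'
  have hWf : W.factorization = g := Nat.prod_pow_factorization_eq_self hgp
  have hUf : U'.factorization = g' := Nat.prod_pow_factorization_eq_self hgp'
  have hWU : W * U' = U := by
    rw [hW, hU', hg, hg', Finsupp.prod_filter_mul_prod_filter_not]
    exact Nat.prod_factorization_pow_eq_self hU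
  have hW0 : W ≠ 0 := by
    intro h0; rw [h0, zero_mul] at hWU; exact hU hWU.symm
  have hU0 : U' ≠ 0 := by
    intro h0; rw [h0, mul_zero] at hWU; exact hU hWU.symm
  have hWp : W.primeFactors = Z := by
    rw [← Nat.support_factorization, hWf, hg, Finsupp.support_filter, Nat.support_factorization]
    ext p
    rw [mem_filter]
    exact ⟨fun h => h.2, fun h => ⟨hZ h, h⟩⟩
  have hUp : U'.primeFactors = U.primeFactors \ Z := by
    rw [← Nat.support_factorization, hUf, hg', Finsupp.support_filter, Nat.support_factorization]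
    ext p
    rw [mem_filter, mem_sdiff]
  refine ⟨W, U', hWU, hW0, hU0, ?_, hUp, ?_⟩
  · rw [← Nat.disjoint_primeFactors hW0 hU0, hWp, hUp]
    exact disjoint_sdiff
  · have h := sg_mul_prod hW0
    rw [hWp] at h
    rw [h]
    apply prod_congr rfl
    intro p hp
    rw [hWf, hg, Finsupp.filter_apply_pos _ _ hp]

/-- The bound. -/
theorem bound_hb (μ : ℕ) : ∀ (A B U : ℕ) (S : Finset ℕ), 1 ≤ A → U ≠ 0 → U % 2 = 1 →
    Nat.Coprime B U → A * sg U + 1 = B * U → S ⊆ U.primeFactors →
    2 * U.primeFactors.card ≤ μ + S.card →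
    B * U ≤ (A * (∏ p ∈ S, p) + 1) ^ (2 ^ μ) := by
  induction μ using Nat.strong_induction_on with
  | _ μ ih =>
    intro A B U S hA hU hodd hcop heq hS hμ
    set a := A * ∏ p ∈ S, p with ha
    have hSprime : ∀ p ∈ S, p.Prime := fun p hp => Nat.prime_of_mem_primeFactors (hS hp)
    have hSpos : 1 ≤ ∏ p ∈ S, p := Nat.one_le_iff_ne_zero.mpr
      (prod_ne_zero_iff.mpr (fun p hp => (hSprime p hp).ne_zero))
    have ha1 : 1 ≤ a := by
      rw [ha]
      exact Nat.mul_pos hA hSpos
    -- the combination step
    have hstep : ∀ a' z : ℕ, z ≤ μ → a' + 1 ≤ (a + 1) ^ (2 ^ z) →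
        (a' + 1) ^ (2 ^ (μ - z)) ≤ (a + 1) ^ (2 ^ μ) := by
      intro a' z hz ha'
      calc (a' + 1) ^ (2 ^ (μ - z)) ≤ ((a + 1) ^ (2 ^ z)) ^ (2 ^ (μ - z)) :=
            Nat.pow_le_pow_left ha' _
        _ = (a + 1) ^ (2 ^ μ) := by
            rw [← pow_mul, ← pow_add]
            congr 2
            omega
    have hSc := card_le_card hS
    by_cases hU1 : U = 1
    · subst hU1
      have hS0 : S = ∅ := by
        have : S ⊆ ∅ := by simpa using hS
        exact subset_empty.mp this
      subst hS0
      have h1 : B * 1 = a + 1 := by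
        rw [ha, ← heq, sg_one]; simp
      rw [h1]
      exact Nat.le_self_pow (by positivity) _
    · set b := B * ∏ p ∈ S, (p - 1) with hb
      set R := U.primeFactors \ S with hR
      have hsplit1 : ∏ p ∈ U.primeFactors, p = (∏ p ∈ R, p) * ∏ p ∈ S, p :=
        (prod_sdiff hS).symm
      have hsplit2 : ∏ p ∈ U.primeFactors, (p - 1) = (∏ p ∈ R, (p - 1)) * ∏ p ∈ S, (p - 1) :=
        (prod_sdiff hS).symm
      have hle := prod_le hU hU1 heq
      rw [hsplit1, hsplit2] at hle
      have hle' : b * ∏ p ∈ R, (p - 1) ≤ a * ∏ p ∈ R, p := by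
        calc b * ∏ p ∈ R, (p - 1) = B * ((∏ p ∈ R, (p - 1)) * ∏ p ∈ S, (p - 1)) := by
              rw [hb]; ring
          _ ≤ A * ((∏ p ∈ R, p) * ∏ p ∈ S, p) := hle
          _ = a * ∏ p ∈ R, p := by rw [ha]; ring
      have hRprime : ∀ p ∈ R, p.Prime := fun p hp =>
        Nat.prime_of_mem_primeFactors (mem_sdiff.mp hp).1
      rcases lt_trichotomy a b with hlt | heqab | hgt
      · -- add primes
        obtain ⟨Z, hZR, hZne, hZ⟩ := hb_finset a b (fun p => p) R ha1 hlt
          (fun p hp => (hRprime p hp).two_le) hle'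
        have hZ1 : 1 ≤ Z.card := hZne.card_pos
        have hdisj : Disjoint S Z := by
          rw [disjoint_left]
          intro p hp hpZ
          exact (mem_sdiff.mp (hZR hpZ)).2 hp
        have hcardU : (S ∪ Z).card = S.card + Z.card := card_union_of_disjoint hdisj
        have hsubU : S ∪ Z ⊆ U.primeFactors :=
          union_subset hS (hZR.trans sdiff_subset)
        have hle2 := card_le_card hsubU
        have hI := ih (μ - Z.card) (by omega) A B U (S ∪ Z) hA hU hodd hcop heq hsubU
          (by omega)
        refine hI.trans (hstep _ Z.card (by omega) ?_)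
        rw [prod_union hdisj, ← mul_assoc, ← ha]
        exact hZ
      · -- `a = b` is impossible
        exfalso
        rcases S.eq_empty_or_nonempty with hS0 | hSne
        · have h1 : a = A := by rw [ha, hS0]; simp
          have h2 : b = B := by rw [hb, hS0]; simp
          have h3 : A = B := by rw [← h1, ← h2]; exact heqab
          have h4 : U ≤ sg U := le_sg hU
          have h5 : A * U ≤ A * sg U := Nat.mul_le_mul_left _ h4
          rw [← h3] at heq
          omega
        · set q := S.max' hSne with hq
          have hqS : q ∈ S := max'_mem S hSne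
          have hqp : q.Prime := hSprime q hqS
          have h1 : q ∣ b := by
            rw [← heqab, ha]
            exact dvd_mul_of_dvd_right (dvd_prod_of_mem _ hqS) _
          rw [hb] at h1
          rcases (Nat.Prime.dvd_mul hqp).mp h1 with h2 | h2
          · have h3 : q ∣ U := Nat.dvd_of_mem_primeFactors (hS hqS)
            have h4 := Nat.dvd_gcd h2 h3
            rw [hcop] at h4
            exact hqp.one_lt.ne' (Nat.dvd_one.mp h4)
          · obtain ⟨p, hp, hqp1⟩ := (Prime.dvd_finsetProd_iff hqp.prime _).mp h2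
            have h3 : p ≤ q := le_max' S p hp
            have h4 := (hSprime p hp).two_le
            have h5 := Nat.le_of_dvd (by omega) hqp1
            omega
      · -- move prime powers
        set Y := fun p => p ^ (U.factorization p + 1) with hY
        have hB1 : 1 ≤ B := by
          rcases Nat.eq_zero_or_pos B with h0 | h0
          · rw [h0, zero_mul] at heq; omega
          · exact h0
        have hb1 : 1 ≤ b := by
          rw [hb]
          apply Nat.mul_pos hB1
          apply prod_pos
          intro p hp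
          have := (hSprime p hp).two_le
          omega
        have ha2 : 2 ≤ a := by omega
        have hkey : a * ∏ p ∈ U.primeFactors, (Y p - 1) ≤ (a - 1) * ∏ p ∈ U.primeFactors, Y p := by
          have h1 : A * ∏ p ∈ U.primeFactors, (Y p - 1) <
              B * U * ∏ p ∈ U.primeFactors, (p - 1) := by
            rw [← heq, ← sg_mul_prod hU]
            have hpos : 0 < ∏ p ∈ U.primeFactors, (p - 1) := by
              apply prod_pos
              intro p hp
              have := (Nat.prime_of_mem_primeFactors hp).two_le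
              omega
            nlinarith
          have h2 : B * U * ∏ p ∈ U.primeFactors, (p - 1) ≤ (a - 1) * (U * ∏ p ∈ R, p) := by
            rw [hsplit2]
            have h3 : ∏ p ∈ R, (p - 1) ≤ ∏ p ∈ R, p :=
              prod_le_prod' (fun p _ => Nat.sub_le _ _)
            calc B * U * ((∏ p ∈ R, (p - 1)) * ∏ p ∈ S, (p - 1))
                = b * (U * ∏ p ∈ R, (p - 1)) := by rw [hb]; ring
              _ ≤ (a - 1) * (U * ∏ p ∈ R, p) :=
                Nat.mul_le_mul (by omega) (Nat.mul_le_mul_left _ h3)
          have h4 : (A * ∏ p ∈ U.primeFactors, (Y p - 1)) * ∏ p ∈ S, p <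
              ((a - 1) * (U * ∏ p ∈ R, p)) * ∏ p ∈ S, p :=
            Nat.mul_lt_mul_of_pos_right (h1.trans_le h2) hSpos
          calc a * ∏ p ∈ U.primeFactors, (Y p - 1)
              = (A * ∏ p ∈ U.primeFactors, (Y p - 1)) * ∏ p ∈ S, p := by rw [ha]; ring
            _ ≤ ((a - 1) * (U * ∏ p ∈ R, p)) * ∏ p ∈ S, p := h4.le
            _ = (a - 1) * (U * ((∏ p ∈ R, p) * ∏ p ∈ S, p)) := by ring
            _ = (a - 1) * ∏ p ∈ U.primeFactors, Y p := by rw [← hsplit1, mul_prod_eq hU]
        have hY2 : ∀ p ∈ U.primeFactors, 2 ≤ Y p := by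
          intro p hp
          have h1 := (Nat.prime_of_mem_primeFactors hp).two_le
          rw [hY]
          simp only
          exact h1.trans (Nat.le_self_pow (by omega) _)
        obtain ⟨Z, hZU, hZne, hZ⟩ := hb_finset (a - 1) a Y U.primeFactors (by omega) (by omega)
          hY2 hkey
        have hZ1 : 1 ≤ Z.card := hZne.card_pos
        have hZc := card_le_card hZU
        obtain ⟨W, U', hWU, hW0, hU'0, hWU', hUp, hsW⟩ := split_off hU Z hZU
        have hodd' : U' % 2 = 1 := by
          rcases Nat.mod_two_eq_zero_or_one U' with h0 | h0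
          · exfalso
            have : 2 ∣ U := by
              rw [← hWU]
              exact dvd_mul_of_dvd_right (Nat.dvd_of_mod_eq_zero h0) _
            omega
          · exact h0
        have heq' : A * sg W * sg U' + 1 = B * W * U' := by
          rw [mul_assoc A, ← sg_mul hWU', hWU, heq, mul_assoc, hWU]
        have hcop' : Nat.Coprime (B * W) U' := by
          apply Nat.Coprime.mul_left _ hWU'
          apply Nat.Coprime.coprime_dvd_right _ hcop
          exact ⟨W, by rw [← hWU]; ring⟩
        have hcU' : U'.primeFactors.card = U.primeFactors.card - Z.card := by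
          rw [hUp, card_sdiff_of_subset hZU]
        have hcS : S.card ≤ (S \ Z).card + Z.card := by
          have := card_le_card_sdiff_add_card (s := S) (t := Z)
          exact this
        have hI := ih (μ - Z.card) (by omega) (A * sg W) (B * W) U' (S \ Z)
          (Nat.mul_pos hA (sg_pos (Nat.pos_of_ne_zero hW0))) hU'0 hodd' hcop' heq'
          (by rw [hUp]; exact sdiff_subset_sdiff hS le_rfl)
          (by rw [hcU']; omega)
        have e2 : B * W * U' = B * U := by rw [mul_assoc, hWU]
        rw [e2] at hI
        refine hI.trans (hstep _ Z.card (by omega) ?_)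
        -- `a' + 1 ≤ (a + 1) ^ (2 ^ |Z|)`
        have h7 : A * sg W * ∏ p ∈ S \ Z, p ≤ sg W * a := by
          have h8 : ∏ q ∈ S \ Z, q ≤ ∏ q ∈ S, q := by
            apply Nat.le_of_dvd hSpos
            exact prod_dvd_prod_of_subset _ _ _ sdiff_subset
          calc A * sg W * ∏ p ∈ S \ Z, p ≤ A * sg W * ∏ q ∈ S, q :=
                Nat.mul_le_mul_left _ h8
            _ = sg W * a := by rw [ha]; ring
        have h9 : 2 * sg W ≤ ∏ p ∈ Z, Y p := by
          have h10 : 2 ≤ ∏ p ∈ Z, (p - 1) := by
            obtain ⟨q, hq⟩ := hZne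
            have hqU := hZU hq
            have hqp := Nat.prime_of_mem_primeFactors hqU
            have hq2 : q ≠ 2 := by
              intro h
              have := Nat.dvd_of_mem_primeFactors hqU
              rw [h] at this
              omega
            have hq3 : 2 ≤ q - 1 := by
              have := hqp.two_le
              omega
            have hpos : 0 < ∏ p ∈ Z, (p - 1) := by
              apply prod_pos
              intro p hp
              have := (Nat.prime_of_mem_primeFactors (hZU hp)).two_le
              omega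
            exact hq3.trans (Nat.le_of_dvd hpos (dvd_prod_of_mem (fun p => p - 1) hq))
          calc 2 * sg W = sg W * 2 := mul_comm _ _
            _ ≤ sg W * ∏ p ∈ Z, (p - 1) := Nat.mul_le_mul_left _ h10
            _ = ∏ p ∈ Z, (p ^ (U.factorization p + 1) - 1) := hsW
            _ ≤ ∏ p ∈ Z, Y p := prod_le_prod' (fun p _ => Nat.sub_le _ _)
        have h11 : sg W * a ≤ (a - 1) * ∏ p ∈ Z, Y p := by
          obtain ⟨c, hc⟩ : ∃ c, a = c + 2 := ⟨a - 2, by omega⟩
          have e3 : a - 1 = c + 1 := by omega
          rw [e3, hc]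
          calc sg W * (c + 2) ≤ sg W * (2 * (c + 1)) := Nat.mul_le_mul_left _ (by omega)
            _ = (c + 1) * (2 * sg W) := by ring
            _ ≤ (c + 1) * ∏ p ∈ Z, Y p := Nat.mul_le_mul_left _ h9
        have h12 : (a - 1 + 1) ^ (2 ^ Z.card) ≤ (a + 1) ^ (2 ^ Z.card) :=
          Nat.pow_le_pow_left (by omega) _
        calc A * sg W * (∏ p ∈ S \ Z, p) + 1 ≤ (a - 1) * (∏ p ∈ Z, Y p) + 1 := by omega
          _ ≤ (a - 1 + 1) ^ (2 ^ Z.card) := hZ
          _ ≤ (a + 1) ^ (2 ^ Z.card) := h12

end Run7.h29
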