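import Pool.Agent.Run7.h29.Search

/-! Kernel evaluations of the search. -/

namespace Run7.h29

set_option maxRecDepth 100000 in
theorem w_27 : ex 2 26 27 3 = true := by decide +kernel

set_option maxRecDepth 100000 in
theorem w_81 : ex 2 80 81 3 = true := by decide +kernel

set_option maxRecDepth 100000 in
theorem w_243 : ex 2 242 243 3 = true := by decide +kernel

end Run7.h29
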