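import Pool.Agent.Run7.h29.Search

/-! Kernel evaluations of the search. -/

namespace Run7.h29

set_option maxRecDepth 100000 in
theorem t5_12 : ex 3 610351562 732421875 5 = true := by decide +kernel

set_option maxRecDepth 100000 in
theorem t5_14 : ex 3 15258789062 18310546875 5 = true := by decide +kernel

set_option maxRecDepth 100000 in
theorem t5_16 : ex 3 381469726562 457763671875 5 = true := by decide +kernel

end Run7.h29
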