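import Pool.Agent.Run7.h29.Search

/-! Kernel evaluations of the search. -/

namespace Run7.h29

set_option maxRecDepth 100000 in
theorem t5_18 : ex 3 9536743164062 11444091796875 5 = true := by decide +kernel

end Run7.h29
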