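import Pool.Agent.Run7.h29.Search

/-! Kernel evaluations of the search. -/

namespace Run7.h29

set_option maxRecDepth 100000 in
theorem t5_inf : flag 3 10 12 19073486328125 2 15 5 = true := by decide +kernel

set_option maxRecDepth 100000 in
theorem t_7 : exc 3 2 3 7 = true := by decide +kernel

set_option maxRecDepth 100000 in
theorem t_11 : exc 3 2 3 11 = true := by decide +kernel

set_option maxRecDepth 100000 in
theorem t_13 : exc 3 2 3 13 = true := by decide +kernel

end Run7.h29
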