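import Pool.Agent.Run7.h29.Search

/-! Kernel evaluations of the search. -/

namespace Run7.h29

set_option maxRecDepth 100000 in
theorem u_1 : leaf 2 3 3 = true := by decide +kernel

set_option maxRecDepth 100000 in
theorem u_2 : ex 1 2 3 3 = true := by decide +kernel

set_option maxRecDepth 100000 in
theorem u_3 : ex 2 2 3 3 = true := by decide +kernel

set_option maxRecDepth 100000 in
theorem u_4 : ex 3 2 3 3 = true := by decide +kernel

set_option maxRecDepth 100000 in
theorem v_1 : leaf 8 9 3 = true := by decide +kernel

set_option maxRecDepth 100000 in
theorem v_2 : ex 1 8 9 3 = true := by decide +kernel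

set_option maxRecDepth 100000 in
theorem v_3 : ex 2 8 9 3 = true := by decide +kernel

set_option maxRecDepth 100000 in
theorem v_4 : ex 3 8 9 3 = true := by decide +kernel

end Run7.h29
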