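
/-! Executable searches, to be evaluated by the kernel; written with raw recursors for speed.
`@Bool.rec (fun _ => Bool) e t c` is `if c then t else e`. -/

namespace Run7.h29

noncomputable section

/-- the identity; one unfolding per round keeps the recursion of the evaluator shallow -/
def sq (b : Bool) : Bool := b

/-- maximum -/
def mx (a b : Nat) : Nat := @Bool.rec (fun _ => Nat) a b (Nat.ble a b)

/-- `p` has no prime factor `≤ 23`, or `p ≤ 23` and `p` is prime to `6` -/
def cand (p : Nat) : Bool :=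
  @Bool.rec (fun _ => Bool)
    (@Bool.rec (fun _ => Bool) false (Nat.beq (Nat.gcd p 6) 1) (Nat.ble p 23))
    true (Nat.beq (Nat.gcd p 223092870) 1)

/-- `child (b + 6 i)` for all `i < n` with `b + 6 i` a candidate -/
def all6 (child : Nat → Bool) (b : Nat) (n : Nat) : Bool :=
  @Nat.rec (fun _ => Bool) true
    (fun i ih => @Bool.rec (fun _ => Bool) (sq ih)
      (@Bool.rec (fun _ => Bool) false (sq ih) (child (Nat.add b (Nat.mul 6 i))))
      (cand (Nat.add b (Nat.mul 6 i)))) n

/-- `child (b + i)` for all `i < n` with `b + i` a candidate -/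
def all1 (child : Nat → Bool) (b : Nat) (n : Nat) : Bool :=
  @Nat.rec (fun _ => Bool) true
    (fun i ih => @Bool.rec (fun _ => Bool) (sq ih)
      (@Bool.rec (fun _ => Bool) false (sq ih) (child (Nat.add b i)))
      (cand (Nat.add b i))) n

/-- `child p` for all candidates `p` with `lo ≤ p ≤ hi` -/
def range (child : Nat → Bool) (lo hi : Nat) : Bool :=
  @Bool.rec (fun _ => Bool) false
    (all6 child (Nat.add (Nat.mul 6 (Nat.div lo 6)) 5)
      (Nat.div (Nat.sub (Nat.add hi 1) (Nat.mul 6 (Nat.div lo 6))) 6))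
    (all6 child (Nat.add (Nat.mul 6 (Nat.div (Nat.add lo 4) 6)) 1)
      (Nat.div (Nat.sub (Nat.add hi 5) (Nat.mul 6 (Nat.div (Nat.add lo 4) 6))) 6))

/-- loop over exponents, inexact nodes with one remaining prime power -/
def gloop (A B M G H q : Nat) (fuel : Nat) : Nat → Nat → Bool :=
  @Nat.rec (fun _ => Nat → Nat → Bool) (fun _ _ => false)
    (fun _ ih s pe =>
      @Bool.rec (fun _ => Bool) true
        (@Bool.rec (fun _ => Bool)
          (@Bool.rec (fun _ => Bool) (ih (Nat.succ (Nat.mul q s)) (Nat.mul q pe)) false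
            (Nat.beq (Nat.gcd (Nat.mul G s) (Nat.mul H pe)) 1))
          (ih (Nat.succ (Nat.mul q s)) (Nat.mul q pe))
          (Nat.ble (Nat.mul A s) (Nat.mul B pe)))
        (Nat.ble (Nat.mul (Nat.mul A s) M) (Nat.mul (Nat.mul B pe) (Nat.succ M)))) fuel

/-- inexact nodes with one remaining prime power -/
def flag1 (A B M G H P : Nat) : Bool :=
  @Bool.rec (fun _ => Bool)
    (@Nat.rec (fun _ => Bool) false (fun lo _ =>
      all1 (fun q => @Bool.rec (fun _ => Bool) true (gloop A B M G H q 300 (Nat.succ q) q)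
        (Nat.beq (Nat.gcd G q) 1)) (Nat.succ lo)
        (Nat.sub (Nat.div (Nat.sub B 1) (Nat.sub B A)) lo))
      (mx (Nat.succ P) (Nat.succ (Nat.div (Nat.sub (Nat.mul A M) 1)
              (Nat.sub (Nat.mul B (Nat.succ M)) (Nat.mul A M))))))
    (Nat.ble (Nat.mul B (Nat.succ M)) (Nat.mul A M))
    (Nat.ble B A)

/-- loop over exponents, inexact nodes -/
def floop (F : Nat → Nat → Nat → Nat → Nat → Nat → Bool) (C A B M G H p : Nat) (fuel : Nat) :
    Nat → Nat → Bool :=
  @Nat.rec (fun _ => Nat → Nat → Bool) (fun _ _ => false)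
    (fun _ ih s pe =>
      @Bool.rec (fun _ => Bool) true
        (@Bool.rec (fun _ => Bool)
          (F (Nat.mul A p) (Nat.mul B (Nat.sub p 1)) (Nat.div M 2) G (Nat.mul H p) p)
          (@Bool.rec (fun _ => Bool)
            (@Bool.rec (fun _ => Bool) false
              (sq (ih (Nat.succ (Nat.mul p s)) (Nat.mul p pe)))
              (@Bool.rec (fun _ => Bool) true
                (F (Nat.mul A s) (Nat.mul B pe) M (Nat.mul G s) (Nat.mul H pe) p)
                (Nat.beq (Nat.gcd (Nat.mul G s) (Nat.mul H pe)) 1)))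
            true
            (@Bool.rec (fun _ => Bool) false
              (F (Nat.mul A p) (Nat.mul B (Nat.sub p 1)) pe G (Nat.mul H p) p)
              (Nat.ble C pe)))
          (Nat.ble pe (Nat.div M 2)))
        (Nat.ble (Nat.mul (Nat.mul A s) M) (Nat.mul (Nat.mul B pe) (Nat.succ M)))) fuel

/-- trial threshold `10 B ^ j / (B - A) ^ j` -/
def thr (A B j : Nat) : Nat :=
  Nat.div (Nat.mul 10 (Nat.pow B j)) (Nat.pow (Nat.sub B A) j)

/-- inexact nodes with `k + 1` remaining prime powers -/
def flag (k : Nat) : Nat → Nat → Nat → Nat → Nat → Nat → Bool :=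
  @Nat.rec (fun _ => Nat → Nat → Nat → Nat → Nat → Nat → Bool)
    flag1
    (fun k ih A B M G H P =>
      @Bool.rec (fun _ => Bool)
        (range (fun p => @Bool.rec (fun _ => Bool) true
              (floop ih (thr (Nat.mul A p) (Nat.mul B (Nat.sub p 1)) (Nat.add k 2))
                A B M G H p 300 (Nat.succ p) p) (Nat.beq (Nat.gcd G p) 1))
            (mx (Nat.succ P) (Nat.succ (Nat.div (Nat.sub (Nat.mul A M) 1)
              (Nat.sub (Nat.mul B (Nat.succ M)) (Nat.mul A M)))))
            (Nat.div (Nat.sub (Nat.mul (Nat.add k 2) B) 1) (Nat.sub B A)))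
        (Nat.ble (Nat.mul B (Nat.succ M)) (Nat.mul A M))
        (Nat.ble B A)) k

/-- check of the exponents of a last prime power -/
def lloop (A B q : Nat) (fuel : Nat) : Nat → Nat → Bool :=
  @Nat.rec (fun _ => Nat → Nat → Bool) (fun _ _ => false)
    (fun _ ih s pe =>
      @Bool.rec (fun _ => Bool) true
        (@Bool.rec (fun _ => Bool) (ih (Nat.succ (Nat.mul q s)) (Nat.mul q pe)) false
          (Nat.beq (Nat.succ (Nat.mul A s)) (Nat.mul B pe)))
        (Nat.ble pe A)) fuel

/-- a last prime power: `q` divides `A + 1` -/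
def leafr (A B P q : Nat) : Bool :=
  @Bool.rec (fun _ => Bool)
    (@Bool.rec (fun _ => Bool) true
      (@Bool.rec (fun _ => Bool) (lloop A B q 1000 (Nat.succ q) q) false
        (Nat.beq q (Nat.succ A)))
      (Nat.beq (Nat.gcd q 6) 1))
    true (Nat.ble q P)

/-- exact node with one remaining prime power: `q = A / (B - A) + 1` -/
def leafq (A B P q : Nat) : Bool :=
  @Bool.rec (fun _ => Bool) true (leafr A B P q) (Nat.beq (Nat.mod (Nat.succ A) q) 0)

/-- exact node with one remaining prime power -/
def leaf (A B P : Nat) : Bool := leafq A B P (Nat.succ (Nat.div A (Nat.sub B A)))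

/-- loop over exponents, exact nodes -/
def eloop (E : Nat → Nat → Nat → Bool) (F : Nat → Nat → Nat → Nat → Nat → Nat → Bool)
    (C A B p : Nat) (fuel : Nat) : Nat → Nat → Bool :=
  @Nat.rec (fun _ => Nat → Nat → Bool) (fun _ _ => false)
    (fun _ ih s pe =>
      @Bool.rec (fun _ => Bool)
        (@Bool.rec (fun _ => Bool)
          (@Bool.rec (fun _ => Bool) false
            (sq (ih (Nat.succ (Nat.mul p s)) (Nat.mul p pe)))
            (@Bool.rec (fun _ => Bool) true (E (Nat.mul A s) (Nat.mul B pe) p)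
              (Nat.beq (Nat.gcd (Nat.mul A s) (Nat.mul B pe)) 1)))
          true
          (@Bool.rec (fun _ => Bool) false
            (F (Nat.mul A p) (Nat.mul B (Nat.sub p 1)) pe A (Nat.mul B p) p)
            (Nat.ble C pe)))
        true
        (Nat.ble (Nat.mul B pe) (Nat.mul A s))) fuel

/-- exact nodes with `r + 1` remaining prime powers -/
def ex (r : Nat) : Nat → Nat → Nat → Bool :=
  @Nat.rec (fun _ => Nat → Nat → Nat → Bool) leaf
    (fun k ih A B P =>
      range (fun p => @Bool.rec (fun _ => Bool) true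
            (eloop ih (flag k)
              (thr (Nat.mul A p) (Nat.mul B (Nat.sub p 1)) (Nat.add k 2))
              A B p 300 (Nat.succ p) p) (Nat.beq (Nat.gcd A p) 1))
        (mx (Nat.succ P) (Nat.succ (Nat.div A (Nat.sub B A))))
        (Nat.div (Nat.mul (Nat.add k 2) B) (Nat.sub B A))) r

/-- The check at an exact node for the least prime `p`. -/
def exc (k A B p : Nat) : Bool :=
  @Bool.rec (fun _ => Bool) true
    (eloop (ex k) (flag k) (thr (Nat.mul A p) (Nat.mul B (Nat.sub p 1)) (Nat.add k 2)) A B p 300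
      (Nat.succ p) p) (Nat.beq (Nat.gcd A p) 1)

end

end Run7.h29
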