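import Mathlib
import Pool.Agent.Run7.h29.Nodes
import Pool.Agent.Run7.h29.Search

/-! Soundness of the searches. -/

namespace Run7.h29

theorem brec_iff (e t c : Bool) :
    @Bool.rec (fun _ => Bool) e t c = true ↔ (c = true ∧ t = true) ∨ (c = false ∧ e = true) := by
  cases c <;> simp

theorem mx_eq (a b : ℕ) : mx a b = max a b := by
  unfold mx
  rcases Nat.lt_or_ge b a with h | h
  · have : Nat.ble a b = false := by
      rw [Bool.eq_false_iff]; intro h'
      exact absurd (Nat.le_of_ble_eq_true h') (by omega)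
    rw [this, max_eq_left h.le]
  · have : Nat.ble a b = true := Nat.ble_eq_true_of_le h
    rw [this, max_eq_right h]

theorem ble_false {a b : ℕ} (h : Nat.ble a b = false) : b < a := by
  rcases Nat.lt_or_ge b a with h1 | h1
  · exact h1
  · rw [Nat.ble_eq_true_of_le h1] at h
    exact absurd h (by simp)

theorem beq_true {a b : ℕ} : Nat.beq a b = true ↔ a = b := by
  constructor
  · exact Nat.eq_of_beq_eq_true
  · rintro rfl; exact Nat.beq_refl a

theorem beq_false {a b : ℕ} (h : Nat.beq a b = false) : a ≠ b := by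
  intro h'
  rw [beq_true.mpr h'] at h
  exact absurd h (by simp)

theorem cand_prime {p : ℕ} (hp : p.Prime) (h3 : 3 < p) : cand p = true := by
  unfold cand
  rw [brec_iff]
  rcases Nat.coprime_or_dvd_of_prime hp 223092870 with h | h
  · left
    exact ⟨beq_true.mpr h, rfl⟩
  · have hle : p ≤ 23 := by
      have e : 223092870 = 2 * (3 * (5 * (7 * (11 * (13 * (17 * (19 * 23))))))) := by norm_num
      rw [e] at h
      rcases (Nat.Prime.dvd_mul hp).mp h with h | h
      · exact (Nat.le_of_dvd (by norm_num) h).trans (by norm_num)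
      rcases (Nat.Prime.dvd_mul hp).mp h with h | h
      · exact (Nat.le_of_dvd (by norm_num) h).trans (by norm_num)
      rcases (Nat.Prime.dvd_mul hp).mp h with h | h
      · exact (Nat.le_of_dvd (by norm_num) h).trans (by norm_num)
      rcases (Nat.Prime.dvd_mul hp).mp h with h | h
      · exact (Nat.le_of_dvd (by norm_num) h).trans (by norm_num)
      rcases (Nat.Prime.dvd_mul hp).mp h with h | h
      · exact (Nat.le_of_dvd (by norm_num) h).trans (by norm_num)
      rcases (Nat.Prime.dvd_mul hp).mp h with h | h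
      · exact (Nat.le_of_dvd (by norm_num) h).trans (by norm_num)
      rcases (Nat.Prime.dvd_mul hp).mp h with h | h
      · exact (Nat.le_of_dvd (by norm_num) h).trans (by norm_num)
      rcases (Nat.Prime.dvd_mul hp).mp h with h | h
      · exact (Nat.le_of_dvd (by norm_num) h).trans (by norm_num)
      · exact (Nat.le_of_dvd (by norm_num) h)
    have h6 : Nat.gcd p 6 = 1 := by
      rcases Nat.coprime_or_dvd_of_prime hp 6 with h | h
      · exact h
      · exfalso
        have e : 6 = 2 * 3 := by norm_num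
        rw [e] at h
        rcases (Nat.Prime.dvd_mul hp).mp h with h | h
        · have := Nat.le_of_dvd (by norm_num) h; omega
        · have := Nat.le_of_dvd (by norm_num) h; omega
    rcases h1 : Nat.beq (Nat.gcd p 223092870) 1 with _ | _
    · right
      refine ⟨rfl, ?_⟩
      rw [brec_iff]
      left
      refine ⟨Nat.ble_eq_true_of_le hle, beq_true.mpr h6⟩
    · left
      exact ⟨rfl, rfl⟩

theorem all6_sound {child : ℕ → Bool} {b : ℕ} : ∀ n : ℕ, all6 child b n = true →
    ∀ i < n, cand (b + 6 * i) = true → child (b + 6 * i) = true := by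
  intro n
  induction n with
  | zero => intro _ i hi; exact absurd hi (Nat.not_lt_zero i)
  | succ n ih =>
    intro h i hi hc
    have h' : @Bool.rec (fun _ => Bool) (all6 child b n)
      (@Bool.rec (fun _ => Bool) false (all6 child b n) (child (b + 6 * n)))
      (cand (b + 6 * n)) = true := h
    rw [brec_iff] at h'
    rcases h' with ⟨h1, h2⟩ | ⟨h1, h2⟩
    · rw [brec_iff] at h2
      rcases h2 with ⟨h3, h4⟩ | ⟨_, h4⟩
      · rcases Nat.lt_succ_iff_lt_or_eq.mp hi with hlt | rfl
        · exact ih h4 i hlt hc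
        · exact h3
      · exact absurd h4 (by simp)
    · rcases Nat.lt_succ_iff_lt_or_eq.mp hi with hlt | rfl
      · exact ih h2 i hlt hc
      · rw [hc] at h1; exact absurd h1 (by simp)

theorem all1_sound {child : ℕ → Bool} {b : ℕ} : ∀ n : ℕ, all1 child b n = true →
    ∀ i < n, cand (b + i) = true → child (b + i) = true := by
  intro n
  induction n with
  | zero => intro _ i hi; exact absurd hi (Nat.not_lt_zero i)
  | succ n ih =>
    intro h i hi hc
    have h' : @Bool.rec (fun _ => Bool) (all1 child b n)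
      (@Bool.rec (fun _ => Bool) false (all1 child b n) (child (b + n)))
      (cand (b + n)) = true := h
    rw [brec_iff] at h'
    rcases h' with ⟨h1, h2⟩ | ⟨h1, h2⟩
    · rw [brec_iff] at h2
      rcases h2 with ⟨h3, h4⟩ | ⟨_, h4⟩
      · rcases Nat.lt_succ_iff_lt_or_eq.mp hi with hlt | rfl
        · exact ih h4 i hlt hc
        · exact h3
      · exact absurd h4 (by simp)
    · rcases Nat.lt_succ_iff_lt_or_eq.mp hi with hlt | rfl
      · exact ih h2 i hlt hc
      · rw [hc] at h1; exact absurd h1 (by simp)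

theorem mod_six {p : ℕ} (hp : p.Prime) (h3 : 3 < p) : p % 6 = 1 ∨ p % 6 = 5 := by
  have h2 : ¬ 2 ∣ p := fun h => by
    have := (Nat.prime_dvd_prime_iff_eq Nat.prime_two hp).mp h; omega
  have h3' : ¬ 3 ∣ p := fun h => by
    have := (Nat.prime_dvd_prime_iff_eq Nat.prime_three hp).mp h; omega
  omega

theorem range_sound {child : ℕ → Bool} {lo hi : ℕ} (h : range child lo hi = true) {p : ℕ}
    (hp : p.Prime) (h3 : 3 < p) (hlo : lo ≤ p) (hhi : p ≤ hi) : child p = true := by
  have h' : @Bool.rec (fun _ => Bool) false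
    (all6 child (6 * (lo / 6) + 5) ((hi + 1 - 6 * (lo / 6)) / 6))
    (all6 child (6 * ((lo + 4) / 6) + 1) ((hi + 5 - 6 * ((lo + 4) / 6)) / 6)) = true := h
  rw [brec_iff] at h'
  rcases h' with ⟨h1, h5⟩ | ⟨_, h'⟩
  · rcases mod_six hp h3 with hm | hm
    · have e : p = 6 * ((lo + 4) / 6) + 1 + 6 * (p / 6 - (lo + 4) / 6) := by omega
      rw [e]
      apply all6_sound _ h1
      · omega
      · rw [← e]; exact cand_prime hp h3
    · have e : p = 6 * (lo / 6) + 5 + 6 * (p / 6 - lo / 6) := by omega
      rw [e]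
      apply all6_sound _ h5
      · omega
      · rw [← e]; exact cand_prime hp h3
  · exact absurd h' (by simp)

theorem fe_skip {A B M G H q e : ℕ} (h : A * sg (q ^ e) ≤ B * q ^ e)
    (hn : FE A B M G H q 0 (e + 1)) : FE A B M G H q 0 e := by
  intro f hf y hy hc hb h1 h2 h3
  rcases Nat.eq_or_lt_of_le hf with rfl | hlt
  · have hy1 := one_of_card_zero hy hc
    subst hy1
    rw [sg_one, mul_one, mul_one] at h1
    omega
  · exact hn f hlt y hy hc hb h1 h2 h3

theorem gloop_sound {A B M G H q : ℕ} (hq : q.Prime) (fuel : ℕ) :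
    ∀ e : ℕ, 1 ≤ e → gloop A B M G H q fuel (sg (q ^ e)) (q ^ e) = true →
      FE A B M G H q 0 e := by
  induction fuel with
  | zero =>
    intro e _ h
    exact absurd h (by show ¬ (false = true); simp)
  | succ n ih =>
    intro e he h
    have hs : q * sg (q ^ e) + 1 = sg (q ^ (e + 1)) := (sg_pow_succ hq e).symm
    have hpe : q * q ^ e = q ^ (e + 1) := by rw [pow_succ, mul_comm]
    have h' : @Bool.rec (fun _ => Bool) true
        (@Bool.rec (fun _ => Bool)
          (@Bool.rec (fun _ => Bool)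
            (gloop A B M G H q n (q * sg (q ^ e) + 1) (q * q ^ e)) false
            (Nat.beq (Nat.gcd (G * sg (q ^ e)) (H * q ^ e)) 1))
          (gloop A B M G H q n (q * sg (q ^ e) + 1) (q * q ^ e))
          (Nat.ble (A * sg (q ^ e)) (B * q ^ e)))
        (Nat.ble (A * sg (q ^ e) * M) (B * q ^ e * (M + 1))) = true := h
    rw [hs, hpe] at h'
    rw [brec_iff] at h'
    rcases h' with ⟨_, h2⟩ | ⟨h1, _⟩
    · rw [brec_iff] at h2
      rcases h2 with ⟨h3, h4⟩ | ⟨_, h4⟩
      · exact fe_skip (Nat.le_of_ble_eq_true h3) (ih (e + 1) (by omega) h4)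
      · rw [brec_iff] at h4
        rcases h4 with ⟨_, h5⟩ | ⟨h5, h6⟩
        · exact absurd h5 (by simp)
        · exact fe_gcd (beq_false h5) (ih (e + 1) (by omega) h6)
    · exact fe_stop hq (by have := ble_false h1; omega)

theorem dvd_of_gcd {p G : ℕ} (hp : p.Prime) (h : Nat.gcd G p ≠ 1) : p ∣ G := by
  rcases Nat.coprime_or_dvd_of_prime hp G with h' | h'
  · exact absurd h'.symm h
  · exact h'

theorem flag1_sound {A B M G H P : ℕ} (hA : 0 < A) (hB : 0 < B) (hP : 3 ≤ P)
    (h : flag1 A B M G H P = true) : ¬ FSol A B M G H P 1 := by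
  have h' : @Bool.rec (fun _ => Bool)
    (@Nat.rec (fun _ => Bool) false (fun lo _ =>
      all1 (fun q => @Bool.rec (fun _ => Bool) true (gloop A B M G H q 300 (q + 1) q)
        (Nat.beq (Nat.gcd G q) 1)) (lo + 1)
        ((B - 1) / (B - A) - lo))
      (mx (P + 1) ((A * M - 1) / (B * (M + 1) - A * M) + 1)))
    (Nat.ble (B * (M + 1)) (A * M))
    (Nat.ble B A) = true := h
  rw [brec_iff] at h'
  rcases h' with ⟨_, h2⟩ | ⟨h1, h2⟩
  · exact node_flag_ge hA hB (Nat.le_of_ble_eq_true h2)
  · have hAB : A < B := ble_false h1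
    apply node_flag hA hAB
    intro p hp hPp hlo hhi
    rw [Nat.zero_add, one_mul] at hhi
    rw [mx_eq] at h2
    obtain ⟨lo, hlo'⟩ : ∃ lo, max (P + 1) ((A * M - 1) / (B * (M + 1) - A * M) + 1) = lo + 1 :=
      ⟨max (P + 1) ((A * M - 1) / (B * (M + 1) - A * M) + 1) - 1, by
        have := le_max_left (P + 1) ((A * M - 1) / (B * (M + 1) - A * M) + 1); omega⟩
    rw [hlo'] at h2
    have h3 : all1 (fun q => @Bool.rec (fun _ => Bool) true (gloop A B M G H q 300 (q + 1) q)
        (Nat.beq (Nat.gcd G q) 1)) (lo + 1)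
        ((B - 1) / (B - A) - lo) = true := h2
    have hlop : lo + 1 ≤ p := by
      rw [← hlo']
      exact max_le hPp hlo
    have e : p = lo + 1 + (p - (lo + 1)) := by omega
    have h4 := all1_sound _ h3 (p - (lo + 1)) (by omega)
      (by rw [← e]; exact cand_prime hp (by omega))
    rw [← e, brec_iff] at h4
    rcases h4 with ⟨_, h4⟩ | ⟨h4, _⟩
    · have h5 : gloop A B M G H p 300 (sg (p ^ 1)) (p ^ 1) = true := by
        rw [pow_one, sg_prime hp]; exact h4
      exact gloop_sound hp 300 1 le_rfl h5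
    · exact fe_dvd hp (dvd_of_gcd hp (beq_false h4))

theorem floop_sound {F : ℕ → ℕ → ℕ → ℕ → ℕ → ℕ → Bool} {C A B M G H p r : ℕ}
    (hF : ∀ A B M G H P : ℕ, 0 < A → 0 < B → 3 ≤ P → F A B M G H P = true →
      ¬ FSol A B M G H P r)
    (hA : 0 < A) (hB : 0 < B) (hp : p.Prime) (hp5 : 5 ≤ p) (fuel : ℕ) :
    ∀ e : ℕ, 1 ≤ e → floop F C A B M G H p fuel (sg (p ^ e)) (p ^ e) = true →
      FE A B M G H p r e := by
  induction fuel with
  | zero =>
    intro e _ h
    exact absurd h (by show ¬ (false = true); simp)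
  | succ n ih =>
    intro e he h
    have hs : p * sg (p ^ e) + 1 = sg (p ^ (e + 1)) := (sg_pow_succ hp e).symm
    have hpe : p * p ^ e = p ^ (e + 1) := by rw [pow_succ, mul_comm]
    have hpos : 0 < p ^ e := pow_pos hp.pos e
    have hspos : 0 < sg (p ^ e) := sg_pos hpos
    have h' : @Bool.rec (fun _ => Bool) true
        (@Bool.rec (fun _ => Bool)
          (F (A * p) (B * (p - 1)) (M / 2) G (H * p) p)
          (@Bool.rec (fun _ => Bool)
            (@Bool.rec (fun _ => Bool) false
              (floop F C A B M G H p n (p * sg (p ^ e) + 1) (p * p ^ e))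
              (@Bool.rec (fun _ => Bool) true
                (F (A * sg (p ^ e)) (B * p ^ e) M (G * sg (p ^ e)) (H * p ^ e) p)
                (Nat.beq (Nat.gcd (G * sg (p ^ e)) (H * p ^ e)) 1)))
            true
            (@Bool.rec (fun _ => Bool) false
              (F (A * p) (B * (p - 1)) (p ^ e) G (H * p) p)
              (Nat.ble C (p ^ e))))
          (Nat.ble (p ^ e) (M / 2)))
        (Nat.ble (A * sg (p ^ e) * M) (B * p ^ e * (M + 1))) = true := h
    rw [hs, hpe] at h'
    rw [brec_iff] at h'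
    rcases h' with ⟨_, h2⟩ | ⟨h1, _⟩
    · rw [brec_iff] at h2
      rcases h2 with ⟨h7, h3⟩ | ⟨h7, h3⟩
      · have h7 := Nat.le_of_ble_eq_true h7
        rw [brec_iff] at h3
        rcases h3 with ⟨h4, _⟩ | ⟨_, h4⟩
        · rw [brec_iff] at h4
          rcases h4 with ⟨_, h6⟩ | ⟨_, h6⟩
          · exact fe_flag hp hp5 he (by omega) le_rfl
              (hF _ _ _ _ _ _ (Nat.mul_pos hA hp.pos) (Nat.mul_pos hB (by omega)) (by omega) h6)
          · exact absurd h6 (by simp)
        · rw [brec_iff] at h4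
          rcases h4 with ⟨h4, h5⟩ | ⟨_, h5⟩
          · rw [brec_iff] at h4
            rcases h4 with ⟨_, h6⟩ | ⟨h6, _⟩
            · exact fe_child (hF _ _ _ _ _ _ (Nat.mul_pos hA hspos) (Nat.mul_pos hB hpos)
                (by omega) h6) (ih (e + 1) (by omega) h5)
            · exact fe_gcd (beq_false h6) (ih (e + 1) (by omega) h5)
          · exact absurd h5 (by simp)
      · have h7 := ble_false h7
        exact fe_flag hp hp5 he (by omega) h7.le
          (hF _ _ _ _ _ _ (Nat.mul_pos hA hp.pos) (Nat.mul_pos hB (by omega)) (by omega) h3)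
    · exact fe_stop hp (by have := ble_false h1; omega)

theorem flag_sound (k : ℕ) : ∀ A B M G H P : ℕ, 0 < A → 0 < B → 3 ≤ P →
    flag k A B M G H P = true → ¬ FSol A B M G H P (k + 1) := by
  induction k with
  | zero =>
    intro A B M G H P hA hB hP h
    exact flag1_sound hA hB hP h
  | succ k ih =>
    intro A B M G H P hA hB hP h
    have h' : @Bool.rec (fun _ => Bool)
        (range (fun p => @Bool.rec (fun _ => Bool) true
              (floop (flag k) (thr (A * p) (B * (p - 1)) (k + 2))
                A B M G H p 300 (p + 1) p) (Nat.beq (Nat.gcd G p) 1))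
            (mx (P + 1) ((A * M - 1) / (B * (M + 1) - A * M) + 1))
            (((k + 2) * B - 1) / (B - A)))
        (Nat.ble (B * (M + 1)) (A * M))
        (Nat.ble B A) = true := h
    rw [brec_iff] at h'
    rcases h' with ⟨_, h2⟩ | ⟨h1, h2⟩
    · exact node_flag_ge hA hB (Nat.le_of_ble_eq_true h2)
    · have hAB : A < B := ble_false h1
      apply node_flag hA hAB
      intro p hp hPp hlo hhi
      rw [mx_eq] at h2
      have h3 := range_sound h2 hp (by omega) (max_le hPp hlo) hhi
      rw [brec_iff] at h3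
      rcases h3 with ⟨_, h3⟩ | ⟨h3, _⟩
      · have h5 : floop (flag k) (thr (A * p) (B * (p - 1)) (k + 2))
                  A B M G H p 300 (sg (p ^ 1)) (p ^ 1) = true := by
          rw [pow_one, sg_prime hp]; exact h3
        have hp6 := mod_six hp (by omega)
        exact floop_sound ih hA hB hp (by omega) 300 1 le_rfl h5
      · exact fe_dvd hp (dvd_of_gcd hp (beq_false h3))

theorem lloop_sound {A B q : ℕ} (hq : q.Prime) (fuel : ℕ) :
    ∀ e : ℕ, lloop A B q fuel (sg (q ^ e)) (q ^ e) = true →
      ∀ f : ℕ, e ≤ f → q ^ f ≤ A → A * sg (q ^ f) + 1 ≠ B * q ^ f := by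
  induction fuel with
  | zero =>
    intro e h
    exact absurd h (by show ¬ (false = true); simp)
  | succ n ih =>
    intro e h f hf hfA
    have hs : q * sg (q ^ e) + 1 = sg (q ^ (e + 1)) := (sg_pow_succ hq e).symm
    have hpe : q * q ^ e = q ^ (e + 1) := by rw [pow_succ, mul_comm]
    have h' : @Bool.rec (fun _ => Bool) true
        (@Bool.rec (fun _ => Bool) (lloop A B q n (q * sg (q ^ e) + 1) (q * q ^ e)) false
          (Nat.beq (A * sg (q ^ e) + 1) (B * q ^ e)))
        (Nat.ble (q ^ e) A) = true := h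
    rw [hs, hpe] at h'
    rw [brec_iff] at h'
    rcases h' with ⟨_, h2⟩ | ⟨h1, _⟩
    · rw [brec_iff] at h2
      rcases h2 with ⟨_, h3⟩ | ⟨h3, h4⟩
      · exact absurd h3 (by simp)
      · rcases Nat.eq_or_lt_of_le hf with rfl | hlt
        · exact beq_false h3
        · exact ih (e + 1) h4 f hlt hfA
    · have h2 := ble_false h1
      have h3 : q ^ e ≤ q ^ f := Nat.pow_le_pow_right hq.pos hf
      omega

theorem leaf_sound {A B P : ℕ} (hAB : A < B) (hP : 3 ≤ P)
    (h : leaf A B P = true) : ¬ Sol A B P 1 := by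
  rintro ⟨x, hx, hc, hb, heq⟩
  obtain ⟨q, e, y, hq, hxy, hy, hyc, hcop, hyb, hqx⟩ := split hx hc
  have hy1 : y = 1 := one_of_card_zero hy hyc
  subst hy1
  rw [mul_one] at hxy
  have hPq : P < q := hb q hq hqx
  have hx0 : 0 < x := Nat.pos_of_ne_zero hx
  obtain ⟨D, rfl⟩ : ∃ D, B = A + D := ⟨B - A, by omega⟩
  have hD0 : 0 < D := by omega
  have hgeo := sg_pow_mul hq (e + 1)
  rw [← hxy] at hgeo
  have hqx' : q ≤ x := Nat.le_of_dvd hx0 hqx
  obtain ⟨t, rfl⟩ : ∃ t, q = t + 1 := ⟨q - 1, by omega⟩
  simp only [Nat.add_sub_cancel] at hgeo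
  -- A x + t = A + t D x
  have hkey : A * x + t = A + t * D * x := by
    have e1 : t * (A * sg x + 1) = A * (sg x * t + 1) + t - A := by
      have : t * (A * sg x + 1) + A = A * (sg x * t + 1) + t := by ring
      omega
    have e2 : t * (A * sg x + 1) = t * ((A + D) * x) := by rw [heq]
    rw [hgeo] at e1
    have e3 : A * ((t + 1) * x) = t * A * x + A * x := by ring
    have e4 : t * ((A + D) * x) = t * A * x + t * D * x := by ring
    have e5 : A ≤ A * x := Nat.le_mul_of_pos_right A hx0
    omega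
  have htD : t * D ≤ A := by
    by_contra hcon
    have h1 : A + 1 ≤ t * D := by omega
    have h2 : (A + 1) * x ≤ t * D * x := Nat.mul_le_mul_right x h1
    have h3 : (A + 1) * x = A * x + x := by ring
    omega
  have hqval : A / D = t := by
    apply Nat.div_eq_of_lt_le
    · exact htD
    · -- A < (t + 1) D
      by_contra hcon
      have h1 : (t + 1) * D ≤ A := by omega
      have h2 : (t + 1) * D * x ≤ A * x := Nat.mul_le_mul_right x h1
      have h3 : (t + 1) * D * x = t * D * x + D * x := by ring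
      have h4 : x ≤ D * x := Nat.le_mul_of_pos_left x hD0
      -- A x + t = A + t D x ≤ A + A x - D x
      -- so D x + t ≤ A ;  A sg x + 1 = (A + D) x
      have h5 : (t + 1) * x ≤ sg x * (t + 1) := by
        rw [mul_comm (sg x)]; exact Nat.mul_le_mul_left _ (le_sg hx)
      have h6 := mul_succ_le_sg_mul hx hq.one_lt hqx
      -- A x (t + 2) ≤ A sg x (t + 1) < (A + D) x (t + 1)
      have h7 : A * (x * (t + 1 + 1)) ≤ A * (sg x * (t + 1)) := Nat.mul_le_mul_left _ h6
      have h8 : A * (sg x * (t + 1)) < (A + D) * x * (t + 1) := by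
        have : A * sg x < (A + D) * x := by omega
        calc A * (sg x * (t + 1)) = A * sg x * (t + 1) := by ring
          _ < (A + D) * x * (t + 1) := Nat.mul_lt_mul_of_pos_right this (by omega)
      have e1 : A * (x * (t + 1 + 1)) = A * x * (t + 1) + A * x := by ring
      have e2 : (A + D) * x * (t + 1) = A * x * (t + 1) + (t + 1) * D * x := by ring
      omega
  have hDD : A + D - A = D := by omega
  have h' : @Bool.rec (fun _ => Bool) true (leafr A (A + D) P (A / (A + D - A) + 1))
    (Nat.beq ((A + 1) % (A / (A + D - A) + 1)) 0) = true := h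
  rw [hDD, hqval] at h'
  have hdvd : (A + 1) % (t + 1) = 0 := by
    apply Nat.mod_eq_zero_of_dvd
    have h1 : t + 1 ∣ (A + D) * x := dvd_mul_of_dvd_right hqx _
    rw [← heq, hxy, sg_pow_succ hq] at h1
    have e1 : A * ((t + 1) * sg ((t + 1) ^ e) + 1) + 1 =
      (t + 1) * (A * sg ((t + 1) ^ e)) + (A + 1) := by ring
    rw [e1] at h1
    exact (Nat.dvd_add_right (Dvd.intro _ rfl)).mp h1
  rw [brec_iff] at h'
  rcases h' with ⟨_, h2⟩ | ⟨h1, _⟩
  · have h3 : @Bool.rec (fun _ => Bool)
      (@Bool.rec (fun _ => Bool) true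
        (@Bool.rec (fun _ => Bool) (lloop A (A + D) (t + 1) 1000 (t + 1 + 1) (t + 1)) false
          (Nat.beq (t + 1) (A + 1)))
        (Nat.beq (Nat.gcd (t + 1) 6) 1))
      true (Nat.ble (t + 1) P) = true := h2
    rw [brec_iff] at h3
    rcases h3 with ⟨h4, _⟩ | ⟨_, h4⟩
    · have := Nat.le_of_ble_eq_true h4
      omega
    · rw [brec_iff] at h4
      rcases h4 with ⟨_, h5⟩ | ⟨h5, _⟩
      · rw [brec_iff] at h5
        rcases h5 with ⟨_, h6⟩ | ⟨h6, h7⟩
        · exact absurd h6 (by simp)
        · have hne := beq_false h6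
          have h8 : lloop A (A + D) (t + 1) 1000 (sg ((t + 1) ^ 1)) ((t + 1) ^ 1) = true := by
            rw [pow_one, sg_prime hq]; exact h7
          have h9 := lloop_sound hq 1000 1 h8 (e + 1) (by omega)
          rw [← hxy] at h9
          apply h9 _ heq
          -- x ≤ A
          obtain ⟨c, hc'⟩ : ∃ c, A = t * D + c := ⟨A - t * D, by omega⟩
          have e1 : A * x = t * D * x + c * x := by
            conv_lhs => rw [hc']
            ring
          have h10 : c * x + t = A := by omega
          rcases Nat.eq_zero_or_pos c with h0 | h0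
          · subst h0; omega
          · have : 1 * x ≤ c * x := Nat.mul_le_mul_right x h0
            omega
      · have h6 : Nat.gcd (t + 1) 6 ≠ 1 := beq_false h5
        rcases Nat.coprime_or_dvd_of_prime hq 6 with h | h
        · exact h6 h
        · have e : 6 = 2 * 3 := by norm_num
          rw [e] at h
          rcases (Nat.Prime.dvd_mul hq).mp h with h | h
          · have := Nat.le_of_dvd (by norm_num) h; omega
          · have := Nat.le_of_dvd (by norm_num) h; omega
  · exact beq_false h1 hdvd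

theorem eloop_sound {E : ℕ → ℕ → ℕ → Bool} {F : ℕ → ℕ → ℕ → ℕ → ℕ → ℕ → Bool}
    {C A B p r : ℕ}
    (hE : ∀ A B P : ℕ, 0 < A → A < B → 3 ≤ P → E A B P = true → ¬ Sol A B P (r + 1))
    (hF : ∀ A B M G H P : ℕ, 0 < A → 0 < B → 3 ≤ P → F A B M G H P = true →
      ¬ FSol A B M G H P (r + 1))
    (hA : 0 < A) (hB : 0 < B) (hp : p.Prime) (hp3 : 3 < p) (fuel : ℕ) :
    ∀ e : ℕ, 1 ≤ e → eloop E F C A B p fuel (sg (p ^ e)) (p ^ e) = true →
      NE A B p (r + 1) e := by
  induction fuel with
  | zero =>
    intro e _ h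
    exact absurd h (by show ¬ (false = true); simp)
  | succ n ih =>
    intro e he h
    have hs : p * sg (p ^ e) + 1 = sg (p ^ (e + 1)) := (sg_pow_succ hp e).symm
    have hpe : p * p ^ e = p ^ (e + 1) := by rw [pow_succ, mul_comm]
    have hpos : 0 < p ^ e := pow_pos hp.pos e
    have hspos : 0 < sg (p ^ e) := sg_pos hpos
    have h' : @Bool.rec (fun _ => Bool)
        (@Bool.rec (fun _ => Bool)
          (@Bool.rec (fun _ => Bool) false
            (eloop E F C A B p n (p * sg (p ^ e) + 1) (p * p ^ e))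
            (@Bool.rec (fun _ => Bool) true (E (A * sg (p ^ e)) (B * p ^ e) p)
              (Nat.beq (Nat.gcd (A * sg (p ^ e)) (B * p ^ e)) 1)))
          true
          (@Bool.rec (fun _ => Bool) false
            (F (A * p) (B * (p - 1)) (p ^ e) A (B * p) p)
            (Nat.ble C (p ^ e))))
        true
        (Nat.ble (B * p ^ e) (A * sg (p ^ e))) = true := h
    rw [hs, hpe] at h'
    rw [brec_iff] at h'
    rcases h' with ⟨h1, _⟩ | ⟨h1, h2⟩
    · exact ne_stop hp (Nat.le_of_ble_eq_true h1)
    · have hlt := ble_false h1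
      rw [brec_iff] at h2
      rcases h2 with ⟨h3, _⟩ | ⟨_, h3⟩
      · rw [brec_iff] at h3
        rcases h3 with ⟨_, h4⟩ | ⟨_, h4⟩
        · exact ne_flag hA hp he (hF _ _ _ _ _ _ (Nat.mul_pos hA hp.pos)
            (Nat.mul_pos hB (by omega)) (by omega) h4)
        · exact absurd h4 (by simp)
      · rw [brec_iff] at h3
        rcases h3 with ⟨h4, h5⟩ | ⟨_, h5⟩
        · rw [brec_iff] at h4
          rcases h4 with ⟨_, h6⟩ | ⟨h6, _⟩
          · exact ne_child (hE _ _ _ (Nat.mul_pos hA hspos) hlt (by omega) h6)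
              (ih (e + 1) (by omega) h5)
          · exact ne_gcd (beq_false h6) (ih (e + 1) (by omega) h5)
        · exact absurd h5 (by simp)

theorem ex_succ (k A B P : ℕ) : ex (k + 1) A B P = range (exc k A B)
    (mx (P + 1) (A / (B - A) + 1)) ((k + 2) * B / (B - A)) := rfl

theorem exc_sound {k : ℕ} (ih : ∀ A B P : ℕ, 0 < A → A < B → 3 ≤ P →
    ex k A B P = true → ¬ Sol A B P (k + 1)) {A B p : ℕ} (hA : 0 < A) (hB : 0 < B)
    (hp : p.Prime) (hp3 : 3 < p) (h : exc k A B p = true) : NE A B p (k + 1) 1 := by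
  have h3 : @Bool.rec (fun _ => Bool) true
    (eloop (ex k) (flag k) (thr (A * p) (B * (p - 1)) (k + 2)) A B p 300 (p + 1) p)
    (Nat.beq (Nat.gcd A p) 1) = true := h
  rw [brec_iff] at h3
  rcases h3 with ⟨_, h3⟩ | ⟨h3, _⟩
  · have h5 : eloop (ex k) (flag k) (thr (A * p) (B * (p - 1)) (k + 2))
              A B p 300 (sg (p ^ 1)) (p ^ 1) = true := by
      rw [pow_one, sg_prime hp]; exact h3
    exact eloop_sound ih (flag_sound k) hA hB hp hp3 300 1 le_rfl h5
  · exact ne_dvd hp (dvd_of_gcd hp (beq_false h3))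

theorem ex_sound (k : ℕ) : ∀ A B P : ℕ, 0 < A → A < B → 3 ≤ P →
    ex k A B P = true → ¬ Sol A B P (k + 1) := by
  induction k with
  | zero =>
    intro A B P _ hAB hP h
    exact leaf_sound hAB hP h
  | succ k ih =>
    intro A B P hA hAB hP h
    rw [ex_succ, mx_eq] at h
    apply node_exact hAB
    intro p hp hPp hlo hhi
    have h3 : exc k A B p = true := range_sound h hp (by omega) (max_le hPp hlo) hhi
    exact exc_sound ih hA (by omega) hp (by omega) h3

end Run7.h29
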