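import Mathlib
import Pool.Agent.Run7.h29.Sound
import Pool.Agent.Run7.h29.KA
import Pool.Agent.Run7.h29.KB
import Pool.Agent.Run7.h29.KC
import Pool.Agent.Run7.h29.KD
import Pool.Agent.Run7.h29.KE
import Pool.Agent.Run7.h29.KF

/-! Reduction of Graham's equation to exact nodes, and the nodes for `3` and `9`. -/

namespace Run7.h29

theorem reduce {n : ℕ} (hn : 0 < n) (h : (∑ i ∈ n.properDivisors, i) = n / 2) (h2 : n ≠ 2) :
    ∃ a m : ℕ, n = 3 ^ a * m ∧ m ≠ 0 ∧ Big 3 m ∧ Nat.Coprime 3 m ∧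
      (3 ^ (a + 1) - 1) * sg m + 1 = 3 ^ (a + 1) * m ∧ 2 * sg n + 1 = 3 * n := by
  obtain ⟨hodd, heq⟩ := basic hn h h2
  have hxy : 3 ^ n.factorization 3 * (n / 3 ^ n.factorization 3) = n :=
    Nat.ordProj_mul_ordCompl_eq_self n 3
  have hcop : Nat.Coprime 3 (n / 3 ^ n.factorization 3) :=
    Nat.coprime_ordCompl Nat.prime_three hn.ne'
  set a := n.factorization 3
  set m := n / 3 ^ a
  refine ⟨a, m, hxy.symm, ?_, ?_, hcop, ?_, heq⟩
  · intro h0
    rw [h0, mul_zero] at hxy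
    omega
  · intro q hq hqm
    have hqn : q ∣ n := by rw [← hxy]; exact dvd_mul_of_dvd_right hqm _
    have h2' : q ≠ 2 := by
      rintro rfl
      exact (Nat.not_even_iff_odd.mpr hodd) (even_iff_two_dvd.mpr hqn)
    have h3' : q ≠ 3 := by
      rintro rfl
      have : 3 ∣ Nat.gcd 3 m := Nat.dvd_gcd dvd_rfl hqm
      rw [hcop] at this
      omega
    have := hq.two_le
    omega
  · have hs : sg n = sg (3 ^ a) * sg m := by
      conv_lhs => rw [← hxy]
      exact sg_mul (Nat.Coprime.pow_left _ hcop)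
    have hg := sg_pow_mul Nat.prime_three a
    rw [hs] at heq
    conv_rhs at heq => rw [← hxy]
    have e1 : 3 ^ (a + 1) = 3 * 3 ^ a := by rw [pow_succ, mul_comm]
    have e2 : 3 ^ (a + 1) - 1 = 2 * sg (3 ^ a) := by omega
    rw [e2, e1]
    linarith

theorem card_three {a m : ℕ} (ha : a ≠ 0) (hm : m ≠ 0) (hc : Nat.Coprime 3 m) :
    (3 ^ a * m).primeFactors.card = m.primeFactors.card + 1 := by
  have hcop' : Nat.Coprime (3 ^ a) m := Nat.Coprime.pow_left _ hc
  rw [hcop'.primeFactors_mul, Finset.card_union_of_disjoint hcop'.disjoint_primeFactors,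
    Nat.primeFactors_prime_pow ha Nat.prime_three, Finset.card_singleton, add_comm]

theorem sg_val {p e v : ℕ} (hp : p.Prime) (h : v * (p - 1) + 1 = p * p ^ e) :
    sg (p ^ e) = v := by
  have h1 := sg_pow_mul hp e
  have h2 : sg (p ^ e) * (p - 1) = v * (p - 1) := by omega
  have := hp.two_le
  exact Nat.eq_of_mul_eq_mul_right (by omega) h2

theorem child5 {e v w : ℕ} (hv : v * 4 + 2 = 10 * 5 ^ e) (hw : w = 3 * 5 ^ e) (hvw : v < w)
    (hv0 : 0 < v) (h : ex 3 v w 5 = true) : ¬ Sol (2 * sg (5 ^ e)) (3 * 5 ^ e) 5 4 := by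
  have h1 := sg_pow_mul Nat.prime_five e
  have h2 : 2 * sg (5 ^ e) = v := by omega
  rw [h2, ← hw]
  exact ex_sound 3 v w 5 hv0 hvw (by norm_num) h

theorem gcd5 {e : ℕ} (v : ℕ) (hv : v * 12 + 1 = 5 * 5 ^ e) :
    ¬ Nat.Coprime (2 * sg (5 ^ e)) (3 * 5 ^ e) := by
  have h1 := sg_pow_mul Nat.prime_five e
  have h2 : sg (5 ^ e) = 3 * v := by omega
  rw [h2]
  intro h
  have h3 : 3 ∣ Nat.gcd (2 * (3 * v)) (3 * 5 ^ e) :=
    Nat.dvd_gcd ⟨2 * v, by ring⟩ ⟨5 ^ e, rfl⟩
  rw [h] at h3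
  omega

theorem ne5 : NE 2 3 5 4 1 := by
  apply ne_gcd (gcd5 2 (by norm_num))
  apply ne_child (child5 (by norm_num) (by norm_num) (by norm_num) (by norm_num) t5_2)
  apply ne_gcd (gcd5 52 (by norm_num))
  apply ne_child (child5 (by norm_num) (by norm_num) (by norm_num) (by norm_num) t5_4)
  apply ne_gcd (gcd5 1302 (by norm_num))
  apply ne_child (child5 (by norm_num) (by norm_num) (by norm_num) (by norm_num) t5_6)
  apply ne_gcd (gcd5 32552 (by norm_num))
  apply ne_child (child5 (by norm_num) (by norm_num) (by norm_num) (by norm_num) t5_8)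
  apply ne_gcd (gcd5 ((5 ^ 10 - 1) / 12) (by norm_num))
  apply ne_child (child5 (by norm_num) (by norm_num) (by norm_num) (by norm_num) t5_10)
  apply ne_gcd (gcd5 ((5 ^ 12 - 1) / 12) (by norm_num))
  apply ne_child (child5 (by norm_num) (by norm_num) (by norm_num) (by norm_num) t5_12)
  apply ne_gcd (gcd5 ((5 ^ 14 - 1) / 12) (by norm_num))
  apply ne_child (child5 (by norm_num) (by norm_num) (by norm_num) (by norm_num) t5_14)
  apply ne_gcd (gcd5 ((5 ^ 16 - 1) / 12) (by norm_num))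
  apply ne_child (child5 (by norm_num) (by norm_num) (by norm_num) (by norm_num) t5_16)
  apply ne_gcd (gcd5 ((5 ^ 18 - 1) / 12) (by norm_num))
  apply ne_child (child5 (by norm_num) (by norm_num) (by norm_num) (by norm_num) t5_18)
  apply ne_flag (by norm_num) Nat.prime_five (by norm_num)
  have h := flag_sound 3 10 12 19073486328125 2 15 5 (by norm_num) (by norm_num) (by norm_num)
    t5_inf
  norm_num
  exact h

theorem no_3_5 : ¬ Sol 2 3 3 5 := by
  apply node_exact (r := 4) (by norm_num)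
  intro p hp hP _ hhi
  norm_num at hhi
  have hcase : p = 5 ∨ p = 7 ∨ p = 11 ∨ p = 13 := by
    have h6 := mod_six hp hP
    omega
  have hex : ∀ A B P : ℕ, 0 < A → A < B → 3 ≤ P → ex 3 A B P = true → ¬ Sol A B P (3 + 1) :=
    ex_sound 3
  rcases hcase with rfl | rfl | rfl | rfl
  · exact ne5
  · exact exc_sound hex (by norm_num) (by norm_num) hp (by norm_num) t_7
  · exact exc_sound hex (by norm_num) (by norm_num) hp (by norm_num) t_11
  · exact exc_sound hex (by norm_num) (by norm_num) hp (by norm_num) t_13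

theorem no_3 {r : ℕ} (h1 : 1 ≤ r) (h5 : r ≤ 5) : ¬ Sol 2 3 3 r := by
  have hcase : r = 1 ∨ r = 2 ∨ r = 3 ∨ r = 4 ∨ r = 5 := by omega
  rcases hcase with rfl | rfl | rfl | rfl | rfl
  · exact ex_sound 0 2 3 3 (by norm_num) (by norm_num) (by norm_num) u_1
  · exact ex_sound 1 2 3 3 (by norm_num) (by norm_num) (by norm_num) u_2
  · exact ex_sound 2 2 3 3 (by norm_num) (by norm_num) (by norm_num) u_3
  · exact ex_sound 3 2 3 3 (by norm_num) (by norm_num) (by norm_num) u_4
  · exact no_3_5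

theorem no_9 {r : ℕ} (h1 : 1 ≤ r) (h4 : r ≤ 4) : ¬ Sol 8 9 3 r := by
  have hcase : r = 1 ∨ r = 2 ∨ r = 3 ∨ r = 4 := by omega
  rcases hcase with rfl | rfl | rfl | rfl
  · exact ex_sound 0 8 9 3 (by norm_num) (by norm_num) (by norm_num) v_1
  · exact ex_sound 1 8 9 3 (by norm_num) (by norm_num) (by norm_num) v_2
  · exact ex_sound 2 8 9 3 (by norm_num) (by norm_num) (by norm_num) v_3
  · exact ex_sound 3 8 9 3 (by norm_num) (by norm_num) (by norm_num) v_4

end Run7.h29
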