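import Mathlib
import Pool.Agent.Run7.h29.Nodes

/-! `(T - 1) σ(x) + 1 = T x` has no solution with two prime factors, for `T = 3 ^ k`, `k ≥ 3`. -/

namespace Run7.h29

/-- the squares argument -/
theorem no_square {T K S N : ℤ} (hT : 27 ≤ T) (hK : 1 ≤ K) (hKT : K * K < T)
    (hN : N = T * T - T - K)
    (h : S * S - (K - 1) * (T + 1) * S - (K + 2) * N - K * ((T + 1) * (T + 1)) = 0) : False := by
  set Z := 2 * S - (K - 1) * (T + 1) with hZ
  have hE : Z * Z = ((K + 3) * T + K - 3) * ((K + 3) * T + K - 3) + 12 * T - 4 * K * K - 8 := by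
    rw [hZ]
    subst hN
    linear_combination 4 * h
  rcases lt_trichotomy K 2 with hk | hk | hk
  · have hK1 : K = 1 := by omega
    subst hK1
    have h1 : Z * Z = 16 * T * T - 4 * T - 8 := by rw [hE]; ring
    rcases le_total 0 Z with hz | hz
    · have h2 : 4 * T - 1 < Z := by nlinarith
      have h3 : Z < 4 * T := by nlinarith
      omega
    · have h2 : 4 * T - 1 < -Z := by nlinarith
      have h3 : -Z < 4 * T := by nlinarith
      omega
  · subst hk
    have h1 : Z * Z = 25 * T * T + 2 * T - 23 := by rw [hE]; ring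
    rcases le_total 0 Z with hz | hz
    · have h2 : 5 * T < Z := by nlinarith
      have h3 : Z < 5 * T + 1 := by nlinarith
      omega
    · have h2 : 5 * T < -Z := by nlinarith
      have h3 : -Z < 5 * T + 1 := by nlinarith
      omega
  · have hK3 : 3 ≤ K := by omega
    set W := (K + 3) * T + K - 3 with hW
    have hW0 : 0 ≤ W := by
      rw [hW]
      have : 0 ≤ (K + 3) * T := by positivity
      omega
    have h1 : W * W < Z * Z := by
      rw [hE]
      have : 4 * K * K = 4 * (K * K) := by ring
      rw [this]; omega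
    have h2 : Z * Z < (W + 1) * (W + 1) := by
      have e1 : (W + 1) * (W + 1) = W * W + 2 * W + 1 := by ring
      rw [hE, e1]
      have h6 : 6 * T ≤ (K + 3) * T := by nlinarith
      have h7 : 0 ≤ 4 * K * K := by positivity
      have h8 : W = (K + 3) * T + K - 3 := hW
      linarith
    rcases le_total 0 Z with hz | hz
    · have h3 : W < Z := by nlinarith
      have h4 : Z < W + 1 := by nlinarith
      omega
    · have h3 : W < -Z := by nlinarith
      have h4 : -Z < W + 1 := by nlinarith
      omega

/-- both exponents equal to two -/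
theorem two_two {T P Q : ℕ} (hT : 27 ≤ T) (hP : 1 ≤ P) (hPQ : P < Q)
    (h : ((T : ℤ) * T - T - P * Q) * ((T + P + 1) * (T + Q + 1)) =
      P * (T + P + 1) + Q * (T + Q + 1)) : False := by
  set K : ℤ := (T : ℤ) * T - T - P * Q with hKdef
  have hP' : (1 : ℤ) ≤ P := by exact_mod_cast hP
  have hPQ' : (P : ℤ) + 1 ≤ Q := by exact_mod_cast hPQ
  have hT' : (27 : ℤ) ≤ T := by exact_mod_cast hT
  have hK : 1 ≤ K := by
    by_contra hcon
    have hK0 : K ≤ 0 := by omega
    have : K * (((T : ℤ) + P + 1) * (T + Q + 1)) ≤ 0 :=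
      mul_nonpos_of_nonpos_of_nonneg hK0 (by positivity)
    have h2 : (0 : ℤ) < P * (T + P + 1) + Q * (T + Q + 1) := by positivity
    omega
  -- `K T < Q`
  have h1 : K * T < Q := by
    have h2 : K * ((T : ℤ) + P + 1) * (T + Q + 1) < (P + Q) * (T + Q + 1) := by
      have : (P : ℤ) * (T + P + 1) < P * (T + Q + 1) := by nlinarith
      calc K * ((T : ℤ) + P + 1) * (T + Q + 1) = K * (((T : ℤ) + P + 1) * (T + Q + 1)) := by ring
        _ = P * (T + P + 1) + Q * (T + Q + 1) := h
        _ < P * (T + Q + 1) + Q * (T + Q + 1) := by omega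
        _ = (P + Q) * (T + Q + 1) := by ring
    have h3 : K * ((T : ℤ) + P + 1) < P + Q := lt_of_mul_lt_mul_right h2 (by positivity)
    nlinarith
  have h4 : (P : ℤ) * Q < T * T := by
    have : (P : ℤ) * Q = T * T - T - K := by rw [hKdef]; ring
    nlinarith
  have h5 : K * P < T := by
    have h6 : (K * P) * T < T * T := by
      calc (K * P) * T = P * (K * T) := by ring
        _ ≤ P * Q := by nlinarith
        _ < T * T := h4
    exact lt_of_mul_lt_mul_right h6 (by positivity)
  -- `K ≤ P`
  have h7 : K ≤ P := by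
    set X : ℕ := T + P + 1 with hX
    set Y : ℕ := T + Q + 1 with hY
    have hXY : X < Y := by omega
    set g := Nat.gcd X Y with hg
    have hg0 : 0 < g := Nat.gcd_pos_of_pos_left _ (by omega)
    obtain ⟨x, hx⟩ : g ∣ X := Nat.gcd_dvd_left _ _
    obtain ⟨y, hy⟩ : g ∣ Y := Nat.gcd_dvd_right _ _
    have hco : Nat.Coprime x y := by
      have h8 : Nat.Coprime (X / g) (Y / g) := Nat.coprime_div_gcd_div_gcd hg0
      rwa [hx, hy, Nat.mul_div_cancel_left _ hg0, Nat.mul_div_cancel_left _ hg0] at h8
    have hxy : x < y := by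
      have : g * x < g * y := by rw [← hx, ← hy]; exact hXY
      exact Nat.lt_of_mul_lt_mul_left this
    have hx0 : 0 < x := by
      rcases Nat.eq_zero_or_pos x with h0 | h0
      · rw [h0, mul_zero] at hx; omega
      · exact h0
    have hXc : ((T : ℤ) + P + 1) = g * x := by
      have : ((X : ℕ) : ℤ) = g * x := by rw [hx]; push_cast; ring
      rw [← this, hX]; push_cast; ring
    have hYc : ((T : ℤ) + Q + 1) = g * y := by
      have : ((Y : ℕ) : ℤ) = g * y := by rw [hy]; push_cast; ring
      rw [← this, hY]; push_cast; ring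
    have hg0' : (0 : ℤ) < g := by exact_mod_cast hg0
    have heq : K * (g * x * y) = P * x + Q * y := by
      have : (g : ℤ) * (K * (g * x * y)) = g * (P * x + Q * y) := by
        have h9 := h
        rw [hXc, hYc] at h9
        linear_combination h9
      exact mul_left_cancel₀ hg0'.ne' this
    have hdvd : y ∣ P := by
      have h8 : (y : ℤ) ∣ P * x := by
        have : (P : ℤ) * x = K * (g * x * y) - Q * y := by linarith
        rw [this]
        exact dvd_sub (Dvd.intro_left _ (by ring : K * (g * x) * (y : ℤ) = _)) (Dvd.intro_left _ rfl)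
      have h9 : y ∣ P * x := by exact_mod_cast h8
      exact (Nat.Coprime.dvd_of_dvd_mul_right hco.symm h9)
    have hyP : y ≤ P := Nat.le_of_dvd hP hdvd
    -- `K x y < x² + y²`
    have h10 : K * (x * y) < x * x + y * y := by
      have h11 : (g : ℤ) * g * (K * (x * y)) < g * g * (x * x + y * y) := by
        have e1 : (g : ℤ) * g * (K * (x * y)) = K * ((T + P + 1) * (T + Q + 1)) := by
          rw [hXc, hYc]; ring
        have e2 : (g : ℤ) * g * (x * x + y * y) =
          (T + P + 1) * (T + P + 1) + (T + Q + 1) * (T + Q + 1) := by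
          rw [hXc, hYc]; ring
        rw [e1, e2, h]
        nlinarith
      exact lt_of_mul_lt_mul_left h11 (by positivity)
    by_contra hcon
    have hKy : (y : ℤ) + 1 ≤ K := by
      have : (y : ℤ) ≤ P := by exact_mod_cast hyP
      omega
    have hx0' : (1 : ℤ) ≤ x := by exact_mod_cast hx0
    have hxy' : (x : ℤ) + 1 ≤ y := by exact_mod_cast hxy
    have h12 : ((y : ℤ) + 1) * (x * y) ≤ K * (x * y) :=
      mul_le_mul_of_nonneg_right hKy (by positivity)
    nlinarith [mul_nonneg (sub_nonneg.mpr hx0') (mul_nonneg (show (0:ℤ) ≤ y by positivity) (show (0:ℤ) ≤ y by positivity)), mul_nonneg (sub_nonneg.mpr hx0') (show (0:ℤ) ≤ y by positivity)]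
  have h8 : K * K < T := by nlinarith
  refine no_square (T := T) (K := K) (S := P + Q) (N := P * Q) hT' hK h8 ?_ ?_
  · rw [hKdef]; ring
  · have e : (P : ℤ) * Q = T * T - T - K := by rw [hKdef]; ring
    linear_combination (-1 : ℤ) * h + (-1 : ℤ) * (K + 2 - (K + 2)) * e
end Run7.h29
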