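import Mathlib
import Pool.Agent.Run7.h29.Two

/-! No solutions of `(T - 1) σ(x) + 1 = T x` with one or two prime factors, `T = 3 ^ k`. -/

namespace Run7.h29

theorem sg_pow_ge {p e : ℕ} (hp : p.Prime) (he : 2 ≤ e) : p * p + p + 1 ≤ sg (p ^ e) := by
  obtain ⟨f, rfl⟩ : ∃ f, e = f + 2 := ⟨e - 2, by omega⟩
  induction f with
  | zero =>
    rw [sg_pow_succ hp, pow_one, sg_prime hp]
    apply le_of_eq; ring
  | succ f ih =>
    rw [sg_pow_succ hp]
    have h1 := ih (by omega)
    have h2 : 1 * sg (p ^ (f + 2)) ≤ p * sg (p ^ (f + 2)) :=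
      Nat.mul_le_mul_right _ hp.one_lt.le
    omega

theorem pow_eq_sub {p e : ℕ} (hp : p.Prime) : p ^ (e + 1) = (p - 1) * sg (p ^ e) + 1 := by
  have := sg_pow_mul hp e
  rw [pow_succ, mul_comm (p ^ e) p, ← this, mul_comm (p - 1)]

theorem three_pow_not_prime {k : ℕ} (hk : 2 ≤ k) : ¬ (3 ^ k).Prime := by
  intro h
  exact Nat.Prime.not_prime_pow hk h

theorem no_one {k : ℕ} (hk : 2 ≤ k) : ¬ Sol (3 ^ k - 1) (3 ^ k) 3 1 := by
  rintro ⟨x, hx, hc, hb, heq⟩
  obtain ⟨q, e, y, hq, hxy, hy, hyc, hcop, hyb, hqx⟩ := split hx hc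
  have hy1 : y = 1 := one_of_card_zero hy hyc
  subst hy1
  rw [mul_one] at hxy
  set T := 3 ^ k with hT
  have hT1 : 1 ≤ T := Nat.one_le_pow _ _ (by norm_num)
  rw [hxy, sg_pow_succ hq, pow_eq_sub hq] at heq
  set Y := sg (q ^ e) with hY
  have hY0 : 0 < Y := sg_pos (pow_pos hq.pos e)
  obtain ⟨t, ht⟩ : ∃ t, T = t + 1 := ⟨T - 1, by omega⟩
  obtain ⟨s, hs⟩ : ∃ s, q = s + 1 := ⟨q - 1, by have := hq.pos; omega⟩
  rw [ht, hs] at heq
  simp only [Nat.add_sub_cancel] at heq
  have h1 : t * Y = s * Y := by
    have e1 : t * ((s + 1) * Y + 1) + 1 = t * s * Y + t * Y + (t + 1) := by ring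
    have e2 : (t + 1) * (s * Y + 1) = t * s * Y + s * Y + (t + 1) := by ring
    omega
  have h2 : t = s := Nat.eq_of_mul_eq_mul_right hY0 h1
  have h3 : T = q := by omega
  rw [← h3] at hq
  exact three_pow_not_prime hk hq

theorem no_two {k : ℕ} (hk : 3 ≤ k) : ¬ Sol (3 ^ k - 1) (3 ^ k) 3 2 := by
  rintro ⟨x, hx, hc, hb, heq⟩
  obtain ⟨p, e, y, hp, hxy, hy, hyc, hcop, hyb, hpx⟩ := split hx hc
  obtain ⟨q, f, z, hq, hyz, hz, hzc, hcop2, hzb, hqy⟩ := split hy hyc
  have hz1 : z = 1 := one_of_card_zero hz hzc
  subst hz1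
  rw [mul_one] at hyz
  have hpq : p < q := hyb q hq hqy
  have hp3 : 3 < p := hb p hp hpx
  set T := 3 ^ k with hT
  have hT27 : 27 ≤ T := by
    have : 3 ^ 3 ≤ 3 ^ k := Nat.pow_le_pow_right (by norm_num) hk
    norm_num at this; exact this
  have hT3 : T % 3 = 0 := by
    obtain ⟨j, rfl⟩ : ∃ j, k = j + 1 := ⟨k - 1, by omega⟩
    rw [hT, pow_succ]; exact Nat.mul_mod_left _ _
  have hsx : sg x = sg (p ^ (e + 1)) * sg (q ^ (f + 1)) := by
    rw [hxy, hyz]
    apply sg_mul
    apply Nat.Coprime.pow
    exact (Nat.coprime_primes hp hq).mpr hpq.ne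
  -- `p > T`
  have hpT : T < p := by
    have h1 := mul_succ_le_sg_mul hx hp.one_lt hpx
    have hx0 : 0 < x := Nat.pos_of_ne_zero hx
    have h2 : (T - 1) * (x * (p + 1)) ≤ (T - 1) * (sg x * p) := Nat.mul_le_mul_left _ h1
    have h3 : (T - 1) * (sg x * p) < T * x * p := by
      have : (T - 1) * sg x < T * x := by omega
      calc (T - 1) * (sg x * p) = (T - 1) * sg x * p := by ring
        _ < T * x * p := Nat.mul_lt_mul_of_pos_right this hp.pos
    obtain ⟨t, ht⟩ : ∃ t, T = t + 1 := ⟨T - 1, by omega⟩
    rw [ht] at h2 h3 ⊢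
    simp only [Nat.add_sub_cancel] at h2 h3
    have h4 : x * t < x * p := by
      have e1 : t * (x * (p + 1)) = x * t + t * x * p := by ring
      have e2 : (t + 1) * x * p = x * p + t * x * p := by ring
      omega
    have h5 : t < p := Nat.lt_of_mul_lt_mul_left h4
    rcases Nat.lt_or_ge (t + 1) p with h6 | h6
    · exact h6
    · exfalso
      have h7 : p = T := by omega
      rw [h7] at hp
      exact three_pow_not_prime (by omega) hp
  -- the sum of divisors modulo 3
  have hmod : (sg (p ^ (e + 1)) * sg (q ^ (f + 1))) % 3 = 1 := by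
    rw [hsx] at heq
    obtain ⟨j, hj⟩ : ∃ j, T = 3 * j := ⟨T / 3, by omega⟩
    have h1 : (T - 1) * (sg (p ^ (e + 1)) * sg (q ^ (f + 1))) + 1 = T * x := heq
    obtain ⟨t, ht⟩ : ∃ t, T = t + 1 := ⟨T - 1, by omega⟩
    set s := sg (p ^ (e + 1)) * sg (q ^ (f + 1)) with hs
    have h2 : 3 * (j * s) + 1 = s + 3 * (j * x) := by
      have e1 : (T - 1) * s + s = T * s := by
        rw [ht]; simp only [Nat.add_sub_cancel]; ring
      have e2 : T * s = 3 * (j * s) := by rw [hj]; ring
      have e3 : T * x = 3 * (j * x) := by rw [hj]; ring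
      omega
    omega
  -- the main identity
  have hmain : ((T : ℤ) * T - T - ((p : ℤ) - T) * ((q : ℤ) - T)) * (sg (p ^ e) * sg (q ^ f)) =
      ((p : ℤ) - T) * sg (p ^ e) + ((q : ℤ) - T) * sg (q ^ f) := by
    have h1 : (T - 1) * ((p * sg (p ^ e) + 1) * (q * sg (q ^ f) + 1)) + 1 =
        T * (((p - 1) * sg (p ^ e) + 1) * ((q - 1) * sg (q ^ f) + 1)) := by
      rw [← sg_pow_succ hp, ← sg_pow_succ hq, ← pow_eq_sub hp, ← pow_eq_sub hq, ← hsx, ← hyz,
        ← hxy]
      exact heq
    have hT1 : 1 ≤ T := by omega
    have hp1 : 1 ≤ p := hp.pos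
    have hq1 : 1 ≤ q := hq.pos
    have h2 : ((T : ℤ) - 1) * (((p : ℤ) * sg (p ^ e) + 1) * (q * sg (q ^ f) + 1)) + 1 =
        T * ((((p : ℤ) - 1) * sg (p ^ e) + 1) * (((q : ℤ) - 1) * sg (q ^ f) + 1)) := by
      have := congrArg (Nat.cast : ℕ → ℤ) h1
      push_cast [Nat.cast_sub hT1, Nat.cast_sub hp1, Nat.cast_sub hq1] at this
      exact this
    linear_combination h2
  obtain ⟨P, hP⟩ : ∃ P, p = T + P := ⟨p - T, by omega⟩
  obtain ⟨Q, hQ⟩ : ∃ Q, q = T + Q := ⟨q - T, by omega⟩
  have hP1 : 1 ≤ P := by omega
  have hPQ : P < Q := by omega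
  have ePc : (p : ℤ) - T = P := by rw [hP]; push_cast; ring
  have eQc : (q : ℤ) - T = Q := by rw [hQ]; push_cast; ring
  rw [ePc, eQc] at hmain
  set X : ℕ := sg (p ^ e) with hX
  set Y : ℕ := sg (q ^ f) with hY
  have hX0 : 0 < X := sg_pos (pow_pos hp.pos e)
  have hY0 : 0 < Y := sg_pos (pow_pos hq.pos f)
  set K : ℤ := (T : ℤ) * T - T - P * Q with hK
  have hK1 : 1 ≤ K := by
    by_contra hcon
    have hK0 : K ≤ 0 := by omega
    have h1 : K * ((X : ℤ) * Y) ≤ 0 := mul_nonpos_of_nonpos_of_nonneg hK0 (by positivity)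
    have h2 : (0 : ℤ) < P * X + Q * Y := by positivity
    omega
  have hPQT : P * Q < T * T := by
    have : (P : ℤ) * Q < T * T := by
      have h1 : (P : ℤ) * Q = T * T - T - K := by rw [hK]; ring
      have h2 : (0 : ℤ) < T := by exact_mod_cast (by omega : 0 < T)
      omega
    exact_mod_cast this
  have hQT : Q < T * T := by
    have : 1 * Q ≤ P * Q := Nat.mul_le_mul_right _ hP1
    omega
  -- `X Y ≤ P X + Q Y`
  have hle : X * Y ≤ P * X + Q * Y := by
    have : (1 : ℤ) * ((X : ℤ) * Y) ≤ K * ((X : ℤ) * Y) :=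
      mul_le_mul_of_nonneg_right hK1 (by positivity)
    have h2 : ((X : ℤ) * Y) ≤ P * X + Q * Y := by omega
    exact_mod_cast h2
  rcases Nat.lt_or_ge e 2 with he | he
  · rcases Nat.lt_or_ge f 2 with hf | hf
    · -- small exponents
      have hecase : e = 0 ∨ e = 1 := by omega
      have hfcase : f = 0 ∨ f = 1 := by omega
      have hpm : p % 3 = 1 ∨ p % 3 = 2 := by
        have : ¬ 3 ∣ p := fun h => by
          have := (Nat.prime_dvd_prime_iff_eq Nat.prime_three hp).mp h; omega
        omega
      have hqm : q % 3 = 1 ∨ q % 3 = 2 := by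
        have : ¬ 3 ∣ q := fun h => by
          have := (Nat.prime_dvd_prime_iff_eq Nat.prime_three hq).mp h; omega
        omega
      have sp1 : sg (p ^ 1) = p + 1 := by rw [pow_one, sg_prime hp]
      have sq1 : sg (q ^ 1) = q + 1 := by rw [pow_one, sg_prime hq]
      have sp2 : sg (p ^ 2) = p * (p + 1) + 1 := by rw [sg_pow_succ hp, sp1]
      have sq2 : sg (q ^ 2) = q * (q + 1) + 1 := by rw [sg_pow_succ hq, sq1]
      rcases hecase with rfl | rfl
      · rcases hfcase with rfl | rfl
        · -- (1,1)
          simp only [Nat.zero_add, sp1, sq1] at hmod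
          have hp1 : p % 3 = 1 := by
            rcases hpm with h | h
            · exact h
            · exfalso
              have : (p + 1) % 3 = 0 := by omega
              rw [Nat.mul_mod, this, zero_mul, Nat.zero_mod] at hmod
              omega
          have hXe : X = 1 := by rw [hX, pow_zero, sg_one]
          have hYe : Y = 1 := by rw [hY, pow_zero, sg_one]
          rw [hXe, hYe] at hmain
          have h1 : (P + 1) * (Q + 1) + T = T * T + 1 := by
            have : ((P : ℤ) + 1) * (Q + 1) + T = T * T + 1 := by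
              push_cast at hmain
              rw [hK] at hmain
              linear_combination (-1 : ℤ) * hmain
            exact_mod_cast this
          have h2 : (P + 1) % 3 = 1 := by
            apply mod_three_of_primes (by omega)
            intro l hl hld
            have hodd : T % 2 = 1 := by
              rw [hT, Nat.pow_mod]; simp
            have hdiv : l ∣ T * T + 1 - T := by
              have : T * T + 1 - T = (P + 1) * (Q + 1) := by omega
              rw [this]; exact dvd_mul_of_dvd_left hld _
            have hTT : T ≤ T * T := Nat.le_mul_self T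
            have hmod2 : (T * T + 1 - T) % 2 = 1 := by
              obtain ⟨j, hj⟩ : ∃ j, T = 2 * j + 1 := ⟨T / 2, by omega⟩
              have : T * T = 4 * (j * j) + 4 * j + 1 := by rw [hj]; ring
              omega
            have hmod3 : (T * T + 1 - T) % 3 = 1 := by
              obtain ⟨j, hj⟩ : ∃ j, T = 3 * j := ⟨T / 3, by omega⟩
              have : T * T = 9 * (j * j) := by rw [hj]; ring
              omega
            apply prime_mod_three hl (x := 2 * T - 1)
            · rintro rfl
              omega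
            · rintro rfl
              omega
            · have : (2 * T - 1) ^ 2 + 3 = 4 * (T * T + 1 - T) := by
                obtain ⟨j, hj⟩ : ∃ j, T = j + 1 := ⟨T - 1, by omega⟩
                have e1 : 2 * T - 1 = 2 * j + 1 := by omega
                have e2 : T * T + 1 - T = j * j + j + 1 := by
                  have : T * T = j * j + 2 * j + 1 := by rw [hj]; ring
                  omega
                rw [e1, e2]; ring
              rw [this]
              exact dvd_mul_of_dvd_right hdiv 4
          omega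
        · -- (1,2)
          simp only [Nat.zero_add, Nat.reduceAdd, sp1, sq2] at hmod
          rcases hpm with h1 | h1
          · rcases hqm with h2 | h2
            · have h3 : (q * (q + 1) + 1) % 3 = 0 := by
                rw [Nat.add_mod, Nat.mul_mod, Nat.add_mod q, h2]
              rw [Nat.mul_mod, h3] at hmod; simp at hmod
            · have h3 : (q * (q + 1) + 1) % 3 = 1 := by
                rw [Nat.add_mod, Nat.mul_mod, Nat.add_mod q, h2]
              have h4 : (p + 1) % 3 = 2 := by omega
              rw [Nat.mul_mod, h3, h4] at hmod; simp at hmod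
          · have h4 : (p + 1) % 3 = 0 := by omega
            rw [Nat.mul_mod, h4, zero_mul, Nat.zero_mod] at hmod; omega
      · rcases hfcase with rfl | rfl
        · -- (2,1)
          simp only [Nat.zero_add, Nat.reduceAdd, sp2, sq1] at hmod
          rcases hqm with h1 | h1
          · rcases hpm with h2 | h2
            · have h3 : (p * (p + 1) + 1) % 3 = 0 := by
                rw [Nat.add_mod, Nat.mul_mod, Nat.add_mod p, h2]
              rw [Nat.mul_mod, h3] at hmod; simp at hmod
            · have h3 : (p * (p + 1) + 1) % 3 = 1 := by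
                rw [Nat.add_mod, Nat.mul_mod, Nat.add_mod p, h2]
              have h4 : (q + 1) % 3 = 2 := by omega
              rw [Nat.mul_mod, h3, h4] at hmod; simp at hmod
          · have h4 : (q + 1) % 3 = 0 := by omega
            rw [Nat.mul_mod, h4, mul_zero, Nat.zero_mod] at hmod; omega
        · -- (2,2)
          have hXe : (X : ℤ) = T + P + 1 := by
            rw [hX, sp1, hP]; push_cast; ring
          have hYe : (Y : ℤ) = T + Q + 1 := by
            rw [hY, sq1, hQ]; push_cast; ring
          rw [hXe, hYe] at hmain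
          exact two_two hT27 hP1 hPQ hmain
    · -- `e ≤ 1`, `f ≥ 2`
      have hYge : q * q + q + 1 ≤ Y := sg_pow_ge hq hf
      have hXle : X ≤ p + 1 := by
        have hecase : e = 0 ∨ e = 1 := by omega
        rcases hecase with rfl | rfl
        · rw [hX, pow_zero, sg_one]; omega
        · rw [hX, pow_one, sg_prime hp]
      -- `Y (K X - Q) = P X`
      have h1 : (K * X - Q) * Y = (P : ℤ) * X := by linear_combination hmain
      have h2 : (0 : ℤ) < (P : ℤ) * X := by positivity
      have h3 : 1 ≤ K * X - Q := by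
        by_contra hcon
        have : K * X - Q ≤ 0 := by omega
        have : (K * X - Q) * Y ≤ 0 := mul_nonpos_of_nonpos_of_nonneg this (by positivity)
        omega
      have h4 : (Y : ℤ) ≤ P * X := by
        rw [← h1]
        nlinarith
      have h5 : Y ≤ P * X := by exact_mod_cast h4
      have h6 : P * X ≤ q * q := by
        have : P ≤ q := by omega
        have h7 : X ≤ q := by omega
        exact Nat.mul_le_mul this h7
      omega
  · -- `e ≥ 2`
    have hXge : p * p + p + 1 ≤ X := sg_pow_ge hp he
    have hTT : T * T ≤ p * p := Nat.mul_le_mul hpT.le hpT.le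
    rcases Nat.eq_zero_or_pos f with hf | hf
    · subst hf
      have hYe : Y = 1 := by rw [hY, pow_zero, sg_one]
      rw [hYe] at hmain
      have h1 : (K - P) * X = (Q : ℤ) := by
        push_cast at hmain
        linear_combination hmain
      have h2 : (0 : ℤ) < Q := by exact_mod_cast (by omega : 0 < Q)
      have h3 : 1 ≤ K - P := by
        by_contra hcon
        have : K - P ≤ 0 := by omega
        have : (K - P) * X ≤ 0 := mul_nonpos_of_nonpos_of_nonneg this (by positivity)
        omega
      have h4 : (X : ℤ) ≤ Q := by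
        rw [← h1]; nlinarith
      have h5 : X ≤ Q := by exact_mod_cast h4
      omega
    · have hYge : q + 1 ≤ Y := by
        rcases Nat.lt_or_ge f 2 with hf2 | hf2
        · have : f = 1 := by omega
          subst this
          rw [hY, pow_one, sg_prime hq]
        · have := sg_pow_ge hq hf2
          have h9 : 0 ≤ q * q := Nat.zero_le _
          omega
      -- `(X - Q) (Y - P) > P Q`
      have h1 : T * T + 3 * T ≤ (X - Q) + T * T := by
        have : p * p = T * T + 2 * (T * P) + P * P := by rw [hP]; ring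
        have h2 : T * 1 ≤ T * P := Nat.mul_le_mul_left _ hP1
        omega
      have h2 : T ≤ Y - P := by omega
      have h3 : X = (X - Q) + Q := by
        have : Q ≤ X := by omega
        omega
      have h4 : Y = (Y - P) + P := by omega
      set u := X - Q with hu
      set v := Y - P with hv
      rw [h3, h4] at hle
      have h5 : u * v ≤ P * Q := by
        have e1 : (u + Q) * (v + P) = u * v + u * P + Q * v + Q * P := by ring
        have e2 : P * (u + Q) + Q * (v + P) = u * P + Q * v + Q * P + P * Q := by ring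
        omega
      have h6 : (3 * T) * T ≤ u * v := Nat.mul_le_mul (by omega) h2
      have h7 : (3 * T) * T = 3 * (T * T) := by ring
      omega

end Run7.h29
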