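import Pool.Agent.Run7.h29.SearchQ

/-! Kernel evaluations of the search. -/

namespace Run7.h29

set_option maxRecDepth 100000 in
theorem s3_2 : sf 0 2 3 3 = true := by decide +kernel

set_option maxRecDepth 100000 in
theorem s3_4 : sf 2 2 3 3 = true := by decide +kernel

set_option maxRecDepth 100000 in
theorem s3_6 : sf 4 2 3 3 = true := by decide +kernel

set_option maxRecDepth 100000 in
theorem s3_8 : sf 6 2 3 3 = true := by decide +kernel

set_option maxRecDepth 100000 in
theorem s9_2 : sf 0 8 9 3 = true := by decide +kernel

set_option maxRecDepth 100000 in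
theorem s9_4 : sf 2 8 9 3 = true := by decide +kernel

set_option maxRecDepth 100000 in
theorem s9_6 : sf 4 8 9 3 = true := by decide +kernel

end Run7.h29
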