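import Pool.Agent.Run7.h29.Search

/-! Executable search for squarefree solutions whose primes are `1` modulo `3`. -/

namespace Run7.h29

noncomputable section

/-- `child p` for all candidates `p ≡ 1 (mod 6)` with `lo ≤ p ≤ hi` -/
def rangeq (child : Nat → Bool) (lo hi : Nat) : Bool :=
  all6 child (Nat.add (Nat.mul 6 (Nat.div (Nat.add lo 4) 6)) 1)
    (Nat.div (Nat.sub (Nat.add hi 5) (Nat.mul 6 (Nat.div (Nat.add lo 4) 6))) 6)

/-- the number `q` is not a prime `≡ 1 (mod 3)` larger than `p` -/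
def sfhit (p q : Nat) : Bool :=
  @Bool.rec (fun _ => Bool)
    (@Bool.rec (fun _ => Bool) true
      (@Bool.rec (fun _ => Bool) true false (Nat.beq (Nat.mod q 3) 1)) (cand q))
    true (Nat.ble q p)

/-- two remaining primes, the smaller one is `p` -/
def sfleaf (A B p : Nat) : Bool :=
  @Bool.rec (fun _ => Bool) true
    (sfhit p (Nat.div (Nat.succ (Nat.mul A (Nat.succ p)))
      (Nat.sub (Nat.mul B p) (Nat.mul A (Nat.succ p)))))
    (Nat.beq (Nat.mod (Nat.succ (Nat.mul A (Nat.succ p)))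
      (Nat.sub (Nat.mul B p) (Nat.mul A (Nat.succ p)))) 0)

/-- `k + 2` remaining primes -/
def sf (k : Nat) : Nat → Nat → Nat → Bool :=
  @Nat.rec (fun _ => Nat → Nat → Nat → Bool)
    (fun A B P => rangeq (sfleaf A B) (mx (Nat.succ P) (Nat.succ (Nat.div A (Nat.sub B A))))
      (Nat.div (Nat.mul 2 B) (Nat.sub B A)))
    (fun k ih A B P =>
      rangeq (fun p => @Bool.rec (fun _ => Bool) true
          (ih (Nat.mul A (Nat.succ p)) (Nat.mul B p) p)
          (Nat.beq (Nat.gcd (Nat.mul A (Nat.succ p)) (Nat.mul B p)) 1))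
        (mx (Nat.succ P) (Nat.succ (Nat.div A (Nat.sub B A))))
        (Nat.div (Nat.mul (Nat.add k 3) B) (Nat.sub B A))) k

end

end Run7.h29
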