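import Mathlib
import Pool.Agent.Run7.h29.Sound
import Pool.Agent.Run7.h29.SearchQ

/-! Soundness of the search for squarefree solutions. -/

namespace Run7.h29

/-- Squarefree with all primes `1` modulo `3`. -/
def Sq1 (x : ℕ) : Prop := Squarefree x ∧ ∀ q : ℕ, q.Prime → q ∣ x → q % 3 = 1

/-- `A σ(x) + 1 = B x` has a squarefree solution with `r` prime factors, all larger than `P` and
`1` modulo `3`. -/
def SolQ (A B P r : ℕ) : Prop :=
  ∃ x : ℕ, Sq1 x ∧ x.primeFactors.card = r ∧ Big P x ∧ A * sg x + 1 = B * x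

theorem sqf_split {x r : ℕ} (hx : Sq1 x) (hc : x.primeFactors.card = r + 1) :
    ∃ p y : ℕ, p.Prime ∧ x = p * y ∧ Sq1 y ∧ y.primeFactors.card = r ∧
      Nat.Coprime p y ∧ Big p y ∧ p ∣ x := by
  obtain ⟨p, e, y, hp, hxy, hy, hyc, hcop, hyb, hpx⟩ := split hx.1.ne_zero hc
  have he : e = 0 := by
    by_contra he
    have h1 : p * p ∣ x := by
      rw [hxy]
      apply dvd_mul_of_dvd_left
      rw [← pow_two]
      exact pow_dvd_pow p (by omega)
    exact hp.one_lt.ne' (Nat.isUnit_iff.mp (hx.1 p h1))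
  subst he
  rw [Nat.zero_add, pow_one] at hxy
  have hyx : y ∣ x := by rw [hxy]; exact dvd_mul_left y p
  exact ⟨p, y, hp, hxy, ⟨hx.1.squarefree_of_dvd hyx, fun q hq hqy => hx.2 q hq (hqy.trans hyx)⟩,
    hyc, hcop, hyb, hpx⟩

theorem node_q {A B P r : ℕ} (hAB : A < B)
    (h : ∀ p : ℕ, p.Prime → p % 3 = 1 → P < p → A / (B - A) < p →
      p ≤ (r + 1) * B / (B - A) → ¬ SolQ (A * (p + 1)) (B * p) p r) :
    ¬ SolQ A B P (r + 1) := by
  rintro ⟨x, hx, hc, hb, heq⟩
  obtain ⟨p, y, hp, hxy, hy, hyc, hcop, hyb, hpx⟩ := sqf_split hx hc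
  have hx' : x ≠ 0 := hx.1.ne_zero
  have hx0 : 0 < x := Nat.pos_of_ne_zero hx'
  have hPp : P < p := hb p hp hpx
  obtain ⟨D, rfl⟩ : ∃ D, B = A + D := ⟨B - A, by omega⟩
  have hD : A + D - A = D := by omega
  have hD0 : 0 < D := by omega
  rw [hD] at h
  refine h p hp (hx.2 p hp hpx) hPp ?_ ?_ ⟨y, hy, hyc, hyb, ?_⟩
  · -- lower bound
    rw [Nat.div_lt_iff_lt_mul hD0]
    have h1 := mul_succ_le_sg_mul hx' hp.one_lt hpx
    have h2 : A * (x * (p + 1)) ≤ A * (sg x * p) := Nat.mul_le_mul_left _ h1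
    have h3 : A * (sg x * p) < (A + D) * x * p := by
      have : A * sg x < (A + D) * x := by omega
      calc A * (sg x * p) = A * sg x * p := by ring
        _ < (A + D) * x * p := Nat.mul_lt_mul_of_pos_right this hp.pos
    have h4 : x * A < x * (p * D) := by
      have e1 : A * (x * (p + 1)) = x * A + A * x * p := by ring
      have e2 : (A + D) * x * p = x * (p * D) + A * x * p := by ring
      omega
    exact Nat.lt_of_mul_lt_mul_left h4
  · -- upper bound
    rw [Nat.le_div_iff_mul_le hD0]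
    have h1 := sg_bound r x p hx' hc hp.pos (fun q hq hqx => by
      rcases (Nat.Prime.dvd_mul hq).mp (hxy ▸ hqx) with h | h
      · exact ((Nat.prime_dvd_prime_iff_eq hq hp).mp h).ge
      · exact (hyb q hq h).le)
    have hpx' : p ≤ x := Nat.le_of_dvd hx0 hpx
    rcases Nat.lt_or_ge (r + 1) p with hlt | hge
    · obtain ⟨s, rfl⟩ : ∃ s, p = s + (r + 1) := ⟨p - (r + 1), by omega⟩
      have e0 : s + (r + 1) - (r + 1) = s := by omega
      rw [e0] at h1
      have h2 : (A + D) * x * s < (A * (s + (r + 1)) + 1) * x := by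
        have h3 : A * (sg x * s) ≤ A * (x * (s + (r + 1))) := Nat.mul_le_mul_left _ h1.le
        have e1 : (A + D) * x * s = A * (sg x * s) + s := by rw [← heq]; ring
        have e2 : (A * (s + (r + 1)) + 1) * x = A * (x * (s + (r + 1))) + x := by ring
        omega
      have h4 : (A + D) * s < A * (s + (r + 1)) + 1 := by
        have : (A + D) * s * x < (A * (s + (r + 1)) + 1) * x := by
          calc (A + D) * s * x = (A + D) * x * s := by ring
            _ < _ := h2
        exact Nat.lt_of_mul_lt_mul_right this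
      have e3 : (s + (r + 1)) * D = s * D + (r + 1) * D := by ring
      have e4 : (r + 1) * (A + D) = (r + 1) * A + (r + 1) * D := by ring
      have e5 : (A + D) * s = A * s + s * D := by ring
      have e6 : A * (s + (r + 1)) = A * s + (r + 1) * A := by ring
      omega
    · calc p * D ≤ (r + 1) * D := Nat.mul_le_mul_right _ hge
        _ ≤ (r + 1) * (A + D) := Nat.mul_le_mul_left _ (by omega)
  · have hs : sg x = (p + 1) * sg y := by rw [hxy, sg_mul hcop, sg_prime hp]
    rw [hs] at heq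
    conv_rhs at heq => rw [hxy]
    rw [mul_assoc, mul_assoc]
    exact heq

theorem rangeq_sound {child : ℕ → Bool} {lo hi : ℕ} (h : rangeq child lo hi = true) {p : ℕ}
    (hp : p.Prime) (h3 : 3 < p) (hm3 : p % 3 = 1) (hlo : lo ≤ p) (hhi : p ≤ hi) :
    child p = true := by
  have h1 : all6 child (6 * ((lo + 4) / 6) + 1) ((hi + 5 - 6 * ((lo + 4) / 6)) / 6) = true := h
  have hm : p % 6 = 1 := by
    rcases mod_six hp h3 with hm | hm
    · exact hm
    · omega
  have e : p = 6 * ((lo + 4) / 6) + 1 + 6 * (p / 6 - (lo + 4) / 6) := by omega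
  rw [e]
  apply all6_sound _ h1
  · omega
  · rw [← e]; exact cand_prime hp h3

theorem sfleaf_sound {A B p : ℕ} (hp3 : 3 < p) (h : sfleaf A B p = true) :
    ¬ SolQ (A * (p + 1)) (B * p) p 1 := by
  rintro ⟨x, hx, hc, hb, heq⟩
  obtain ⟨q, y, hq, hxy, hy, hyc, hcop, hyb, hqx⟩ := sqf_split hx hc
  have hy1 : y = 1 := one_of_card_zero hy.1.ne_zero hyc
  subst hy1
  rw [mul_one] at hxy
  rw [hxy] at hx hb heq
  have hpq : p < q := hb q hq dvd_rfl
  have hq3 : q % 3 = 1 := hx.2 q hq dvd_rfl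
  rw [sg_prime hq] at heq
  have hlt : A * (p + 1) < B * p := by
    by_contra hcon
    have h1 : B * p ≤ A * (p + 1) := by omega
    have h2 : B * p * q ≤ A * (p + 1) * q := Nat.mul_le_mul_right _ h1
    have h3 : A * (p + 1) * (q + 1) = A * (p + 1) * q + A * (p + 1) := by ring
    omega
  obtain ⟨D, hD⟩ : ∃ D, B * p = A * (p + 1) + D := ⟨B * p - A * (p + 1), by omega⟩
  have hD0 : 0 < D := by omega
  have hN : A * (p + 1) + 1 = D * q := by
    rw [hD] at heq
    have h3 : A * (p + 1) * (q + 1) = A * (p + 1) * q + A * (p + 1) := by ring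
    have h4 : (A * (p + 1) + D) * q = A * (p + 1) * q + D * q := by ring
    omega
  have h' : @Bool.rec (fun _ => Bool) true
    (sfhit p ((A * (p + 1) + 1) / (B * p - A * (p + 1))))
    (Nat.beq ((A * (p + 1) + 1) % (B * p - A * (p + 1))) 0) = true := h
  have hDD : B * p - A * (p + 1) = D := by omega
  rw [hDD, hN, Nat.mul_mod_right, Nat.mul_div_cancel_left _ hD0] at h'
  have h2 : @Bool.rec (fun _ => Bool)
    (@Bool.rec (fun _ => Bool) true
      (@Bool.rec (fun _ => Bool) true false (Nat.beq (q % 3) 1)) (cand q))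
    true (Nat.ble q p) = true := h'
  rw [brec_iff] at h2
  rcases h2 with ⟨h3, _⟩ | ⟨_, h3⟩
  · have := Nat.le_of_ble_eq_true h3
    omega
  · rw [cand_prime hq (by omega), hq3] at h3
    exact absurd h3 (by show ¬ (false = true); simp)

theorem sf_sound (k : ℕ) : ∀ A B P : ℕ, A < B → 3 ≤ P → sf k A B P = true →
    ¬ SolQ A B P (k + 2) := by
  induction k with
  | zero =>
    intro A B P hAB hP h
    have h' : rangeq (sfleaf A B) (mx (P + 1) (A / (B - A) + 1)) (2 * B / (B - A)) = true := h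
    rw [mx_eq] at h'
    apply node_q hAB
    intro p hp hp3 hPp hlo hhi
    exact sfleaf_sound (by omega) (rangeq_sound h' hp (by omega) hp3 (max_le hPp hlo) hhi)
  | succ k ih =>
    intro A B P hAB hP h
    have h' : rangeq (fun p => @Bool.rec (fun _ => Bool) true
          (sf k (A * (p + 1)) (B * p) p)
          (Nat.beq (Nat.gcd (A * (p + 1)) (B * p)) 1))
        (mx (P + 1) (A / (B - A) + 1)) ((k + 3) * B / (B - A)) = true := h
    rw [mx_eq] at h'
    apply node_q hAB
    intro p hp hp3 hPp hlo hhi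
    have h1 := rangeq_sound h' hp (by omega) hp3 (max_le hPp hlo) hhi
    rw [brec_iff] at h1
    rcases h1 with ⟨_, h2⟩ | ⟨h2, _⟩
    · refine ih _ _ _ ?_ (by omega) h2
      -- `A (p + 1) < B p`
      have h3 : 0 < B - A := by omega
      rw [Nat.div_lt_iff_lt_mul h3] at hlo
      obtain ⟨D, rfl⟩ : ∃ D, B = A + D := ⟨B - A, by omega⟩
      have hD : A + D - A = D := by omega
      rw [hD] at hlo
      have e1 : A * (p + 1) = A * p + A := by ring
      have e2 : (A + D) * p = A * p + p * D := by ring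
      omega
    · rintro ⟨y, hy, hyc, hyb, heq⟩
      apply beq_false h2
      have h3 : Nat.gcd (A * (p + 1)) (B * p) ∣ A * (p + 1) * sg y :=
        dvd_mul_of_dvd_left (Nat.gcd_dvd_left _ _) _
      have h4 : Nat.gcd (A * (p + 1)) (B * p) ∣ B * p * y :=
        dvd_mul_of_dvd_left (Nat.gcd_dvd_right _ _) _
      rw [← heq] at h4
      exact Nat.dvd_one.mp ((Nat.dvd_add_right h3).mp h4)

/-- The parity of the number of primes. -/
theorem sg_mod_three (r : ℕ) : ∀ x : ℕ, Sq1 x → x.primeFactors.card = r →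
    sg x % 3 = 2 ^ r % 3 := by
  induction r with
  | zero =>
    intro x hx hc
    have := one_of_card_zero hx.1.ne_zero hc
    subst this
    rw [sg_one, pow_zero]
  | succ r ih =>
    intro x hx hc
    obtain ⟨p, y, hp, hxy, hy, hyc, hcop, hyb, hpx⟩ := sqf_split hx hc
    have h1 := ih y hy hyc
    have h2 := hx.2 p hp hpx
    rw [hxy, sg_mul hcop, sg_prime hp, Nat.mul_mod, h1, pow_succ, Nat.mul_mod (2 ^ r) 2]
    have h3 : (p + 1) % 3 = 2 % 3 := by omega
    rw [h3, mul_comm]

theorem sq1_of {T x : ℕ} (hT : T % 3 = 0) (hT1 : 1 ≤ T) (hx : Squarefree x) (hb : Big 3 x)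
    (h : (T - 1) * sg x + 1 = T * x) : Sq1 x ∧ sg x % 3 = 1 := by
  have hs : sg x % 3 = 1 := by
    obtain ⟨j, hj⟩ : ∃ j, T = 3 * j := ⟨T / 3, by omega⟩
    obtain ⟨t, ht⟩ : ∃ t, T = t + 1 := ⟨T - 1, by omega⟩
    have e1 : (T - 1) * sg x + sg x = T * sg x := by
      rw [ht]; simp only [Nat.add_sub_cancel]; ring
    have e2 : T * sg x = 3 * (j * sg x) := by rw [hj]; ring
    have e3 : T * x = 3 * (j * x) := by rw [hj]; ring
    omega
  refine ⟨⟨hx, ?_⟩, hs⟩
  intro q hq hqx
  have hq3 : 3 < q := hb q hq hqx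
  have h3 : ¬ 3 ∣ q := fun h => by
    have := (Nat.prime_dvd_prime_iff_eq Nat.prime_three hq).mp h; omega
  rcases (by omega : q % 3 = 1 ∨ q % 3 = 2) with h1 | h1
  · exact h1
  · exfalso
    obtain ⟨y, hy⟩ := hqx
    have hcop : Nat.Coprime q y := by
      rcases Nat.coprime_or_dvd_of_prime hq y with h | h
      · exact h
      · exfalso
        have h2 : q * q ∣ x := by rw [hy]; exact mul_dvd_mul_left q h
        exact hq.one_lt.ne' (Nat.isUnit_iff.mp (hx q h2))
    have h2 : (q + 1) % 3 = 0 := by omega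
    rw [hy, sg_mul hcop, sg_prime hq, Nat.mul_mod, h2, zero_mul, Nat.zero_mod] at hs
    omega

end Run7.h29
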