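import Mathlib
import Pool.Agent.Run7.h29.Top
import Pool.Agent.Run7.h29.SoundQ
import Pool.Agent.Run7.h29.KQ

namespace Run7.h29.SquarefreeNine

open Run7.h29

/-- A squarefree counterexample to Graham's statement has at least nine distinct prime factors. -/
theorem result (n : ℕ) (hn : 0 < n) (h : (∑ i ∈ n.properDivisors, i) = n / 2) (h2 : n ≠ 2)
    (h3 : ∀ k : ℕ, n ≠ 3 ^ k) (hsq : Squarefree n) : 9 ≤ n.primeFactors.card := by
  obtain ⟨a, m, hnm, hm, hbig, hcop, heq, _⟩ := reduce hn h h2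
  have hm1 : 1 ≤ m.primeFactors.card := by
    by_contra hc
    have hc0 : m.primeFactors.card = 0 := by omega
    have := one_of_card_zero hm hc0
    subst this
    exact h3 a (by rw [hnm, mul_one])
  have hmn : m ∣ n := by rw [hnm]; exact dvd_mul_left m _
  have hsm : Squarefree m := hsq.squarefree_of_dvd hmn
  have ha : a = 0 ∨ a = 1 := by
    by_contra hcon
    have h9 : 3 * 3 ∣ n := by
      rw [hnm]
      apply dvd_mul_of_dvd_left
      rw [← pow_two]
      exact pow_dvd_pow 3 (by omega)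
    have := Nat.isUnit_iff.mp (hsq 3 h9)
    omega
  have hT3 : 3 ^ (a + 1) % 3 = 0 := by rw [pow_succ]; exact Nat.mul_mod_left _ _
  have hT1 : 1 ≤ 3 ^ (a + 1) := Nat.one_le_pow _ _ (by norm_num)
  obtain ⟨hs1, hmod⟩ := sq1_of hT3 hT1 hsm hbig heq
  have hpar := sg_mod_three _ m hs1 rfl
  rw [hmod] at hpar
  set r := m.primeFactors.card with hr
  have heven : r % 2 = 0 := by
    rcases Nat.even_or_odd' r with ⟨j, hj | hj⟩
    · omega
    · exfalso
      rw [hj, pow_succ, pow_mul, Nat.mul_mod, Nat.pow_mod] at hpar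
      norm_num at hpar
  by_contra hlt
  rcases ha with rfl | rfl
  · rw [pow_zero, one_mul] at hnm
    have hrn : n.primeFactors.card = r := by rw [hnm]
    norm_num at heq
    have hcase : r = 2 ∨ r = 4 ∨ r = 6 ∨ r = 8 := by omega
    rcases hcase with h | h | h | h
    · exact sf_sound 0 2 3 3 (by norm_num) (by norm_num) s3_2 ⟨m, hs1, h, hbig, heq⟩
    · exact sf_sound 2 2 3 3 (by norm_num) (by norm_num) s3_4 ⟨m, hs1, h, hbig, heq⟩
    · exact sf_sound 4 2 3 3 (by norm_num) (by norm_num) s3_6 ⟨m, hs1, h, hbig, heq⟩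
    · exact sf_sound 6 2 3 3 (by norm_num) (by norm_num) s3_8 ⟨m, hs1, h, hbig, heq⟩
  · have hc := card_three (a := 1) one_ne_zero hm hcop
    rw [← hnm] at hc
    norm_num at heq
    have hcase : r = 2 ∨ r = 4 ∨ r = 6 := by omega
    rcases hcase with h | h | h
    · exact sf_sound 0 8 9 3 (by norm_num) (by norm_num) s9_2 ⟨m, hs1, h, hbig, heq⟩
    · exact sf_sound 2 8 9 3 (by norm_num) (by norm_num) s9_4 ⟨m, hs1, h, hbig, heq⟩
    · exact sf_sound 4 8 9 3 (by norm_num) (by norm_num) s9_6 ⟨m, hs1, h, hbig, heq⟩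

end Run7.h29.SquarefreeNine
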